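import Pool.Agent.Helper220.MG.CoreF

set_option autoImplicit false

namespace Pool.Agent.Helper220.MG.JAeY

open Set Topology Filter TopologicalSpace

theorem ae_YF {ι : Type} [Fintype ι] {L : Set (ι → ℝ)} (hL : IsCompact L) {ε : ℝ} (hε : 0 < ε)
    {r : (ι → ℝ) → (ι → ℝ)} (hr : ContinuousOn r (Metric.cthickening ε L))
    (hrL : MapsTo r (Metric.cthickening ε L) L) (hrid : ∀ x ∈ L, r x = x)
    {X : Type} [TopologicalSpace X] {F : Set (X → ℝ)} (hF : Fam L ε r X F)
    (hcomp : IsCompact (YF F))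
    (dense : ∀ (g : C(↥(YF F), ℝ)) (η : ℝ), 0 < η → ∃ f : ↥F, ∀ y : ↥(YF F), |y.1 f - g y| < η)
    (near_extend : ∃ δ : ℝ, 0 < δ ∧ ∀ (B : Set ↥(YF F)), IsClosed B →
      ∀ (f g : ↥(YF F) → (ι → ℝ)), ContinuousOn f B → MapsTo f B L → Continuous g →
        (∀ x, g x ∈ L) → (∀ x ∈ B, dist (f x) (g x) ≤ δ) →
        ∃ h : ↥(YF F) → (ι → ℝ), Continuous h ∧ (∀ x, h x ∈ L) ∧ EqOn h f B) :
    AE L ↥(YF F) := by
  intro B hB f hf hfL
  haveI : CompactSpace ↥(YF F) := isCompact_iff_compactSpace.mp hcomp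
  -- Tietze extension, coordinatewise
  have htz : ∀ p : ι, ∃ g : C(↥(YF F), ℝ), ∀ y ∈ B, g y = f y p := by
    intro p
    let fp : C(↥B, ℝ) := ⟨fun y => f y.1 p, by
      have h1 : Continuous (B.restrict f) := continuousOn_iff_continuous_restrict.mp hf
      exact (continuous_apply p).comp h1⟩
    obtain ⟨g, hg⟩ := ContinuousMap.exists_restrict_eq hB fp
    refine ⟨g, fun y hy => ?_⟩
    have := congrArg (fun k : C(↥B, ℝ) => k ⟨y, hy⟩) hg
    exact this
  choose fh hfh using htz
  obtain ⟨δ, hδ, hext⟩ := near_extend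
  have hN : IsCompact (Metric.cthickening ε L) := hL.cthickening
  have huc := hN.uniformContinuousOn_of_continuous hr
  rw [Metric.uniformContinuousOn_iff] at huc
  obtain ⟨η0, hη0, hη0'⟩ := huc δ hδ
  set η : ℝ := min η0 ε / 2 with hηdef
  have hη : 0 < η := by
    have : 0 < min η0 ε := lt_min hη0 hε
    positivity
  have hηη0 : η < η0 := by
    have h1 : min η0 ε ≤ η0 := min_le_left _ _
    have : 0 < min η0 ε := lt_min hη0 hε
    linarith
  have hηε : η < ε := by
    have h1 : min η0 ε ≤ ε := min_le_right _ _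
    have : 0 < min η0 ε := lt_min hη0 hε
    linarith
  choose g hg using fun p => dense (fh p) η hη
  obtain ⟨h, hhF, hhL, hhr⟩ := hF.ext (fun p => (g p).1) (fun p => (g p).2)
  let Hb : (↥F → ℝ) → (ι → ℝ) := fun z p => z ⟨h p, hhF p⟩
  let Gb : (↥F → ℝ) → (ι → ℝ) := fun z p => z (g p)
  have hHb : Continuous Hb := continuous_pi fun p => continuous_apply _
  have hGb : Continuous Gb := continuous_pi fun p => continuous_apply _
  have hHL : ∀ y ∈ YF F, Hb y ∈ L := by
    have hsub : YF F ⊆ Hb ⁻¹' L := by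
      apply closure_minimal
      · rintro _ ⟨x, rfl⟩
        exact hhL x
      · exact hL.isClosed.preimage hHb
    exact hsub
  have hclose : ∀ b : ↥(YF F), b ∈ B → dist (f b) (Gb b.1) < η := by
    intro b hb
    rw [dist_pi_lt_iff hη]
    intro p
    have h1 := hg p b
    rw [hfh p b hb] at h1
    rw [Real.dist_eq, abs_sub_comm]
    exact h1
  have hthick : ∀ b : ↥(YF F), b ∈ B → Gb b.1 ∈ Metric.thickening ε L := by
    intro b hb
    rw [Metric.mem_thickening_iff]
    exact ⟨f b, hfL hb, by rw [dist_comm]; exact (hclose b hb).trans hηε⟩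
  have hclaim : ∀ b : ↥(YF F), b ∈ B → Hb b.1 = r (Gb b.1) := by
    intro b hb
    have hbc : b.1 ∈ closure (range (ev F)) := b.2
    have hne : (𝓝[range (ev F)] b.1).NeBot := mem_closure_iff_nhdsWithin_neBot.mp hbc
    have ht1 : Tendsto Hb (𝓝[range (ev F)] b.1) (𝓝 (Hb b.1)) :=
      hHb.continuousAt.tendsto.mono_left nhdsWithin_le_nhds
    have hcr : ContinuousAt r (Gb b.1) := by
      apply hr.continuousAt
      exact Filter.mem_of_superset (Metric.isOpen_thickening.mem_nhds (hthick b hb))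
        (Metric.thickening_subset_cthickening _ _)
    have ht2 : Tendsto (fun z => r (Gb z)) (𝓝[range (ev F)] b.1) (𝓝 (r (Gb b.1))) := by
      have h3 : ContinuousAt (fun z => r (Gb z)) b.1 :=
        ContinuousAt.comp (g := r) (f := Gb) hcr hGb.continuousAt
      exact h3.tendsto.mono_left nhdsWithin_le_nhds
    have hev : Hb =ᶠ[𝓝[range (ev F)] b.1] (fun z => r (Gb z)) := by
      have h4 : ∀ᶠ z in 𝓝[range (ev F)] b.1, Gb z ∈ Metric.thickening ε L :=
        (hGb.continuousAt.tendsto.mono_left nhdsWithin_le_nhds).eventually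
          (Metric.isOpen_thickening.mem_nhds (hthick b hb))
      have h5 : ∀ᶠ z in 𝓝[range (ev F)] b.1, z ∈ range (ev F) := self_mem_nhdsWithin
      filter_upwards [h4, h5] with z hz4 hz5
      obtain ⟨x, rfl⟩ := hz5
      exact hhr x (Metric.thickening_subset_cthickening _ _ hz4)
    exact tendsto_nhds_unique_of_eventuallyEq ht1 ht2 hev
  refine hext B hB f (fun y => Hb y.1) hf hfL (hHb.comp continuous_subtype_val) (fun y => hHL y.1 y.2) ?_
  intro b hb
  show dist (f b) (Hb b.1) ≤ δ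
  rw [hclaim b hb, ← hrid (f b) (hfL hb)]
  apply le_of_lt
  apply hη0' _ (Metric.self_subset_cthickening L (hfL hb)) _
    (Metric.thickening_subset_cthickening _ _ (hthick b hb))
  exact (hclose b hb).trans hηη0

end Pool.Agent.Helper220.MG.JAeY
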