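import Pool.Agent.Helper220.MG.CoreF

set_option autoImplicit false

namespace Pool.Agent.Helper220.MG.JFamJ

open Set Topology Filter TopologicalSpace

theorem closing {G : Type*} (W : ∀ n : ℕ, (Fin n → G) → Set G) (hW : ∀ n g, (W n g).Countable)
    (F0 : Set G) (hF0 : F0.Countable) :
    ∃ F : Set G, F0 ⊆ F ∧ F.Countable ∧ ∀ (n : ℕ) (g : Fin n → G), (∀ j, g j ∈ F) → W n g ⊆ F := by
  let st : Set G → Set G := fun S => S ∪ ⋃ n : ℕ, ⋃ g ∈ {g : Fin n → G | ∀ j, g j ∈ S}, W n g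
  have hst : ∀ S, S.Countable → (st S).Countable := by
    intro S hS
    refine hS.union (Set.countable_iUnion fun n => ?_)
    refine Set.Countable.biUnion ?_ (fun g _ => hW n g)
    have := Set.countable_univ_pi (s := fun _ : Fin n => S) (fun _ => hS)
    refine this.mono ?_
    intro g hg
    simpa using hg
  let it : ℕ → Set G := fun n => st^[n] F0
  have hit : ∀ n, (it n).Countable := by
    intro n
    induction n with
    | zero => exact hF0
    | succ n ih =>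
      have : it (n + 1) = st (it n) := Function.iterate_succ_apply' _ _ _
      rw [this]
      exact hst _ ih
  have hsucc : ∀ n, it (n + 1) = st (it n) := fun n => Function.iterate_succ_apply' _ _ _
  have hmono : Monotone it := by
    apply monotone_nat_of_le_succ
    intro n
    rw [hsucc n]
    exact Set.subset_union_left
  refine ⟨⋃ n, it n, Set.subset_iUnion it 0, Set.countable_iUnion hit, ?_⟩
  intro n g hg
  have h1 : ∀ j, ∃ m, g j ∈ it m := fun j => Set.mem_iUnion.1 (hg j)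
  choose m hm using h1
  set N := Finset.univ.sup m with hN
  have h2 : ∀ j, g j ∈ it N := fun j => hmono (Finset.le_sup (f := m) (Finset.mem_univ j)) (hm j)
  intro y hy
  refine Set.mem_iUnion.2 ⟨N + 1, ?_⟩
  rw [hsucc N]
  refine Or.inr (Set.mem_iUnion.2 ⟨n, Set.mem_iUnion₂.2 ⟨g, h2, hy⟩⟩)

/-- existence of such a family containing a given countable family -/
theorem exists_fam {ι : Type} [Fintype ι] {L : Set (ι → ℝ)} (hL : IsCompact L) {ε : ℝ}
    {r : (ι → ℝ) → (ι → ℝ)} (hr : ContinuousOn r (Metric.cthickening ε L))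
    (hrL : MapsTo r (Metric.cthickening ε L) L)
    {X : Type} [TopologicalSpace X] (hFC : FC 3 X) (hAE : AE L X) (F0 : Set (X → ℝ))
    (hF0 : F0.Countable) (hc0 : ∀ f ∈ F0, Continuous f) (hb0 : ∀ f ∈ F0, ∃ C : ℝ, ∀ x, |f x| ≤ C) :
    ∃ F : Set (X → ℝ), F0 ⊆ F ∧ Fam L ε r X F := by
  classical
  let G := {f : X → ℝ // Continuous f ∧ ∃ C : ℝ, ∀ x, |f x| ≤ C}
  let add : G → G → G := fun f g => ⟨fun x => f.1 x + g.1 x, f.2.1.add g.2.1, by
    obtain ⟨C, hC⟩ := f.2.2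
    obtain ⟨D, hD⟩ := g.2.2
    exact ⟨C + D, fun x => (abs_add_le _ _).trans (add_le_add (hC x) (hD x))⟩⟩
  let mul : G → G → G := fun f g => ⟨fun x => f.1 x * g.1 x, f.2.1.mul g.2.1, by
    obtain ⟨C, hC⟩ := f.2.2
    obtain ⟨D, hD⟩ := g.2.2
    refine ⟨C * D, fun x => ?_⟩
    rw [abs_mul]
    exact mul_le_mul (hC x) (hD x) (abs_nonneg _) ((abs_nonneg _).trans (hC x))⟩
  let cst : ℚ → G := fun q => ⟨fun _ => (q : ℝ), continuous_const, |(q : ℝ)|, fun _ => le_refl _⟩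
  -- colours
  have hcol : ∀ (n : ℕ) (g : Fin n → G), (∀ x, ∃ j, 0 < (g j).1 x) →
      ∃ φ : Fin 3 → Fin n → G, (∀ i j x, 0 ≤ (φ i j).1 x) ∧
      (∀ i j x, (φ i j).1 x ≠ 0 → 0 < (g j).1 x) ∧
      (∀ i j j' x, j ≠ j' → (φ i j).1 x = 0 ∨ (φ i j').1 x = 0) ∧
      ∀ x, ∑ i, ∑ j, (φ i j).1 x = 1 := by
    intro n g hg
    obtain ⟨φ, h1, h2, h3, h4, h5⟩ := hFC n (fun j => {x | 0 < (g j).1 x})
      (fun j => isOpen_lt continuous_const (g j).2.1)
      (by
        rw [Set.eq_univ_iff_forall]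
        intro x
        obtain ⟨j, hj⟩ := hg x
        exact Set.mem_iUnion.2 ⟨j, hj⟩)
    have hle : ∀ i j x, |φ i j x| ≤ 1 := by
      intro i j x
      rw [abs_of_nonneg (h2 i j x), ← h5 x]
      calc φ i j x ≤ ∑ j, φ i j x :=
            Finset.single_le_sum (f := fun j => φ i j x) (fun j _ => h2 i j x) (Finset.mem_univ j)
        _ ≤ ∑ i, ∑ j, φ i j x :=
            Finset.single_le_sum (f := fun i => ∑ j, φ i j x)
              (fun i _ => Finset.sum_nonneg (fun j _ => h2 i j x)) (Finset.mem_univ i)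
    exact ⟨fun i j => ⟨φ i j, h1 i j, 1, hle i j⟩, h2, h3, h4, h5⟩
  -- extension
  have hext : ∀ g : ι → G, ∃ h : ι → G, (∀ x, (fun p => (h p).1 x) ∈ L) ∧
      ∀ x, (fun p => (g p).1 x) ∈ Metric.cthickening ε L →
        (fun p => (h p).1 x) = r (fun p => (g p).1 x) := by
    intro g
    have hgc : Continuous (fun x => fun p => (g p).1 x) :=
      continuous_pi (fun p => (g p).2.1)
    obtain ⟨h, hc, hl, he⟩ := hAE {x | (fun p => (g p).1 x) ∈ Metric.cthickening ε L}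
      (Metric.isClosed_cthickening.preimage hgc) (fun x => r (fun p => (g p).1 x))
      (hr.comp hgc.continuousOn (fun x hx => hx)) (fun x hx => hrL hx)
    obtain ⟨C, hC⟩ := hL.isBounded.exists_norm_le
    refine ⟨fun p => ⟨fun x => h x p, (continuous_apply p).comp hc, C, fun x => ?_⟩, hl, ?_⟩
    · exact (norm_le_pi_norm (h x) p).trans (hC _ (hl x))
    · intro x hx
      exact he hx
  -- one step
  have hstep : ∀ (n : ℕ) (g : Fin n → G), ∃ V : Set G, V.Countable ∧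
      (∀ i j, add (g i) (g j) ∈ V) ∧ (∀ i j, mul (g i) (g j) ∈ V) ∧ (∀ q, cst q ∈ V) ∧
      ((∀ x, ∃ j, 0 < (g j).1 x) →
        ∃ φ : Fin 3 → Fin n → G, (∀ i j, φ i j ∈ V) ∧ (∀ i j x, 0 ≤ (φ i j).1 x) ∧
        (∀ i j x, (φ i j).1 x ≠ 0 → 0 < (g j).1 x) ∧
        (∀ i j j' x, j ≠ j' → (φ i j).1 x = 0 ∨ (φ i j').1 x = 0) ∧
        ∀ x, ∑ i, ∑ j, (φ i j).1 x = 1) ∧
      (∀ e : ι → Fin n, ∃ h : ι → G, (∀ p, h p ∈ V) ∧ (∀ x, (fun p => (h p).1 x) ∈ L) ∧
        ∀ x, (fun p => (g (e p)).1 x) ∈ Metric.cthickening ε L →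
          (fun p => (h p).1 x) = r (fun p => (g (e p)).1 x)) := by
    intro n g
    have hE : ∀ e : ι → Fin n, ∃ h : ι → G, (∀ x, (fun p => (h p).1 x) ∈ L) ∧
        ∀ x, (fun p => (g (e p)).1 x) ∈ Metric.cthickening ε L →
          (fun p => (h p).1 x) = r (fun p => (g (e p)).1 x) := fun e => hext (fun p => g (e p))
    choose hh hh1 hh2 using hE
    have hC : ∃ V : Set G, V.Countable ∧ ((∀ x, ∃ j, 0 < (g j).1 x) →
        ∃ φ : Fin 3 → Fin n → G, (∀ i j, φ i j ∈ V) ∧ (∀ i j x, 0 ≤ (φ i j).1 x) ∧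
        (∀ i j x, (φ i j).1 x ≠ 0 → 0 < (g j).1 x) ∧
        (∀ i j j' x, j ≠ j' → (φ i j).1 x = 0 ∨ (φ i j').1 x = 0) ∧
        ∀ x, ∑ i, ∑ j, (φ i j).1 x = 1) := by
      by_cases hg : ∀ x, ∃ j, 0 < (g j).1 x
      · obtain ⟨φ, h1, h2, h3, h4⟩ := hcol n g hg
        exact ⟨Set.range (fun p : Fin 3 × Fin n => φ p.1 p.2), Set.countable_range _,
          fun _ => ⟨φ, fun i j => ⟨(i, j), rfl⟩, h1, h2, h3, h4⟩⟩
      · exact ⟨∅, Set.countable_empty, fun h => absurd h hg⟩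
    obtain ⟨V, hV, hV1⟩ := hC
    refine ⟨(Set.range (fun p : Fin n × Fin n => add (g p.1) (g p.2)) ∪
      Set.range (fun p : Fin n × Fin n => mul (g p.1) (g p.2))) ∪ (Set.range cst ∪ (V ∪
      Set.range (fun p : (ι → Fin n) × ι => hh p.1 p.2))), ?_, ?_, ?_, ?_, ?_, ?_⟩
    · exact ((Set.countable_range _).union (Set.countable_range _)).union
        ((Set.countable_range _).union (hV.union (Set.countable_range _)))
    · exact fun i j => Or.inl (Or.inl ⟨(i, j), rfl⟩)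
    · exact fun i j => Or.inl (Or.inr ⟨(i, j), rfl⟩)
    · exact fun q => Or.inr (Or.inl ⟨q, rfl⟩)
    · intro hg
      obtain ⟨φ, h0, h1, h2, h3, h4⟩ := hV1 hg
      exact ⟨φ, fun i j => Or.inr (Or.inr (Or.inl (h0 i j))), h1, h2, h3, h4⟩
    · intro e
      exact ⟨hh e, fun p => Or.inr (Or.inr (Or.inr ⟨(e, p), rfl⟩)), hh1 e, hh2 e⟩
  choose W hW1 hW2 hW3 hW4 hW5 hW6 using hstep
  obtain ⟨F, hF1, hF2, hF3⟩ := closing W hW1 ((Subtype.val : G → X → ℝ) ⁻¹' F0)
    (hF0.preimage Subtype.val_injective)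
  refine ⟨Subtype.val '' F, ?_, ?_⟩
  · intro f hf
    exact ⟨⟨f, hc0 f hf, hb0 f hf⟩, hF1 hf, rfl⟩
  · refine ⟨hF2.image _, ?_, ?_, ?_, ?_, ?_, ?_, ?_⟩
    · rintro _ ⟨f, _, rfl⟩
      exact f.2.1
    · rintro _ ⟨f, _, rfl⟩
      exact f.2.2
    · rintro _ ⟨f, hf, rfl⟩ _ ⟨g, hg, rfl⟩
      refine ⟨add f g, ?_, rfl⟩
      have := hF3 2 ![f, g] (by
        intro j
        fin_cases j
        · exact hf
        · exact hg)
      exact this (hW2 2 ![f, g] 0 1)
    · rintro _ ⟨f, hf, rfl⟩ _ ⟨g, hg, rfl⟩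
      refine ⟨mul f g, ?_, rfl⟩
      have := hF3 2 ![f, g] (by
        intro j
        fin_cases j
        · exact hf
        · exact hg)
      exact this (hW3 2 ![f, g] 0 1)
    · intro q
      refine ⟨cst q, ?_, rfl⟩
      exact hF3 0 Fin.elim0 (fun j => j.elim0) (hW4 0 Fin.elim0 q)
    · intro n g hg hpos
      choose g' hg' hgg using hg
      have hgg' : ∀ j x, (g' j).1 x = g j x := fun j x => by rw [hgg j]
      obtain ⟨φ, h0, h1, h2, h3, h4⟩ := hW5 n g' (by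
        intro x
        obtain ⟨j, hj⟩ := hpos x
        exact ⟨j, by rw [hgg' j x]; exact hj⟩)
      refine ⟨fun i j => (φ i j).1, fun i j => ⟨φ i j, hF3 n g' hg' (h0 i j), rfl⟩, h1, ?_, h3, h4⟩
      intro i j x hx
      rw [← hgg' j x]
      exact h2 i j x hx
    · intro g hg
      choose g' hg' hgg using hg
      have hgg' : ∀ j x, (g' j).1 x = g j x := fun j x => by rw [hgg j]
      obtain ⟨h, h0, h1, h2⟩ := hW6 (Fintype.card ι) (fun j => g' ((Fintype.equivFin ι).symm j))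
        (Fintype.equivFin ι)
      simp only [Equiv.symm_apply_apply] at h2
      refine ⟨fun p => (h p).1, fun p => ⟨h p, hF3 _ _ (fun j => hg' _) (h0 p), rfl⟩, h1, ?_⟩
      intro x hx
      have e1 : (fun p => (g' p).1 x) = fun p => g p x := funext (fun p => hgg' p x)
      have := h2 x (by rw [e1]; exact hx)
      rw [e1] at this
      exact this

end Pool.Agent.Helper220.MG.JFamJ
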