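import Pool.Agent.Helper220.MG.CoreF

set_option autoImplicit false

namespace Pool.Agent.Helper220.MG.JFcY

open Set Topology Filter TopologicalSpace

theorem isCompact_YF {X : Type} (F : Set (X → ℝ)) (hb : ∀ f ∈ F, ∃ C : ℝ, ∀ x, |f x| ≤ C) :
    IsCompact (YF F) := by
  choose! C hC using hb
  have hK : IsCompact (Set.pi univ (fun f : ↥F => Icc (-(C f.1)) (C f.1))) :=
    isCompact_univ_pi (fun f => isCompact_Icc)
  refine hK.closure_of_subset ?_
  rintro _ ⟨x, rfl⟩ f _
  exact abs_le.mp (hC f.1 f.2 x)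

theorem YF_of_closed {X : Type} (F : Set (X → ℝ)) (P : Set (↥F → ℝ)) (hP : IsClosed P)
    (h : ∀ x, ev F x ∈ P) : ∀ y ∈ YF F, y ∈ P := by
  intro y hy
  have : YF F ⊆ P := closure_minimal (by rintro _ ⟨x, rfl⟩; exact h x) hP
  exact this hy

theorem fc_YF {ι : Type} [Fintype ι] {L : Set (ι → ℝ)} {ε : ℝ} {r : (ι → ℝ) → (ι → ℝ)}
    {X : Type} [TopologicalSpace X] {F : Set (X → ℝ)} (hF : Fam L ε r X F)
    (hcomp : IsCompact (YF F))
    (dense : ∀ (g : C(↥(YF F), ℝ)) (η : ℝ), 0 < η → ∃ f : ↥F, ∀ y : ↥(YF F), |y.1 f - g y| < η) :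
    FC 3 ↥(YF F) := by
  intro n U hU hcov
  have : CompactSpace ↥(YF F) := isCompact_iff_compactSpace.mp hcomp
  rcases Nat.eq_zero_or_pos n with hn | hn
  · subst hn
    have hemp : IsEmpty ↥(YF F) := by
      constructor
      intro y
      have : y ∈ ⋃ j, U j := by rw [hcov]; trivial
      obtain ⟨j, -⟩ := mem_iUnion.mp this
      exact j.elim0
    refine ⟨fun _ _ _ => 0, fun _ _ => continuous_const, fun _ _ _ => le_rfl,
      fun _ j => j.elim0, fun _ j => j.elim0, fun x => (hemp.false x).elim⟩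
  · obtain ⟨ρ, hsupp, hsum, hI, -⟩ := exists_continuous_sum_one_of_isOpen_isCompact
      (X := ↥(YF F)) (t := univ) hU isCompact_univ hcov.ge
    have hn' : (0:ℝ) < n := by exact_mod_cast hn
    have hη : (0:ℝ) < 1 / (8 * n) := by positivity
    let c : C(↥(YF F), ℝ) := ContinuousMap.const _ (1 / (2 * (n:ℝ)))
    choose f hf using fun j => dense (ρ j - c) (1 / (8 * n)) hη
    have hf' : ∀ j (y : ↥(YF F)), |y.1 (f j) - (ρ j y - 1 / (2 * (n:ℝ)))| < 1 / (8 * n) := hf
    have e1 : 1 / (8 * (n:ℝ)) = (1 / n) / 8 := by field_simp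
    have e2 : 1 / (2 * (n:ℝ)) = (1 / n) / 2 := by field_simp
    have hn1 : (0:ℝ) < 1 / n := by positivity
    rw [e1, e2] at hf'
    have h1 : ∀ j (y : ↥(YF F)), 0 ≤ y.1 (f j) → y ∈ U j := by
      intro j y hy
      apply hsupp j
      apply subset_tsupport
      rw [Function.mem_support]
      have := abs_lt.mp (hf' j y)
      have : 0 < ρ j y := by linarith [this.2]
      exact this.ne'
    have h2 : ∀ y : ↥(YF F), ∃ j, 0 < y.1 (f j) := by
      intro y
      have hs : ∑ j, ρ j y = 1 := by
        have := hsum (mem_univ y)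
        simpa using this
      obtain ⟨j, hj⟩ : ∃ j, 1 / (n:ℝ) ≤ ρ j y := by
        by_contra hcon
        push Not at hcon
        have : ∑ j, ρ j y < ∑ _j : Fin n, 1 / (n:ℝ) := by
          apply Finset.sum_lt_sum_of_nonempty
          · exact ⟨⟨0, hn⟩, Finset.mem_univ _⟩
          · intro j _; exact hcon j
        rw [hs, Finset.sum_const, Finset.card_univ, Fintype.card_fin, nsmul_eq_mul] at this
        have h3 : (n:ℝ) * (1 / n) = 1 := by field_simp
        linarith
      refine ⟨j, ?_⟩
      have := abs_lt.mp (hf' j y)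
      linarith [this.1]
    have h3 : ∀ x : X, ∃ j, 0 < (f j).1 x := by
      intro x
      obtain ⟨j, hj⟩ := h2 ⟨ev F x, subset_closure ⟨x, rfl⟩⟩
      exact ⟨j, hj⟩
    obtain ⟨φ, hφF, hφ0, hφg, hφd, hφs⟩ := hF.col n (fun j => (f j).1) (fun j => (f j).2) h3
    refine ⟨fun i j y => y.1 ⟨φ i j, hφF i j⟩, ?_, ?_, ?_, ?_, ?_⟩
    · intro i j
      exact (continuous_apply _).comp continuous_subtype_val
    · intro i j y
      exact YF_of_closed F {z | 0 ≤ z ⟨φ i j, hφF i j⟩}
        (isClosed_le continuous_const (continuous_apply _)) (fun x => hφ0 i j x) y.1 y.2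
    · intro i j y hy
      apply h1
      have := YF_of_closed F ({z | z ⟨φ i j, hφF i j⟩ = 0} ∪ {z | 0 ≤ z (f j)})
        ((isClosed_eq (continuous_apply _) continuous_const).union
          (isClosed_le continuous_const (continuous_apply _)))
        (fun x => by
          by_cases hx : φ i j x = 0
          · exact Or.inl hx
          · exact Or.inr (hφg i j x hx).le) y.1 y.2
      rcases this with h | h
      · exact absurd h hy
      · exact h
    · intro i j j' y hjj
      exact YF_of_closed F ({z | z ⟨φ i j, hφF i j⟩ = 0} ∪ {z | z ⟨φ i j', hφF i j'⟩ = 0})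
        ((isClosed_eq (continuous_apply _) continuous_const).union
          (isClosed_eq (continuous_apply _) continuous_const))
        (fun x => hφd i j j' x hjj) y.1 y.2
    · intro y
      exact YF_of_closed F {z | ∑ i, ∑ j, z ⟨φ i j, hφF i j⟩ = 1}
        (isClosed_eq (continuous_finsetSum _ fun i _ => continuous_finsetSum _ fun j _ =>
          continuous_apply _) continuous_const)
        (fun x => hφs x) y.1 y.2
end Pool.Agent.Helper220.MG.JFcY
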