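import Pool.Agent.Helper220.MG.Core

set_option autoImplicit false

namespace Pool.Agent.Helper220.MG.JSW

open Set Topology Filter TopologicalSpace

/-- Stone-Weierstrass for a family closed under addition, multiplication and containing the
rational constants -/
theorem sw_rat {Y : Type} [TopologicalSpace Y] [CompactSpace Y] (A : Set C(Y, ℝ))
    (hadd : ∀ f ∈ A, ∀ g ∈ A, f + g ∈ A) (hmul : ∀ f ∈ A, ∀ g ∈ A, f * g ∈ A)
    (hq : ∀ q : ℚ, ContinuousMap.const Y (q : ℝ) ∈ A)
    (hsep : ∀ x y : Y, x ≠ y → ∃ f ∈ A, f x ≠ f y) (g : C(Y, ℝ)) (ε : ℝ) (hε : 0 < ε) :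
    ∃ f ∈ A, ∀ y, |f y - g y| < ε := by
  have halg : ∀ r : ℝ, algebraMap ℝ C(Y, ℝ) r ∈ closure A := by
    intro r
    have h1 : r ∈ closure (Set.range ((↑) : ℚ → ℝ)) := Rat.denseRange_cast r
    have h2 : Continuous (fun r : ℝ => algebraMap ℝ C(Y, ℝ) r) := continuous_algebraMap ℝ C(Y, ℝ)
    refine map_mem_closure h2 h1 ?_
    rintro _ ⟨q, rfl⟩
    exact hq q
  let S : Subalgebra ℝ C(Y, ℝ) :=
    { carrier := closure A
      mul_mem' := fun {a b} ha hb => map_mem_closure₂ continuous_mul ha hb hmul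
      add_mem' := fun {a b} ha hb => map_mem_closure₂ continuous_add ha hb hadd
      algebraMap_mem' := halg }
  have hS : S.SeparatesPoints := by
    intro x y hxy
    obtain ⟨f, hf, hfxy⟩ := hsep x y hxy
    exact ⟨f, ⟨f, subset_closure hf, rfl⟩, hfxy⟩
  have htop := ContinuousMap.subalgebra_topologicalClosure_eq_top_of_separatesPoints S hS
  have hg : g ∈ S.topologicalClosure := by rw [htop]; exact trivial
  have hg2 : g ∈ closure (closure A) := hg
  rw [closure_closure] at hg2
  obtain ⟨f, hf, hd⟩ := Metric.mem_closure_iff.1 hg2 ε hε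
  refine ⟨f, hf, fun y => ?_⟩
  have h3 := ContinuousMap.dist_apply_le_dist (f := g) (g := f) y
  rw [Real.dist_eq, abs_sub_comm] at h3
  linarith

end Pool.Agent.Helper220.MG.JSW
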