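import Pool.Agent.Helper220.MG.Ext
import Pool.Agent.Helper220.MG.JSW
import Pool.Agent.Helper220.MG.JFamJ
import Pool.Agent.Helper220.MG.JFcY
import Pool.Agent.Helper220.MG.JAeY

set_option autoImplicit false

namespace Pool.Agent.Helper220.MG

open Set Topology Filter TopologicalSpace Pool.MengerAx

theorem dense_YF {ι : Type} [Fintype ι] {L : Set (ι → ℝ)} {ε : ℝ} {r : (ι → ℝ) → (ι → ℝ)}
    {X : Type} [TopologicalSpace X] {F : Set (X → ℝ)} (hF : Fam L ε r X F)
    (hcomp : IsCompact (YF F)) (g : C(↥(YF F), ℝ)) (η : ℝ) (hη : 0 < η) :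
    ∃ f : ↥F, ∀ y : ↥(YF F), |y.1 f - g y| < η := by
  haveI : CompactSpace ↥(YF F) := isCompact_iff_compactSpace.1 hcomp
  let co : ↥F → C(↥(YF F), ℝ) := fun f => ⟨fun y => y.1 f, (continuous_apply f).comp continuous_subtype_val⟩
  -- closed relations pass to the closure
  have key : ∀ (P : (↥F → ℝ) → Prop), IsClosed {y | P y} → (∀ x, P (ev F x)) →
      ∀ y : ↥(YF F), P y.1 := by
    intro P hP h y
    have : YF F ⊆ {y | P y} := closure_minimal (by rintro _ ⟨x, rfl⟩; exact h x) hP
    exact this y.2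
  obtain ⟨f, ⟨f', rfl⟩, hf⟩ := JSW.sw_rat (range co) (by
      rintro _ ⟨a, rfl⟩ _ ⟨b, rfl⟩
      refine ⟨⟨_, hF.add a.1 a.2 b.1 b.2⟩, ?_⟩
      ext y
      exact key (fun y => y ⟨_, hF.add a.1 a.2 b.1 b.2⟩ = y a + y b)
        (isClosed_eq (by fun_prop) (by fun_prop)) (fun x => rfl) y) (by
      rintro _ ⟨a, rfl⟩ _ ⟨b, rfl⟩
      refine ⟨⟨_, hF.mul a.1 a.2 b.1 b.2⟩, ?_⟩
      ext y
      exact key (fun y => y ⟨_, hF.mul a.1 a.2 b.1 b.2⟩ = y a * y b)
        (isClosed_eq (by fun_prop) (by fun_prop)) (fun x => rfl) y) (by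
      intro q
      refine ⟨⟨_, hF.rat q⟩, ?_⟩
      ext y
      exact key (fun y => y ⟨_, hF.rat q⟩ = (q : ℝ))
        (isClosed_eq (by fun_prop) (by fun_prop)) (fun x => rfl) y) (by
      intro x y hxy
      have : x.1 ≠ y.1 := fun h => hxy (Subtype.ext h)
      obtain ⟨f, hf⟩ := Function.ne_iff.1 this
      exact ⟨co f, ⟨f, rfl⟩, hf⟩) g η hη
  exact ⟨f', hf⟩

theorem compactify {ι : Type} [Fintype ι] {L : Set (ι → ℝ)} (hL : NR L) {n : ℕ} {X : Type}
    [TopologicalSpace X] (hX : InU n X) (h1 : FC 3 X) (h2 : AE L X) :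
    ∃ (Y : Type) (_ : TopologicalSpace Y), CompactSpace Y ∧ MetrizableSpace Y ∧ FC 3 Y ∧ AE L Y ∧
      ∃ j : X → Y, IsEmbedding j ∧ DenseRange j := by
  obtain ⟨e, he⟩ := hX
  obtain ⟨ε, hε, r, hr, hrL, hrid⟩ := hL.retr
  -- bounded coordinates
  let c : Fin n → X → ℝ := fun i x => Real.arctan (e x i)
  let F0 : Set (X → ℝ) := range c
  obtain ⟨F, hF0, hF⟩ := JFamJ.exists_fam hL.compact hr hrL h1 h2 F0 (countable_range _) (by
      rintro _ ⟨i, rfl⟩
      have : Continuous e := he.continuous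
      exact Real.continuous_arctan.comp (by fun_prop)) (by
      rintro _ ⟨i, rfl⟩
      refine ⟨Real.pi / 2, fun x => ?_⟩
      rw [abs_le]
      exact ⟨(Real.neg_pi_div_two_lt_arctan _).le, (Real.arctan_lt_pi_div_two _).le⟩)
  have hcomp : IsCompact (YF F) := JFcY.isCompact_YF F hF.bdd
  haveI : CompactSpace ↥(YF F) := isCompact_iff_compactSpace.1 hcomp
  haveI : Countable ↥F := hF.countable.to_subtype
  have hmet : MetrizableSpace (↥F → ℝ) := by
    infer_instance
  haveI : MetrizableSpace ↥(YF F) := inferInstance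
  obtain ⟨δ, hδ, hn⟩ := near_extend hL
  refine ⟨↥(YF F), inferInstance, inferInstance, inferInstance,
    JFcY.fc_YF hF hcomp (dense_YF hF hcomp), ?_, ?_⟩
  · letI := metrizableSpaceMetric ↥(YF F)
    exact JAeY.ae_YF hL.compact hε hr hrL hrid hF hcomp (dense_YF hF hcomp)
      ⟨δ, hδ, fun B hB f g a1 a2 a3 a4 a5 => hn _ B hB f g a1 a2 a3 a4 a5⟩
  · let j : X → ↥(YF F) := fun x => ⟨ev F x, subset_closure ⟨x, rfl⟩⟩
    have hjc : Continuous j := by
      refine Continuous.subtype_mk ?_ _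
      exact continuous_pi fun f => hF.cont f.1 f.2
    -- recover e from j
    let back : ↥(YF F) → (Fin n → ℝ) := fun y i => y.1 ⟨c i, hF0 ⟨i, rfl⟩⟩
    have hback : Continuous back := by
      refine continuous_pi fun i => ?_
      exact (continuous_apply _).comp continuous_subtype_val
    have hind : IsInducing (fun x : X => (fun i => Real.arctan (e x i) : Fin n → ℝ)) := by
      have h3 : IsEmbedding (fun v : Fin n → ℝ => (fun i => Real.arctan (v i) : Fin n → ℝ)) := by
        have h4 : IsEmbedding Real.arctan := by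
          have h5 : IsEmbedding (fun x : ℝ => ((Real.tanOrderIso.symm x : Set.Ioo (-(Real.pi / 2)) (Real.pi / 2)) : ℝ)) := by
            exact IsEmbedding.subtypeVal.comp Real.tanOrderIso.symm.toHomeomorph.isEmbedding
          exact h5
        exact IsEmbedding.piMap (fun _ => h4)
      have h6 : IsEmbedding (fun x : X => (WithLp.ofLp (e x) : Fin n → ℝ)) :=
        (PiLp.homeomorph 2 (fun _ : Fin n => ℝ)).isEmbedding.comp he
      exact (h3.comp h6).isInducing
    refine ⟨j, ⟨?_, ?_⟩, ?_⟩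
    · exact IsInducing.of_comp hjc hback hind
    · intro x y hxy
      have h7 : back (j x) = back (j y) := by rw [hxy]
      apply he.injective
      ext i
      have h8 := congrFun h7 i
      exact Real.arctan_injective h8
    · intro y
      have hy : y.1 ∈ closure (range (ev F)) := y.2
      rw [closure_subtype]
      have : Subtype.val '' range j = range (ev F) := by
        ext z
        constructor
        · rintro ⟨_, ⟨x, rfl⟩, rfl⟩
          exact ⟨x, rfl⟩
        · rintro ⟨x, rfl⟩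
          exact ⟨j x, ⟨x, rfl⟩, rfl⟩
      rw [this]
      exact hy

end Pool.Agent.Helper220.MG
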