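import Pool.Agent.Helper220.MG.Decomp

set_option autoImplicit false

namespace Pool.Agent.Helper220.MG

open Set Topology Filter TopologicalSpace

/-- every map from a closed subset of `X` to `L` extends over `X` -/
def AE {ι : Type} (L : Set (ι → ℝ)) (X : Type) [TopologicalSpace X] : Prop :=
  ∀ B : Set X, IsClosed B → ∀ f : X → (ι → ℝ), ContinuousOn f B → MapsTo f B L →
    ∃ g : X → (ι → ℝ), Continuous g ∧ (∀ x, g x ∈ L) ∧ EqOn g f B

/-- compact set with a retraction of a uniform closed neighbourhood -/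
structure NR {ι : Type} [Fintype ι] (L : Set (ι → ℝ)) : Prop where
  compact : IsCompact L
  nonempty : L.Nonempty
  retr : ∃ ε : ℝ, 0 < ε ∧ ∃ r : (ι → ℝ) → (ι → ℝ), ContinuousOn r (Metric.cthickening ε L) ∧
    MapsTo r (Metric.cthickening ε L) L ∧ ∀ x ∈ L, r x = x

/-- `X` is the union of `m` zero-dimensional subsets -/
def ZC (m : ℕ) (X : Type) [TopologicalSpace X] : Prop :=
  ∃ E : Fin m → Set X, (∀ z, ∃ c, z ∈ E c) ∧ ∀ c, ZD ↥(E c)

/-- finite open covers have `m`-coloured subordinated partitions of unity -/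
def FC (m : ℕ) (X : Type) [TopologicalSpace X] : Prop :=
  ∀ (n : ℕ) (U : Fin n → Set X), (∀ j, IsOpen (U j)) → (⋃ j, U j) = univ →
    ∃ φ : Fin m → Fin n → X → ℝ, (∀ i j, Continuous (φ i j)) ∧ (∀ i j x, 0 ≤ φ i j x) ∧
      (∀ i j x, φ i j x ≠ 0 → x ∈ U j) ∧
      (∀ i j j' x, j ≠ j' → φ i j x = 0 ∨ φ i j' x = 0) ∧
      ∀ x, ∑ i, ∑ j, φ i j x = 1

/-- the unit sphere in `ℝ^m` -/
def sph (m : ℕ) : Set (Fin m → ℝ) := {u | ∑ i, u i ^ 2 = 1}

/-- the matrix `u ⊗ u` -/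
def out (u : Fin 3 → ℝ) : Fin 3 × Fin 3 → ℝ := fun p => u p.1 * u p.2

/-- the projective plane -/
def PP : Set (Fin 3 × Fin 3 → ℝ) := out '' sph 3

/-- points of `ℝ^m` with at most two rational coordinates -/
def nob (m : ℕ) : Set (EuclideanSpace ℝ (Fin m)) :=
  {x | ∀ s : Finset (Fin m), (∀ i ∈ s, x i ∈ Set.range ((↑) : ℚ → ℝ)) → s.card ≤ 2}

end Pool.Agent.Helper220.MG
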