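import Pool.Agent.Helper220.MG.Core

set_option autoImplicit false

namespace Pool.Agent.Helper220.MG

open Set Topology Filter TopologicalSpace

/-- data of a countable family of bounded continuous functions closed under witnesses -/
structure Fam {ι : Type} [Fintype ι] (L : Set (ι → ℝ)) (ε : ℝ) (r : (ι → ℝ) → (ι → ℝ))
    (X : Type) [TopologicalSpace X] (F : Set (X → ℝ)) : Prop where
  countable : F.Countable
  cont : ∀ f ∈ F, Continuous f
  bdd : ∀ f ∈ F, ∃ C : ℝ, ∀ x, |f x| ≤ C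
  add : ∀ f ∈ F, ∀ g ∈ F, (fun x => f x + g x) ∈ F
  mul : ∀ f ∈ F, ∀ g ∈ F, (fun x => f x * g x) ∈ F
  rat : ∀ q : ℚ, (fun _ => (q : ℝ)) ∈ F
  col : ∀ (n : ℕ) (g : Fin n → X → ℝ), (∀ j, g j ∈ F) → (∀ x, ∃ j, 0 < g j x) →
    ∃ φ : Fin 3 → Fin n → X → ℝ, (∀ i j, φ i j ∈ F) ∧ (∀ i j x, 0 ≤ φ i j x) ∧
      (∀ i j x, φ i j x ≠ 0 → 0 < g j x) ∧
      (∀ i j j' x, j ≠ j' → φ i j x = 0 ∨ φ i j' x = 0) ∧ ∀ x, ∑ i, ∑ j, φ i j x = 1
  ext : ∀ g : ι → X → ℝ, (∀ p, g p ∈ F) → ∃ h : ι → X → ℝ, (∀ p, h p ∈ F) ∧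
    (∀ x, (fun p => h p x) ∈ L) ∧
    ∀ x, (fun p => g p x) ∈ Metric.cthickening ε L → (fun p => h p x) = r (fun p => g p x)

/-- evaluation map into the product indexed by the family -/
def ev {X : Type} (F : Set (X → ℝ)) (x : X) : ↥F → ℝ := fun f => f.1 x

/-- the compactification given by the family -/
def YF {X : Type} (F : Set (X → ℝ)) : Set (↥F → ℝ) := closure (range (ev F))

end Pool.Agent.Helper220.MG
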