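import Pool.Agent.Helper220.MG.Core

set_option autoImplicit false

namespace Pool.Agent.Helper220.MG

open Set Topology Filter TopologicalSpace

/-- sequences of vectors -/
abbrev Om : Type := ℕ → (Fin 3 → ℝ)

/-- data of a tower of double branched coverings: `G k` depends on the coordinates `≤ k` and takes
values of the form `y ⊗ y` with `|y| ≤ 1` -/
structure Tower (G : ℕ → Om → (Fin 3 × Fin 3 → ℝ)) : Prop where
  cont : ∀ k, Continuous (G k)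
  dep : ∀ k ω ω', (∀ j ≤ k, ω j = ω' j) → G k ω = G k ω'
  rng : ∀ k ω, ∃ y : Fin 3 → ℝ, ∑ i, y i ^ 2 ≤ 1 ∧ out y = G k ω

/-- the unit disc in the plane `x 2 = 0` -/
def Dsk : Set (Fin 3 → ℝ) := {v | v 0 ^ 2 + v 1 ^ 2 ≤ 1 ∧ v 2 = 0}

/-- the `k`-th stage of the tower -/
def Xk (G : ℕ → Om → (Fin 3 × Fin 3 → ℝ)) (k : ℕ) : Set Om :=
  {ω | ω 0 ∈ Dsk ∧ (∀ j < k, out (ω (j + 1)) = G j ω) ∧ ∀ j, k ≤ j → ω (j + 1) = 0}

/-- the limit of the tower -/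
def Xinf (G : ℕ → Om → (Fin 3 × Fin 3 → ℝ)) : Set Om :=
  {ω | ω 0 ∈ Dsk ∧ ∀ j, out (ω (j + 1)) = G j ω}

/-- the base coordinate as a complex number -/
noncomputable def zz (ω : Om) : ℂ := ⟨ω 0 0, ω 0 1⟩

end Pool.Agent.Helper220.MG
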