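import Pool.Agent.Helper220.MG.ZeroDim

set_option autoImplicit false

namespace Pool.Agent.Helper220.MG

open Set Topology Filter TopologicalSpace

theorem ZD.of_range {α β γ : Type} [TopologicalSpace α] [TopologicalSpace β]
    [TopologicalSpace γ] (h : ZD α) {g : α → γ} {f : β → γ} (hg : IsInducing g)
    (hf : IsInducing f) (hr : ∀ b, ∃ a, g a = f b) : ZD β := by
  choose φ hφ using hr
  have hcomp : g ∘ φ = f := funext hφ
  have : IsInducing φ := by
    rw [← hg.of_comp_iff, hcomp]
    exact hf
  exact h.of_inducing this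

/-- the recursion defining small inductive dimension, with the shift `ind k` means dimension
at most `k - 1` -/
def IndRec (ind : ℕ → (α : Type) → [TopologicalSpace α] → Prop) : Prop :=
  ∀ (α : Type) [TopologicalSpace α],
        (ind 0 α ↔ IsEmpty α) ∧
        ∀ k : ℕ, (ind (k + 1) α ↔
          ∀ x : α, ∀ U ∈ nhds x, ∃ V : Set α,
            IsOpen V ∧ x ∈ V ∧ V ⊆ U ∧ ind k ↥(frontier V))

variable {ind : ℕ → (α : Type) → [TopologicalSpace α] → Prop}

theorem ind_one_iff (hind : IndRec ind) (α : Type) [TopologicalSpace α] :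
    ind 1 α ↔ ZD α := by
  rw [(hind α).2 0]
  constructor
  · intro h x U hU
    obtain ⟨V, hV, hxV, hVU, hfr⟩ := h x U hU
    rw [(hind _).1] at hfr
    refine ⟨V, ?_, hxV, hVU⟩
    rw [isClopen_iff_frontier_eq_empty]
    exact Set.isEmpty_coe_sort.1 hfr
  · intro h x U hU
    obtain ⟨V, hV, hxV, hVU⟩ := h x U hU
    refine ⟨V, hV.isOpen, hxV, hVU, ?_⟩
    rw [(hind _).1]
    rw [isClopen_iff_frontier_eq_empty] at hV
    exact Set.isEmpty_coe_sort.2 hV

theorem ind_of_isEmpty (hind : IndRec ind) (n : ℕ) (α : Type) [TopologicalSpace α]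
    (h : IsEmpty α) : ind n α := by
  cases n with
  | zero => exact (hind α).1.2 h
  | succ n => exact ((hind α).2 n).2 fun x => (h.false x).elim

theorem seq_basis {Y : Type} [TopologicalSpace Y] [SecondCountableTopology Y]
    {p : Set Y → Prop} (hp : p ∅)
    (hb : ∀ y : Y, ∀ U ∈ 𝓝 y, ∃ V, IsOpen V ∧ y ∈ V ∧ V ⊆ U ∧ p V) :
    ∃ V : ℕ → Set Y, IsTopologicalBasis (range V) ∧ ∀ k, p (V k) := by
  have hb : IsTopologicalBasis {V : Set Y | IsOpen V ∧ p V} := by
    refine isTopologicalBasis_of_isOpen_of_nhds (fun V hV => hV.1) ?_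
    intro y O hy hO
    obtain ⟨V, hV, hyV, hVO, hVT⟩ := hb y O (hO.mem_nhds hy)
    exact ⟨V, ⟨hV, hVT⟩, hyV, hVO⟩
  obtain ⟨s, hst, hsc, hsb⟩ := hb.exists_countable
  have hb' : IsTopologicalBasis (insert ∅ s) := by
    refine isTopologicalBasis_of_isOpen_of_nhds ?_ ?_
    · rintro V (rfl | hV)
      · exact isOpen_empty
      · exact hsb.isOpen hV
    · intro y O hy hO
      obtain ⟨V, hV, h1, h2⟩ := hsb.exists_subset_of_mem_open hy hO
      exact ⟨V, Or.inr hV, h1, h2⟩
  obtain ⟨V, hV⟩ := (hsc.insert ∅).exists_eq_range ⟨∅, Or.inl rfl⟩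
  refine ⟨V, hV ▸ hb', ?_⟩
  intro k
  have : V k ∈ insert ∅ s := by rw [hV]; exact ⟨k, rfl⟩
  rcases this with h | h
  · rw [h]; exact hp
  · exact (hst h).2

/-- decomposition theorem: small inductive dimension at most `n - 1` gives a cover by `n`
zero-dimensional subsets -/
theorem decomp (hind : IndRec ind) : ∀ (n : ℕ) (Z : Type) [TopologicalSpace Z]
    [SecondCountableTopology Z] [MetrizableSpace Z], ind n Z →
    ∃ E : Fin n → Set Z, (∀ z, ∃ c, z ∈ E c) ∧ ∀ c, ZD ↥(E c) := by
  intro n
  induction n with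
  | zero =>
    intro Z _ _ _ h
    have hem : IsEmpty Z := (hind Z).1.1 h
    exact ⟨fun _ => ∅, fun z => (hem.false z).elim, fun c => c.elim0⟩
  | succ n ih =>
    intro Z _ _ _ h
    have hb := ((hind Z).2 n).1 h
    obtain ⟨V, hVb, hV⟩ := seq_basis (p := fun V => ind n ↥(frontier V))
      (ind_of_isEmpty hind n _ (by simp)) hb
    have hdec : ∀ k, ∃ E : Fin n → Set ↥(frontier (V k)), (∀ z, ∃ c, z ∈ E c) ∧
        ∀ c, ZD ↥(E c) := fun k => ih _ (hV k)
    choose E hE1 hE2 using hdec
    set B : ℕ → Set Z := fun k => frontier (V k) with hB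
    set W : ℕ → Set Z := fun k => (⋃ j ∈ Iio k, B j)ᶜ with hW
    have hWo : ∀ k, IsOpen (W k) := by
      intro k
      exact ((finite_Iio k).isClosed_biUnion fun j _ => isClosed_frontier).isOpen_compl
    let E' : Fin (n + 1) → Set Z := Fin.cases (⋃ k, B k)ᶜ
      (fun c => ⋃ k, ((Subtype.val '' (E k c)) ∩ W k))
    refine ⟨E', ?_, ?_⟩
    · intro z
      by_cases hz : ∃ k, z ∈ B k
      · classical
        have h1 := Nat.find_spec hz
        set k := Nat.find hz with hk
        obtain ⟨c, hc⟩ := hE1 k ⟨z, h1⟩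
        refine ⟨c.succ, ?_⟩
        simp only [E', Fin.cases_succ]
        refine mem_iUnion.2 ⟨k, ⟨⟨z, h1⟩, hc, rfl⟩, ?_⟩
        simp only [hW, mem_compl_iff, mem_iUnion, not_exists]
        intro j hj
        exact Nat.find_min hz hj
      · refine ⟨0, ?_⟩
        simp only [E', Fin.cases_zero, mem_compl_iff, mem_iUnion]
        exact hz
    · intro c
      refine Fin.cases ?_ (fun c => ?_) c
      · refine zd_of_basis hVb ?_
        rintro _ ⟨k, rfl⟩
        rw [Set.disjoint_left]
        intro z hz hz'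
        simp only [E', Fin.cases_zero, mem_compl_iff, mem_iUnion] at hz'
        exact hz' ⟨k, hz⟩
      · refine zd_sum_lc (ι := ℕ) (fun k => Subtype.val ⁻¹' (B k)) (fun k => Subtype.val ⁻¹' (W k))
          (fun k => isClosed_frontier.preimage continuous_subtype_val)
          (fun k => (hWo k).preimage continuous_subtype_val) ?_ ?_
        · rintro ⟨x, hx⟩
          simp only [E', Fin.cases_succ] at hx
          obtain ⟨k, ⟨y, hy, hyx⟩, hxW⟩ := mem_iUnion.1 hx
          refine ⟨k, ?_, hxW⟩
          change x ∈ B k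
          rw [← hyx]
          exact y.2
        · intro k
          refine (hE2 k c).of_range (γ := Z)
            (g := fun x => ((x : ↥(frontier (V k))) : Z))
            (f := fun x => ((x : ↥(E' c.succ)) : Z))
            (IsInducing.subtypeVal.comp IsInducing.subtypeVal)
            (IsInducing.subtypeVal.comp IsInducing.subtypeVal) ?_
          rintro ⟨⟨x, hx⟩, hxB, hxW⟩
          have hx' := hx
          simp only [E', Fin.cases_succ] at hx
          obtain ⟨m, ⟨y, hy, hyx⟩, hxWm⟩ := mem_iUnion.1 hx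
          have hxBm : x ∈ B m := by rw [← hyx]; exact y.2
          have hxB' : x ∈ B k := hxB
          have hxW' : x ∈ W k := hxW
          have hmk : m = k := by
            rcases lt_trichotomy m k with hlt | heq | hgt
            · exact (hxW' (mem_biUnion (mem_Iio.2 hlt) hxBm)).elim
            · exact heq
            · exact (hxWm (mem_biUnion (mem_Iio.2 hgt) hxB')).elim
          subst hmk
          exact ⟨⟨y, hy⟩, hyx⟩

/-- addition theorem: a space covered by `n` zero-dimensional subsets has small inductive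
dimension at most `n - 1` -/
theorem ind_of_cover (hind : IndRec ind) : ∀ (n : ℕ) (Z : Type) [TopologicalSpace Z]
    [SecondCountableTopology Z] [MetrizableSpace Z] (E : Fin n → Set Z),
    (∀ z, ∃ c, z ∈ E c) → (∀ c, ZD ↥(E c)) → ind n Z := by
  intro n
  induction n with
  | zero =>
    intro Z _ _ _ E h1 _
    refine (hind Z).1.2 ⟨fun z => ?_⟩
    obtain ⟨c, _⟩ := h1 z
    exact c.elim0
  | succ n ih =>
    intro Z _ _ _ E h1 h2
    refine ((hind Z).2 n).2 ?_
    intro z U hU
    have _ := metrizableSpaceMetric Z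
    obtain ⟨V, hV, hzV, hVU, hVE⟩ := zd_ambient (h2 0) (A := {z}) (B := (interior U)ᶜ)
      isClosed_singleton isOpen_interior.isClosed_compl (by
        rw [Set.disjoint_singleton_left]
        exact fun h => h (mem_interior_iff_mem_nhds.2 hU))
    refine ⟨V, hV, hzV rfl, ?_, ?_⟩
    · intro y hy
      by_contra hyU
      exact Set.disjoint_left.1 hVU hy (fun h => hyU (interior_subset h))
    · refine ih ↥(frontier V) (fun c => Subtype.val ⁻¹' (E c.succ)) ?_ ?_
      · rintro ⟨y, hy⟩
        obtain ⟨c, hc⟩ := h1 y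
        revert hc
        refine Fin.cases ?_ (fun c => ?_) c
        · intro hc
          exact (Set.disjoint_left.1 hVE hy hc).elim
        · intro hc
          exact ⟨c, hc⟩
      · intro c
        refine (h2 c.succ).of_range (γ := Z) (g := fun x => (x : Z))
            (f := fun x => ((x : ↥(frontier V)) : Z))
            IsInducing.subtypeVal
            (IsInducing.subtypeVal.comp IsInducing.subtypeVal) ?_
        rintro ⟨⟨x, hx⟩, hxE⟩
        exact ⟨⟨x, hxE⟩, rfl⟩

end Pool.Agent.Helper220.MG
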