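import Mathlib

set_option autoImplicit false

namespace Pool.MengerAx

open Set Topology

/-- The extended integers. -/
abbrev ExtInt : Type := WithBot (WithTop ℤ)

/-- `IndLT k X`: the small inductive dimension of `X` is less than `k` (that is, at most `k - 1`).
`IndLT 0 X` says that `X` is empty; `IndLT (k + 1) X` says that every point has arbitrarily small
open neighbourhoods `V` whose boundary satisfies `IndLT k`. -/
def IndLT : ℕ → (X : Type) → [TopologicalSpace X] → Prop
  | 0, X, _ => IsEmpty X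
  | (k + 1), X, _ => ∀ x : X, ∀ U : Set X, IsOpen U → x ∈ U →
      ∃ V : Set X, IsOpen V ∧ x ∈ V ∧ V ⊆ U ∧ IndLT k ↥(frontier V)

/-- The small inductive dimension as an extended integer. -/
noncomputable def ind (X : Type) [TopologicalSpace X] : ExtInt :=
  sInf {a : ExtInt | ∃ k : ℕ, IndLT k X ∧ a = (((k : ℤ) - 1 : ℤ) : WithTop ℤ)}

/-- Membership in the class `U_n` of spaces that embed in `ℝ^n`. -/
def InU (n : ℕ) (X : Type) [TopologicalSpace X] : Prop :=
  ∃ f : X → EuclideanSpace ℝ (Fin n), IsEmbedding f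

/-- The axioms (M1)-(M4) (and topological invariance) for a function `d` on the class `U_n`. -/
structure Axioms (n : ℕ) (d : (X : Type) → [TopologicalSpace X] → ExtInt) : Prop where
  invariant : ∀ (X Y : Type) [TopologicalSpace X] [TopologicalSpace Y], InU n X →
    Nonempty (X ≃ₜ Y) → d X = d Y
  m1_empty : d Empty = ((-1 : ℤ) : WithTop ℤ)
  m1_point : d Unit = ((0 : ℤ) : WithTop ℤ)
  m1_euclidean : ∀ m : ℕ, 1 ≤ m → m ≤ n →
    d (EuclideanSpace ℝ (Fin m)) = ((m : ℤ) : WithTop ℤ)
  m2 : ∀ (X : Type) [TopologicalSpace X], InU n X → ∀ Y : Set X, d ↥Y ≤ d X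
  m3 : ∀ (X : Type) [TopologicalSpace X], InU n X → ∀ F : ℕ → Set X, (∀ i, IsClosed (F i)) →
    (⋃ i, F i) = univ → d X ≤ ⨆ i, d ↥(F i)
  m4 : ∀ (X : Type) [TopologicalSpace X], InU n X →
    ∃ (K : Type) (_ : TopologicalSpace K), CompactSpace K ∧ InU n K ∧
      (∃ e : X → K, IsEmbedding e ∧ DenseRange e) ∧ d K = d X

/-- Menger's statement for a given `n`: small inductive dimension satisfies (M1)-(M4) on `U_n`
and it is the only function on `U_n` that does. -/
def Conjecture (n : ℕ) : Prop :=
  Axioms n (fun X _ => ind X) ∧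
    ∀ d : (X : Type) → [TopologicalSpace X] → ExtInt, Axioms n d →
      ∀ (X : Type) [TopologicalSpace X], InU n X → d X = ind X

end Pool.MengerAx
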