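import Pool.Agent.Helper220.MG.Core

set_option autoImplicit false

namespace Pool.Agent.Helper220.MG.JAvoid

open Set Topology Filter TopologicalSpace

/-- maps avoiding a coordinate plane of codimension three are dense and open -/
theorem avoid_dense {Y : Type} [MetricSpace Y] [CompactSpace Y] (hFC : FC 3 Y)
    (c : Fin 3 → Fin 5) (q : Fin 3 → ℝ)
    (general_position_plane : ∀ (N : ℕ) (p0 : Fin N → (Fin 5 → ℝ)) (η : ℝ) (_ : 0 < η),
      ∃ p : Fin N → (Fin 5 → ℝ), (∀ i, dist (p i) (p0 i) < η) ∧
      ∀ a : Fin N → ℝ, (Finset.univ.filter fun i => a i ≠ 0).card ≤ 3 → ∑ i, a i = 1 →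
        ¬ ∀ k, (∑ i, a i • p i) (c k) = q k) :
    Dense {g : C(Y, Fin 5 → ℝ) | ∀ y, ¬ ∀ k, g y (c k) = q k} ∧
      IsOpen {g : C(Y, Fin 5 → ℝ) | ∀ y, ¬ ∀ k, g y (c k) = q k} := by
  classical
  constructor
  · rw [Metric.dense_iff]
    intro g0 ρ hρ
    -- a finite cover by sets of small oscillation
    obtain ⟨t, ht⟩ := isCompact_univ.elim_nhds_subcover (fun y : Y => g0 ⁻¹' Metric.ball (g0 y) (ρ / 4))
      (fun y _ => (g0.continuous.continuousAt).preimage_mem_nhds
        (Metric.ball_mem_nhds _ (by positivity)))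
    let e0 : Fin t.card ≃ t := t.equivFin.symm
    let yj : Fin t.card → Y := fun j => (e0 j).1
    obtain ⟨φ, hφc, hφ0, hφU, hφd, hφs⟩ := hFC t.card
      (fun j => g0 ⁻¹' Metric.ball (g0 (yj j)) (ρ / 4))
      (fun j => Metric.isOpen_ball.preimage g0.continuous) (by
        refine eq_univ_of_forall fun x => ?_
        have hx := ht.2 (mem_univ x)
        simp only [mem_iUnion] at hx ⊢
        obtain ⟨y, hy, hxy⟩ := hx
        exact ⟨t.equivFin ⟨y, hy⟩, by simpa [yj, e0] using hxy⟩)
    let e : Fin 3 × Fin t.card ≃ Fin (3 * t.card) := finProdFinEquiv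
    obtain ⟨p, hp1, hp2⟩ := general_position_plane (3 * t.card)
      (fun i => g0 (yj (e.symm i).2)) (ρ / 4) (by positivity)
    let a : Y → Fin (3 * t.card) → ℝ := fun y i => φ (e.symm i).1 (e.symm i).2 y
    have ha0 : ∀ y i, 0 ≤ a y i := fun y i => hφ0 _ _ _
    have has : ∀ y, ∑ i, a y i = 1 := by
      intro y
      have h1 : ∑ i, a y i = ∑ x : Fin 3 × Fin t.card, φ x.1 x.2 y :=
        Equiv.sum_comp e.symm (fun x : Fin 3 × Fin t.card => φ x.1 x.2 y)
      rw [h1, Fintype.sum_prod_type, hφs y]
    have hac : ∀ y, (Finset.univ.filter fun i => a y i ≠ 0).card ≤ 3 := by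
      intro y
      have h1 : (Finset.univ.filter fun i => a y i ≠ 0).card ≤
          (Finset.univ : Finset (Fin 3)).card := by
        refine Finset.card_le_card_of_injOn (fun i => (e.symm i).1) (fun _ _ => Finset.mem_coe.2 (Finset.mem_univ _)) ?_
        intro i hi i' hi' hii
        have hi1 : a y i ≠ 0 := by simpa using hi
        have hi2 : a y i' ≠ 0 := by simpa using hi'
        have hii' : (e.symm i).1 = (e.symm i').1 := hii
        have h2 : (e.symm i).2 = (e.symm i').2 := by
          by_contra hne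
          rcases hφd (e.symm i).1 (e.symm i).2 (e.symm i').2 y hne with h3 | h3
          · exact hi1 h3
          · rw [hii'] at h3
            exact hi2 h3
        exact e.symm.injective (Prod.ext hii' h2)
      simpa using h1
    let g : C(Y, Fin 5 → ℝ) := ⟨fun y => ∑ i, a y i • p i, by
      refine continuous_finsetSum _ fun i _ => ?_
      exact (hφc _ _).smul continuous_const⟩
    refine ⟨g, ?_, ?_⟩
    · rw [Metric.mem_ball]
      rw [ContinuousMap.dist_lt_iff hρ]
      intro y
      rw [dist_eq_norm]
      have h1 : g y - g0 y = ∑ i, a y i • (p i - g0 y) := by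
        show (∑ i, a y i • p i) - g0 y = _
        simp only [smul_sub, Finset.sum_sub_distrib]
        rw [← Finset.sum_smul, has y, one_smul]
      rw [h1]
      have h2 : ‖∑ i, a y i • (p i - g0 y)‖ ≤ ∑ i, a y i * (ρ / 2) := by
        refine (norm_sum_le _ _).trans (Finset.sum_le_sum fun i _ => ?_)
        rw [norm_smul, Real.norm_of_nonneg (ha0 y i)]
        by_cases hi : a y i = 0
        · rw [hi, zero_mul, zero_mul]
        · refine mul_le_mul_of_nonneg_left ?_ (ha0 y i)
          have h3 := hφU _ _ _ hi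
          have h4 : dist (g0 y) (g0 (yj (e.symm i).2)) < ρ / 4 := h3
          have h5 := hp1 i
          rw [← dist_eq_norm]
          have h6 := dist_triangle (p i) (g0 (yj (e.symm i).2)) (g0 y)
          rw [dist_comm (g0 (yj (e.symm i).2)) (g0 y)] at h6
          linarith
      rw [← Finset.sum_mul, has y, one_mul] at h2
      linarith
    · intro y
      exact hp2 (a y) (hac y) (has y)
  · have hcl : IsClosed {v : Fin 5 → ℝ | ∀ k, v (c k) = q k} := by
      simp only [ofPred_forall]
      exact isClosed_iInter fun k => isClosed_eq (continuous_apply _) continuous_const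
    have h1 := ContinuousMap.isOpen_setOfPred_mapsTo (X := Y) (isCompact_univ (X := Y))
      hcl.isOpen_compl
    convert h1 using 1
    ext g
    simp [MapsTo]

end Pool.Agent.Helper220.MG.JAvoid
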