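import Pool.Agent.Helper220.MG.Core

set_option autoImplicit false

namespace Pool.Agent.Helper220.MG.JEps

open Set Topology Filter TopologicalSpace

/-- maps with small fibres are dense and open -/
theorem eps_dense {Y : Type} [MetricSpace Y] [CompactSpace Y] (hFC : FC 3 Y)
    (general_position' : ∀ (N : ℕ) (p0 : Fin N → (Fin 5 → ℝ)) (η : ℝ) (_ : 0 < η),
      ∃ p : Fin N → (Fin 5 → ℝ), (∀ i, dist (p i) (p0 i) < η) ∧
      ∀ a b : Fin N → ℝ, (Finset.univ.filter fun i => a i ≠ 0).card ≤ 3 →
        (Finset.univ.filter fun i => b i ≠ 0).card ≤ 3 → ∑ i, a i = 1 → ∑ i, b i = 1 →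
        ∑ i, a i • p i = ∑ i, b i • p i → a = b)
    (ε : ℝ) (hε : 0 < ε) :
    Dense {g : C(Y, Fin 5 → ℝ) | ∀ x y, g x = g y → dist x y < ε} ∧
      IsOpen {g : C(Y, Fin 5 → ℝ) | ∀ x y, g x = g y → dist x y < ε} := by
  classical
  constructor
  · rw [Metric.dense_iff]
    intro g0 ρ hρ
    have hu := CompactSpace.uniformContinuous_of_continuous g0.continuous
    obtain ⟨δ, hδ, hu⟩ := Metric.uniformContinuous_iff.mp hu (ρ / 4) (by positivity)
    set r := min (ε / 2) δ with hr
    have hr0 : 0 < r := lt_min (by positivity) hδ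
    obtain ⟨t, -, htf, htc⟩ := (isCompact_univ (X := Y)).finite_cover_balls hr0
    set n := htf.toFinset.card with hn
    set E := htf.toFinset.equivFin with hE
    let c : Fin n → Y := fun j => (E.symm j : Y)
    have hcov : (⋃ j, Metric.ball (c j) r) = univ := by
      rw [eq_univ_iff_forall]
      intro y
      have hy := htc (mem_univ y)
      simp only [mem_iUnion] at hy
      obtain ⟨z, hz, hyz⟩ := hy
      rw [mem_iUnion]
      refine ⟨E ⟨z, htf.mem_toFinset.mpr hz⟩, ?_⟩
      simp only [c, Equiv.symm_apply_apply]
      exact hyz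
    obtain ⟨φ, hφc, hφ0, hφs, hφd, hφ1⟩ := hFC n (fun j => Metric.ball (c j) r)
      (fun j => Metric.isOpen_ball) hcov
    let e : Fin 3 × Fin n ≃ Fin (3 * n) := finProdFinEquiv
    obtain ⟨p, hp, hgp⟩ := general_position' (3 * n) (fun k => g0 (c (e.symm k).2)) (ρ / 4)
      (by positivity)
    let a : Y → Fin (3 * n) → ℝ := fun y k => φ (e.symm k).1 (e.symm k).2 y
    have ha0 : ∀ y k, 0 ≤ a y k := fun y k => hφ0 _ _ _
    have ha1 : ∀ y, ∑ k, a y k = 1 := by
      intro y
      rw [← hφ1 y, ← Equiv.sum_comp e, Fintype.sum_prod_type]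
      simp [a]
    have hac : ∀ y, (Finset.univ.filter fun k => a y k ≠ 0).card ≤ 3 := by
      intro y
      have h1 : (Finset.univ.filter fun k => a y k ≠ 0).card ≤ (Finset.univ : Finset (Fin 3)).card := by
        apply Finset.card_le_card_of_injOn (fun k => (e.symm k).1) (fun _ _ => Finset.mem_univ _)
        intro k hk k' hk' hkk
        simp only [Finset.coe_filter, Finset.mem_univ, true_and, mem_setOf_eq] at hk hk'
        apply e.symm.injective
        refine Prod.ext hkk ?_
        by_contra hne
        have hkk' : (e.symm k).1 = (e.symm k').1 := hkk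
        rcases hφd (e.symm k).1 (e.symm k).2 (e.symm k').2 y hne with h | h
        · exact hk h
        · rw [hkk'] at h
          exact hk' h
      simpa using h1
    let g : C(Y, Fin 5 → ℝ) := ⟨fun y => ∑ k, a y k • p k, by
      apply continuous_finsetSum
      intro k _
      exact (hφc _ _).smul continuous_const⟩
    have hg : ∀ y, g y = ∑ k, a y k • p k := fun y => rfl
    refine ⟨g, ?_, ?_⟩
    · rw [Metric.mem_ball]
      refine lt_of_le_of_lt ?_ (half_lt_self hρ)
      rw [ContinuousMap.dist_le (by positivity)]
      intro y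
      rw [dist_eq_norm]
      have h1 : g y - g0 y = ∑ k, a y k • (p k - g0 y) := by
        simp only [smul_sub, Finset.sum_sub_distrib]
        rw [← Finset.sum_smul, ha1, one_smul, hg]
      rw [h1]
      calc ‖∑ k, a y k • (p k - g0 y)‖ ≤ ∑ k, ‖a y k • (p k - g0 y)‖ := norm_sum_le _ _
        _ ≤ ∑ k, a y k * (ρ / 2) := by
            apply Finset.sum_le_sum
            intro k _
            rw [norm_smul, Real.norm_of_nonneg (ha0 y k)]
            by_cases hk : a y k = 0
            · rw [hk]; simp
            · have h2 := hφs _ _ _ hk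
              have h3 : dist (g0 y) (g0 (c (e.symm k).2)) < ρ / 4 :=
                hu (lt_of_lt_of_le (Metric.mem_ball.mp h2) (min_le_right _ _))
              have h4 := hp k
              have h5 : ‖p k - g0 y‖ ≤ ρ / 2 := by
                rw [← dist_eq_norm]
                have h6 := dist_triangle (p k) (g0 (c (e.symm k).2)) (g0 y)
                rw [dist_comm (g0 (c (e.symm k).2)) (g0 y)] at h6
                linarith
              exact mul_le_mul_of_nonneg_left h5 (ha0 y k)
        _ = ρ / 2 := by rw [← Finset.sum_mul, ha1, one_mul]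
    · intro x y hxy
      have hab := hgp (a x) (a y) (hac x) (hac y) (ha1 x) (ha1 y) hxy
      have hex : ∃ k, a x k ≠ 0 := by
        by_contra hcon
        push Not at hcon
        have := ha1 x
        simp [hcon] at this
      obtain ⟨k, hk⟩ := hex
      have hk' : a y k ≠ 0 := by rw [← hab]; exact hk
      have h1 := Metric.mem_ball.mp (hφs _ _ _ hk)
      have h2 := Metric.mem_ball.mp (hφs _ _ _ hk')
      have h3 := dist_triangle_right x y (c (e.symm k).2)
      have h4 : r ≤ ε / 2 := min_le_left _ _
      linarith
  · rw [Metric.isOpen_iff]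
    intro g hg
    let K : Set (Y × Y) := {q | ε ≤ dist q.1 q.2}
    have hKc : IsCompact K := (isClosed_le continuous_const (by fun_prop)).isCompact
    rcases K.eq_empty_or_nonempty with hK | hK
    · refine ⟨1, one_pos, fun g' _ x y _ => ?_⟩
      by_contra hcon
      push Not at hcon
      have : (x, y) ∈ K := hcon
      rw [hK] at this
      exact this
    · obtain ⟨q, hq, hmin⟩ := hKc.exists_isMinOn hK
        (f := fun q : Y × Y => dist (g q.1) (g q.2)) (by
          apply Continuous.continuousOn
          exact (g.continuous.comp continuous_fst).dist (g.continuous.comp continuous_snd))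
      have hpos : 0 < dist (g q.1) (g q.2) := by
        apply dist_pos.mpr
        intro h
        have h1 := hg q.1 q.2 h
        have h2 : ε ≤ dist q.1 q.2 := hq
        linarith
      refine ⟨dist (g q.1) (g q.2) / 2, by positivity, fun g' hg' x y hxy => ?_⟩
      by_contra hcon
      push Not at hcon
      have h1 : dist (g q.1) (g q.2) ≤ dist (g x) (g y) := hmin (show (x, y) ∈ K from hcon)
      have h2 : dist (g x) (g' x) ≤ dist g g' := ContinuousMap.dist_apply_le_dist x
      have h3 : dist (g y) (g' y) ≤ dist g g' := ContinuousMap.dist_apply_le_dist y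
      have h4 := dist_triangle (g x) (g' x) (g y)
      rw [hxy, dist_comm (g' y) (g y)] at h4
      rw [hxy] at h2
      rw [Metric.mem_ball, dist_comm] at hg'
      linarith

end Pool.Agent.Helper220.MG.JEps
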