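import Pool.Agent.Helper220.MG.Core

set_option autoImplicit false

namespace Pool.Agent.Helper220.MG.JGP

open Set Topology Filter TopologicalSpace

/-- general position in terms of weights -/
def GPw (D N : ℕ) (p : Fin N → (Fin D → ℝ)) : Prop :=
  ∀ w : Fin N → ℝ, (Finset.univ.filter fun i => w i ≠ 0).card ≤ D + 1 → ∑ i, w i = 0 →
    ∑ i, w i • p i = 0 → w = 0

theorem gp_proper (D N : ℕ) (p : Fin N → (Fin D → ℝ)) (t : Finset (Fin N)) (ht : t.card ≤ D) :
    affineSpan ℝ (p '' (t : Set (Fin N))) ≠ ⊤ := by
  classical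
  intro h
  rcases Finset.eq_empty_or_nonempty t with rfl | hne
  · rw [Finset.coe_empty, image_empty, AffineSubspace.span_empty] at h
    exact bot_ne_top h
  · have h1 := AffineSubspace.vectorSpan_eq_top_of_affineSpan_eq_top ℝ (Fin D → ℝ) (Fin D → ℝ) h
    have hc : t.card = (t.card - 1) + 1 := by
      have := hne.card_pos; omega
    have h2 := finrank_vectorSpan_image_finset_le ℝ p t hc
    rw [Finset.coe_image, h1, finrank_top, Module.finrank_fintype_fun_eq_card, Fintype.card_fin] at h2
    have := hne.card_pos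
    omega

theorem gp_choose (D N : ℕ) (p : Fin N → (Fin D → ℝ)) (x0 : Fin D → ℝ) (η : ℝ) (hη : 0 < η) :
    ∃ x : Fin D → ℝ, dist x x0 < η ∧ ∀ t : Finset (Fin N), t.card ≤ D →
      x ∉ affineSpan ℝ (p '' (t : Set (Fin N))) := by
  by_contra hcon
  push Not at hcon
  have hsub : Metric.ball x0 η ⊆ ⋃ t : {t : Finset (Fin N) // t.card ≤ D},
      (affineSpan ℝ (p '' (t.1 : Set (Fin N))) : Set (Fin D → ℝ)) := by
    intro x hx
    obtain ⟨t, ht, hxt⟩ := hcon x hx
    exact mem_iUnion.2 ⟨⟨t, ht⟩, hxt⟩
  have h0 : MeasureTheory.volume (⋃ t : {t : Finset (Fin N) // t.card ≤ D},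
      (affineSpan ℝ (p '' (t.1 : Set (Fin N))) : Set (Fin D → ℝ))) = 0 :=
    MeasureTheory.measure_iUnion_null fun t =>
      MeasureTheory.Measure.addHaar_affineSubspace _ _ (gp_proper D N p t.1 t.2)
  have h1 := MeasureTheory.measure_mono_null hsub h0
  exact (Metric.measure_ball_pos MeasureTheory.volume x0 hη).ne' h1

theorem gp_exists (D : ℕ) : ∀ (N : ℕ) (p0 : Fin N → (Fin D → ℝ)) (η : ℝ), 0 < η →
    ∃ p : Fin N → (Fin D → ℝ), (∀ i, dist (p i) (p0 i) < η) ∧ GPw D N p := by
  intro N
  induction N with
  | zero =>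
    intro p0 η hη
    exact ⟨p0, fun i => i.elim0, fun w _ _ _ => funext fun i => i.elim0⟩
  | succ N ih =>
    intro p0 η hη
    obtain ⟨p, hp, hG⟩ := ih (fun i => p0 i.castSucc) η hη
    obtain ⟨x, hx, hxt⟩ := gp_choose D N p (p0 (Fin.last N)) η hη
    refine ⟨Fin.snoc (α := fun _ => Fin D → ℝ) p x, fun i => ?_, ?_⟩
    · refine Fin.lastCases ?_ (fun i => ?_) i
      · rw [Fin.snoc_last]; exact hx
      · rw [Fin.snoc_castSucc]; exact hp i
    · intro w hw hs hs2
      rw [Fin.sum_univ_castSucc] at hs hs2
      simp only [Fin.snoc_castSucc, Fin.snoc_last] at hs2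
      set u : Fin N → ℝ := fun i => w i.castSucc with hu
      have hmap : (Finset.univ.filter fun i => u i ≠ 0).map Fin.castSuccEmb ⊆
          Finset.univ.filter fun i => w i ≠ 0 := by
        intro j hj
        rw [Finset.mem_map] at hj
        obtain ⟨i, hi, rfl⟩ := hj
        simpa using hi
      by_cases hl : w (Fin.last N) = 0
      · rw [hl] at hs hs2
        rw [zero_smul, add_zero] at hs2
        rw [add_zero] at hs
        have hcard : (Finset.univ.filter fun i => u i ≠ 0).card ≤ D + 1 := by
          rw [← Finset.card_map Fin.castSuccEmb]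
          exact (Finset.card_le_card hmap).trans hw
        have h1 := hG u hcard hs hs2
        funext i
        refine Fin.lastCases hl (fun i => ?_) i
        exact congrFun h1 i
      · exfalso
        have hcard : (Finset.univ.filter fun i => u i ≠ 0).card ≤ D := by
          have h1 : insert (Fin.last N) ((Finset.univ.filter fun i => u i ≠ 0).map Fin.castSuccEmb) ⊆
              Finset.univ.filter fun i => w i ≠ 0 := by
            rw [Finset.insert_subset_iff]
            exact ⟨by simpa using hl, hmap⟩
          have h2 := Finset.card_le_card h1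
          rw [Finset.card_insert_of_notMem, Finset.card_map] at h2
          · omega
          · rw [Finset.mem_map]
            rintro ⟨i, _, hi⟩
            exact (Fin.castSucc_lt_last i).ne hi
        apply hxt _ hcard
        set c : Fin N → ℝ := fun i => -(u i) / w (Fin.last N) with hc
        have hc1 : ∑ i, c i = 1 := by
          rw [hc, ← Finset.sum_div, Finset.sum_neg_distrib, div_eq_one_iff_eq hl]
          linarith
        have hx2 : x = ∑ i, c i • p i := by
          have h3 : ∑ i, c i • p i = (-(w (Fin.last N))⁻¹) • ∑ i, u i • p i := by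
            rw [Finset.smul_sum]
            refine Finset.sum_congr rfl fun i _ => ?_
            rw [smul_smul]; congr 1; rw [hc]; simp only []; ring
          have h4 : ∑ i, u i • p i = -(w (Fin.last N) • x) := eq_neg_of_add_eq_zero_left hs2
          rw [h3, h4, smul_neg, neg_smul, neg_neg, smul_smul, inv_mul_cancel₀ hl, one_smul]
        have h5 := affineCombination_mem_affineSpan_image (k := ℝ) (s := Finset.univ) (w := c) hc1
          (s' := ((Finset.univ.filter fun i => u i ≠ 0 : Finset (Fin N)) : Set (Fin N))) (fun i _ hi => by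
            have : u i = 0 := by simpa using hi
            rw [hc]; simp only []; rw [this]; simp) p
        rwa [Finset.affineCombination_eq_linear_combination _ _ _ hc1, ← hx2] at h5

/-- general position in `ℝ^D` -/
theorem general_position (D : ℕ) (N : ℕ) (p0 : Fin N → (Fin D → ℝ)) (η : ℝ) (hη : 0 < η) :
    ∃ p : Fin N → (Fin D → ℝ), (∀ i, dist (p i) (p0 i) < η) ∧
      ∀ s : Finset (Fin N), s.card ≤ D + 1 → AffineIndependent ℝ (fun i : s => p i) := by
  obtain ⟨p, hp, hG⟩ := gp_exists D N p0 η hη
  refine ⟨p, hp, fun s hs => ?_⟩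
  rw [affineIndependent_iff]
  intro s' w hw0 hw1 e he
  classical
  let W : Fin N → ℝ := fun i => if h : i ∈ s then (if (⟨i, h⟩ : s) ∈ s' then w ⟨i, h⟩ else 0) else 0
  have key : ∀ {M : Type} [AddCommMonoid M] (F : Fin N → ℝ → M), (∀ i, F i 0 = 0) →
      ∑ i, F i (W i) = ∑ e ∈ s', F e (w e) := by
    intro M _ F hF
    have h1 : ∑ i, F i (W i) = ∑ i ∈ s, F i (W i) := by
      symm
      apply Finset.sum_subset (Finset.subset_univ s)
      intro i _ hi
      have : W i = 0 := by simp only [W]; rw [dif_neg hi]
      rw [this, hF]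
    rw [h1, ← Finset.sum_coe_sort s]
    have h2 : ∀ i : s, F i (W i) = if i ∈ s' then F i (w i) else 0 := by
      intro i
      have : W i = if i ∈ s' then w i else 0 := by simp only [W]; rw [dif_pos i.2]
      rw [this]
      split_ifs
      · rfl
      · exact hF _
    rw [Finset.sum_congr rfl fun i _ => h2 i, ← Finset.sum_filter]
    congr 1
    ext i; simp
  have hcard : (Finset.univ.filter fun i => W i ≠ 0).card ≤ D + 1 := by
    refine (Finset.card_le_card ?_).trans hs
    intro i hi
    by_contra hn
    have : W i = 0 := by simp only [W]; rw [dif_neg hn]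
    simp [this] at hi
  have hW := hG W hcard (by rw [key (fun _ r => r) (fun _ => rfl)]; exact hw0)
    (by rw [key (fun i r => r • p i) (fun i => zero_smul _ _)]; exact hw1)
  have h3 := congrFun hW e
  have h4 : W e = w e := by simp only [W]; rw [dif_pos e.2, if_pos he]
  rw [h4] at h3
  exact h3

/-- consequence used: equality of two barycentric combinations forces equality of weights -/
theorem general_position' (N : ℕ) (p0 : Fin N → (Fin 5 → ℝ)) (η : ℝ) (hη : 0 < η) :
    ∃ p : Fin N → (Fin 5 → ℝ), (∀ i, dist (p i) (p0 i) < η) ∧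
      ∀ a b : Fin N → ℝ, (Finset.univ.filter fun i => a i ≠ 0).card ≤ 3 →
        (Finset.univ.filter fun i => b i ≠ 0).card ≤ 3 → ∑ i, a i = 1 → ∑ i, b i = 1 →
        ∑ i, a i • p i = ∑ i, b i • p i → a = b := by
  obtain ⟨p, hp, hG⟩ := gp_exists 5 N p0 η hη
  refine ⟨p, hp, fun a b ha hb ha1 hb1 hab => ?_⟩
  have h1 := hG (fun i => a i - b i) ?_ (by rw [Finset.sum_sub_distrib, ha1, hb1, sub_self])
    (by simp only [sub_smul]; rw [Finset.sum_sub_distrib, hab, sub_self])
  · funext i
    exact sub_eq_zero.1 (congrFun h1 i)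
  · have hsub : (Finset.univ.filter fun i => a i - b i ≠ 0) ⊆
        (Finset.univ.filter fun i => a i ≠ 0) ∪ (Finset.univ.filter fun i => b i ≠ 0) := by
      intro i hi
      rw [Finset.mem_union]
      by_contra hn
      push Not at hn
      have e1 : a i = 0 := by simpa using hn.1
      have e2 : b i = 0 := by simpa using hn.2
      simp [e1, e2] at hi
    have := (Finset.card_le_card hsub).trans (Finset.card_union_le _ _)
    omega

/-- barycentric combinations of at most three points avoid a coordinate plane of codimension 3 -/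
theorem general_position_plane (N : ℕ) (p0 : Fin N → (Fin 5 → ℝ)) (η : ℝ) (hη : 0 < η)
    (c : Fin 3 → Fin 5) (hc : Function.Injective c) (q : Fin 3 → ℝ) :
    ∃ p : Fin N → (Fin 5 → ℝ), (∀ i, dist (p i) (p0 i) < η) ∧
      ∀ a : Fin N → ℝ, (Finset.univ.filter fun i => a i ≠ 0).card ≤ 3 → ∑ i, a i = 1 →
        ¬ ∀ k, (∑ i, a i • p i) (c k) = q k := by
  obtain ⟨P, hP, hG⟩ := gp_exists 3 (N + 1)
    (Fin.snoc (α := fun _ => Fin 3 → ℝ) (fun i k => p0 i (c k)) q) (η / 2) (by linarith)
  set v : Fin 3 → ℝ := q - P (Fin.last N) with hv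
  have hvn : ∀ k, |v k| < η / 2 := by
    intro k
    have h1 := hP (Fin.last N)
    rw [Fin.snoc_last] at h1
    have h2 := (dist_pi_lt_iff (by linarith : (0:ℝ) < η / 2)).1 h1 k
    rw [Real.dist_eq, abs_sub_comm] at h2
    exact h2
  refine ⟨fun i => Function.extend c (fun k => P i.castSucc k + v k) (p0 i), fun i => ?_, ?_⟩
  · rw [dist_pi_lt_iff hη]
    intro j
    by_cases hj : ∃ k, c k = j
    · obtain ⟨k, rfl⟩ := hj
      beta_reduce
      rw [hc.extend_apply, Real.dist_eq]
      have h1 := hP i.castSucc
      rw [Fin.snoc_castSucc] at h1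
      have h2 := (dist_pi_lt_iff (by linarith : (0:ℝ) < η / 2)).1 h1 k
      rw [Real.dist_eq] at h2
      have h3 := hvn k
      have h4 : P i.castSucc k + v k - p0 i (c k) = (P i.castSucc k - p0 i (c k)) + v k := by ring
      rw [h4]
      exact (abs_add_le _ _).trans_lt (by linarith)
    · beta_reduce
      rw [Function.extend_apply' _ _ _ hj, dist_self]
      exact hη
  · intro a ha ha1 hcon
    have hw := hG (Fin.snoc (α := fun _ => ℝ) a (-1)) ?_ ?_ ?_
    · have := congrFun hw (Fin.last N)
      rw [Fin.snoc_last] at this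
      norm_num at this
    · have hsub : (Finset.univ.filter fun i => (Fin.snoc (α := fun _ => ℝ) a (-1) : Fin (N + 1) → ℝ) i ≠ 0) ⊆
          insert (Fin.last N) ((Finset.univ.filter fun i => a i ≠ 0).map Fin.castSuccEmb) := by
        intro j hj
        rw [Finset.mem_insert]
        revert hj
        refine Fin.lastCases (fun _ => Or.inl rfl) (fun i hj => Or.inr ?_) j
        rw [Finset.mem_filter, Fin.snoc_castSucc] at hj
        rw [Finset.mem_map]
        exact ⟨i, by simpa using hj.2, rfl⟩
      refine (Finset.card_le_card hsub).trans ((Finset.card_insert_le _ _).trans ?_)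
      rw [Finset.card_map]
      omega
    · rw [Fin.sum_univ_castSucc]
      simp only [Fin.snoc_castSucc, Fin.snoc_last]
      rw [ha1]; norm_num
    · rw [Fin.sum_univ_castSucc]
      simp only [Fin.snoc_castSucc, Fin.snoc_last]
      funext k
      have h1 := hcon k
      rw [Finset.sum_apply] at h1
      simp only [Pi.smul_apply, hc.extend_apply, smul_eq_mul, mul_add] at h1
      rw [Finset.sum_add_distrib, ← Finset.sum_mul, ha1] at h1
      simp only [Pi.add_apply, Finset.sum_apply, Pi.smul_apply, smul_eq_mul, Pi.zero_apply]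
      have h2 : v k = q k - P (Fin.last N) k := rfl
      linarith

end Pool.Agent.Helper220.MG.JGP
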