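import Pool.Agent.Helper220.MG.Core

set_option autoImplicit false

namespace Pool.Agent.Helper220.MG.JT6

open Set Topology Filter TopologicalSpace

theorem zc_nob (m : ℕ)
    (zd_sum_lc : ∀ {X : Type} [TopologicalSpace X] [SecondCountableTopology X]
      [MetrizableSpace X] {ι : Type} [Countable ι] (K W : ι → Set X) (_ : ∀ i, IsClosed (K i))
      (_ : ∀ i, IsOpen (W i)) (_ : ∀ x, ∃ i, x ∈ K i ∩ W i)
      (_ : ∀ i, ZD ↥(K i ∩ W i)), ZD X) : ZC 3 ↥(nob m) := by
  classical
  let R : ↥(nob m) → Finset (Fin m) := fun x => Finset.univ.filter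
    (fun i => (x : EuclideanSpace ℝ (Fin m)) i ∈ Set.range ((↑) : ℚ → ℝ))
  have hR : ∀ (x : ↥(nob m)) (i : Fin m), i ∈ R x ↔
      (x : EuclideanSpace ℝ (Fin m)) i ∈ Set.range ((↑) : ℚ → ℝ) := by
    intro x i
    simp only [R, Finset.mem_filter, Finset.mem_univ, true_and]
  have hRc : ∀ x, (R x).card ≤ 2 := fun x => x.2 (R x) (fun i hi => (hR x i).1 hi)
  refine ⟨fun c => {x | (R x).card = (c : ℕ)}, ?_, ?_⟩
  · intro z
    exact ⟨⟨(R z).card, by have := hRc z; omega⟩, rfl⟩
  · intro c
    have hcoord : ∀ i : Fin m, Continuous (fun x : EuclideanSpace ℝ (Fin m) => x i) := fun i => by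
      fun_prop
    have hc2 : ∀ i : Fin m, Continuous
        (fun x : ↥{x : ↥(nob m) | (R x).card = (c : ℕ)} => (x.1.1 : EuclideanSpace ℝ (Fin m)) i) :=
      fun i => (hcoord i).comp (continuous_subtype_val.comp continuous_subtype_val)
    refine zd_sum_lc (X := ↥{x : ↥(nob m) | (R x).card = (c : ℕ)})
      (ι := Finset (Fin m) × (Fin m → ℚ))
      (fun p => {x | p.1.card = (c : ℕ) ∧
        ∀ i ∈ p.1, (x.1.1 : EuclideanSpace ℝ (Fin m)) i = (p.2 i : ℝ)})
      (fun _ => Set.univ) ?_ (fun _ => isOpen_univ) ?_ ?_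
    · rintro ⟨s, q⟩
      have h1 : {x : ↥{x : ↥(nob m) | (R x).card = (c : ℕ)} | s.card = (c : ℕ) ∧
          ∀ i ∈ s, (x.1.1 : EuclideanSpace ℝ (Fin m)) i = (q i : ℝ)} =
          {x | s.card = (c : ℕ)} ∩ ⋂ i ∈ s, {x | (x.1.1 : EuclideanSpace ℝ (Fin m)) i = (q i : ℝ)} := by
        ext x
        simp only [Set.mem_inter_iff, Set.mem_iInter, Set.mem_ofPred_eq]
      show IsClosed {x : ↥{x : ↥(nob m) | (R x).card = (c : ℕ)} | s.card = (c : ℕ) ∧
          ∀ i ∈ s, (x.1.1 : EuclideanSpace ℝ (Fin m)) i = (q i : ℝ)}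
      rw [h1]
      refine IsClosed.inter isClosed_const ?_
      refine isClosed_biInter (fun i _ => ?_)
      exact isClosed_eq (hc2 i) continuous_const
    · intro x
      have h1 : ∀ i : Fin m, ∃ q : ℚ, i ∈ R x.1 → (x.1.1 : EuclideanSpace ℝ (Fin m)) i = (q : ℝ) := by
        intro i
        by_cases hi : i ∈ R x.1
        · obtain ⟨q, hq⟩ := (hR x.1 i).1 hi
          exact ⟨q, fun _ => hq.symm⟩
        · exact ⟨0, fun h => absurd h hi⟩
      choose q hq using h1
      exact ⟨(R x.1, q), ⟨x.2, fun i hi => hq i hi⟩, Set.mem_univ _⟩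
    · rintro ⟨s, q⟩
      intro x U hU
      -- the coordinate map is inducing
      let f : ↥({x : ↥{x : ↥(nob m) | (R x).card = (c : ℕ)} | s.card = (c : ℕ) ∧
          ∀ i ∈ s, (x.1.1 : EuclideanSpace ℝ (Fin m)) i = (q i : ℝ)} ∩ Set.univ) → (Fin m → ℝ) :=
        fun y i => (y.1.1.1 : EuclideanSpace ℝ (Fin m)) i
      have hf : Topology.IsInducing f := by
        have h1 : Topology.IsInducing (fun z : EuclideanSpace ℝ (Fin m) => (fun i => z i)) :=
          (EuclideanSpace.equiv (Fin m) ℝ).toHomeomorph.isInducing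
        exact h1.comp (Topology.IsInducing.subtypeVal.comp
          (Topology.IsInducing.subtypeVal.comp Topology.IsInducing.subtypeVal))
      have hfc : ∀ i, Continuous (fun y => f y i) := fun i => (continuous_apply i).comp hf.continuous
      have hU' : U ∈ Filter.comap f (𝓝 (f x)) := by
        rw [← hf.nhds_eq_comap]
        exact hU
      obtain ⟨V, hV, hVU⟩ := hU'
      obtain ⟨ε, hε, hεV⟩ := Metric.mem_nhds_iff.1 hV
      have ha : ∀ i, ∃ a : ℚ, f x i - ε < (a : ℝ) ∧ (a : ℝ) < f x i := fun i =>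
        exists_rat_btwn (by linarith)
      have hb : ∀ i, ∃ b : ℚ, f x i < (b : ℝ) ∧ (b : ℝ) < f x i + ε := fun i =>
        exists_rat_btwn (by linarith)
      choose a ha1 ha2 using ha
      choose b hb1 hb2 using hb
      have hs : ∀ y : ↥({x : ↥{x : ↥(nob m) | (R x).card = (c : ℕ)} | s.card = (c : ℕ) ∧
          ∀ i ∈ s, (x.1.1 : EuclideanSpace ℝ (Fin m)) i = (q i : ℝ)} ∩ Set.univ), R y.1.1 = s := by
        intro y
        have h1 : s ⊆ R y.1.1 := by
          intro i hi
          exact (hR _ _).2 ⟨q i, (y.2.1.2 i hi).symm⟩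
        have h2 : (R y.1.1).card = (c : ℕ) := y.1.2
        exact (Finset.eq_of_subset_of_card_le h1 (by rw [h2, y.2.1.1])).symm
      refine ⟨{y | ∀ i, (a i : ℝ) < f y i ∧ f y i < (b i : ℝ)}, ⟨?_, ?_⟩, ?_, ?_⟩
      · -- closed
        have h1 : {y | ∀ i, (a i : ℝ) < f y i ∧ f y i < (b i : ℝ)} =
            ⋂ i, {y | (a i : ℝ) ≤ f y i} ∩ {y | f y i ≤ (b i : ℝ)} := by
          ext y
          simp only [Set.mem_iInter, Set.mem_inter_iff, Set.mem_ofPred_eq]
          constructor
          · intro h i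
            exact ⟨(h i).1.le, (h i).2.le⟩
          · intro h i
            by_cases hi : i ∈ s
            · have h2 : f y i = f x i := by
                have h3 : f y i = (q i : ℝ) := y.2.1.2 i hi
                have h4 : f x i = (q i : ℝ) := x.2.1.2 i hi
                rw [h3, h4]
              rw [h2]
              exact ⟨ha2 i, hb1 i⟩
            · have h2 : ¬ (f y i ∈ Set.range ((↑) : ℚ → ℝ)) := by
                intro h3
                have h4 : i ∈ R y.1.1 := (hR _ _).2 h3
                rw [hs y] at h4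
                exact hi h4
              refine ⟨lt_of_le_of_ne (h i).1 (fun h3 => h2 ⟨a i, h3⟩),
                lt_of_le_of_ne (h i).2 (fun h3 => h2 ⟨b i, h3.symm⟩)⟩
        rw [h1]
        refine isClosed_iInter (fun i => IsClosed.inter ?_ ?_)
        · exact isClosed_le continuous_const (hfc i)
        · exact isClosed_le (hfc i) continuous_const
      · have h1 : {y | ∀ i, (a i : ℝ) < f y i ∧ f y i < (b i : ℝ)} =
            ⋂ i, {y | (a i : ℝ) < f y i} ∩ {y | f y i < (b i : ℝ)} := by
          ext y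
          simp only [Set.mem_iInter, Set.mem_inter_iff, Set.mem_ofPred_eq]
        rw [h1]
        refine isOpen_iInter_of_finite (fun i => IsOpen.inter ?_ ?_)
        · exact isOpen_lt continuous_const (hfc i)
        · exact isOpen_lt (hfc i) continuous_const
      · intro i
        exact ⟨ha2 i, hb1 i⟩
      · intro y hy
        apply hVU
        apply hεV
        rw [Metric.mem_ball, dist_pi_lt_iff hε]
        intro i
        have h1 := hy i
        have h2 := ha1 i
        have h3 := hb2 i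
        rw [Real.dist_eq, abs_lt]
        constructor <;> linarith [h1.1, h1.2]

end Pool.Agent.Helper220.MG.JT6
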