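import Pool.Agent.Helper220.MG.ZCl
import Pool.Agent.Helper220.MG.JEps
import Pool.Agent.Helper220.MG.JAvoid
import Pool.Agent.Helper220.MG.JGP
import Pool.Agent.Helper220.MG.JT6

set_option autoImplicit false

namespace Pool.Agent.Helper220.MG

open Set Topology Filter TopologicalSpace

theorem zc_nob (m : ℕ) : ZC 3 ↥(nob m) :=
  JT6.zc_nob m (fun K W hK hW hcov hZ => zd_sum_lc K W hK hW hcov hZ)

theorem embed_nob (Y : Type) [TopologicalSpace Y] [CompactSpace Y] [MetrizableSpace Y]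
    (h : FC 3 Y) : ∃ f : Y → EuclideanSpace ℝ (Fin 5), IsEmbedding f ∧ ∀ y, f y ∈ nob 5 := by
  letI := metrizableSpaceMetric Y
  let A : ℕ → Set C(Y, Fin 5 → ℝ) := fun n => {g | ∀ x y, g x = g y → dist x y < 1 / ((n : ℝ) + 1)}
  have hA : ∀ n, Dense (A n) ∧ IsOpen (A n) := fun n =>
    JEps.eps_dense h JGP.general_position' (1 / ((n : ℝ) + 1)) (by positivity)
  let I := {c : Fin 3 → Fin 5 // Function.Injective c} × (Fin 3 → ℚ)
  let B : I → Set C(Y, Fin 5 → ℝ) := fun i => {g | ∀ y, ¬ ∀ k, g y (i.1.1 k) = ((i.2 k : ℚ) : ℝ)}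
  have hB : ∀ i, Dense (B i) ∧ IsOpen (B i) := fun i =>
    JAvoid.avoid_dense h i.1.1 (fun k => (i.2 k : ℝ))
      (fun N p0 η hη => JGP.general_position_plane N p0 η hη i.1.1 i.1.2 _)
  have hAd : Dense (⋂ n, A n) := dense_iInter_of_isOpen (fun n => (hA n).2) (fun n => (hA n).1)
  let AB : ℕ ⊕ I → Set C(Y, Fin 5 → ℝ) := fun s => Sum.elim A B s
  have hAB : Dense (⋂ s, AB s) := by
    apply dense_iInter_of_isOpen
    · rintro (n | i)
      · exact (hA n).2
      · exact (hB i).2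
    · rintro (n | i)
      · exact (hA n).1
      · exact (hB i).1
  obtain ⟨g, hg⟩ := hAB.nonempty
  have hgA : ∀ n, g ∈ A n := fun n => mem_iInter.1 hg (Sum.inl n)
  have hgB : ∀ i, g ∈ B i := fun i => mem_iInter.1 hg (Sum.inr i)
  have hinj : Function.Injective g := by
    intro x y hxy
    by_contra hne
    have hpos : 0 < dist x y := dist_pos.2 hne
    obtain ⟨n, hn⟩ := exists_nat_one_div_lt hpos
    exact absurd (hgA n x y hxy) (not_lt.2 hn.le)
  have hemb : IsEmbedding (fun y => (WithLp.toLp 2 (g y) : EuclideanSpace ℝ (Fin 5))) := by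
    have h1 : IsClosedEmbedding (fun y => (WithLp.toLp 2 (g y) : EuclideanSpace ℝ (Fin 5))) := by
      apply Continuous.isClosedEmbedding
      · exact (PiLp.continuous_toLp 2 _).comp g.continuous
      · intro x y hxy
        exact hinj ((WithLp.toLp_injective 2) hxy)
    exact h1.isEmbedding
  refine ⟨_, hemb, ?_⟩
  intro y s hs
  by_contra hcard
  have h3 : 3 ≤ s.card := by omega
  obtain ⟨t, hts, ht3⟩ := Finset.exists_subset_card_eq h3
  let e := t.orderEmbOfFin ht3
  have he : ∀ k, e k ∈ s := fun k => hts (Finset.orderEmbOfFin_mem t ht3 k)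
  have hq : ∀ k : Fin 3, ∃ q : ℚ, (q : ℝ) = g y (e k) := by
    intro k
    obtain ⟨q, hq⟩ := hs (e k) (he k)
    exact ⟨q, hq⟩
  choose q hq using hq
  exact hgB (⟨e, e.injective⟩, q) y (fun k => (hq k).symm)

end Pool.Agent.Helper220.MG
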