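import Pool.Agent.Helper220.MG.Core

set_option autoImplicit false

namespace Pool.Agent.Helper220.MG.JBase

open Set Topology Filter TopologicalSpace

theorem r_sq {w : ℂ} (hw : w ≠ 0) : Complex.exp (Complex.log w / 2) ^ 2 = w := by
  rw [← Complex.exp_nat_mul]
  have : ((2 : ℕ) : ℂ) * (Complex.log w / 2) = Complex.log w := by push_cast; ring
  rw [this, Complex.exp_log hw]

/-- continuous square roots of circle valued functions on the disc -/
theorem exists_sqrt (F : ℂ → ℂ) (hF : ContinuousOn F (Metric.closedBall 0 1))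
    (hF1 : ∀ z ∈ Metric.closedBall (0 : ℂ) 1, ‖F z‖ = 1) :
    ∃ H : ℂ → ℂ, ContinuousOn H (Metric.closedBall 0 1) ∧
      (∀ z ∈ Metric.closedBall (0 : ℂ) 1, ‖H z‖ = 1 ∧ H z ^ 2 = F z) := by
  have hcpt : IsCompact (Metric.closedBall (0 : ℂ) 1) := isCompact_closedBall 0 1
  have huc := hcpt.uniformContinuousOn_of_continuous hF
  rw [Metric.uniformContinuousOn_iff] at huc
  obtain ⟨δ, hδ, hu⟩ := huc 1 one_pos
  obtain ⟨N, hN⟩ := exists_nat_gt (1 / δ)
  have hN0 : (0 : ℝ) < N := lt_trans (by positivity) hN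
  have hNδ : 1 / (N : ℝ) < δ := by
    rw [div_lt_iff₀ hδ] at hN
    rw [div_lt_iff₀ hN0]
    linarith
  have hne : ∀ z ∈ Metric.closedBall (0 : ℂ) 1, F z ≠ 0 := by
    intro z hz h
    have := hF1 z hz
    rw [h] at this
    simp at this
  have hmem : ∀ i : ℕ, i ≤ N → ∀ z ∈ Metric.closedBall (0 : ℂ) 1,
      (((i : ℝ) / N : ℝ) : ℂ) * z ∈ Metric.closedBall (0 : ℂ) 1 := by
    intro i hi z hz
    rw [mem_closedBall_zero_iff] at hz ⊢
    rw [norm_mul, Complex.norm_real, Real.norm_of_nonneg (by positivity)]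
    have h1 : (i : ℝ) / N ≤ 1 := by
      rw [div_le_one hN0]; exact_mod_cast hi
    have h2 : 0 ≤ (i : ℝ) / N := by positivity
    nlinarith [norm_nonneg z]
  set g : ℕ → ℂ → ℂ := fun i z => F ((((i : ℝ) / N : ℝ) : ℂ) * z) with hg
  have hgc : ∀ i : ℕ, i ≤ N → ContinuousOn (g i) (Metric.closedBall 0 1) := by
    intro i hi
    apply hF.comp (by fun_prop)
    intro z hz
    exact hmem i hi z hz
  have hgne : ∀ i : ℕ, i ≤ N → ∀ z ∈ Metric.closedBall (0 : ℂ) 1, g i z ≠ 0 :=
    fun i hi z hz => hne _ (hmem i hi z hz)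
  have hratio : ∀ i : ℕ, i < N → ∀ z ∈ Metric.closedBall (0 : ℂ) 1,
      g (i + 1) z / g i z ∈ Complex.slitPlane := by
    intro i hi z hz
    have h1 : dist ((((i + 1 : ℕ) : ℝ) / N : ℝ) * z : ℂ) ((((i : ℕ) : ℝ) / N : ℝ) * z : ℂ) < δ := by
      rw [dist_eq_norm, ← sub_mul, norm_mul, ← Complex.ofReal_sub, Complex.norm_real]
      have e : (((i + 1 : ℕ) : ℝ) / N - (i : ℝ) / N) = 1 / N := by push_cast; ring
      rw [e, Real.norm_of_nonneg (by positivity)]
      rw [mem_closedBall_zero_iff] at hz
      have h2 : 0 ≤ 1 / (N : ℝ) := by positivity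
      nlinarith [norm_nonneg z]
    have h2 := hu _ (hmem (i + 1) hi z hz) _ (hmem i hi.le z hz) h1
    have h3 : ‖g i z‖ = 1 := hF1 _ (hmem i hi.le z hz)
    have h4 : ‖g (i + 1) z / g i z - 1‖ < 1 := by
      have e : g (i + 1) z / g i z - 1 = (g (i + 1) z - g i z) / g i z := by
        rw [sub_div, div_self (hgne i hi.le z hz)]
      rw [e, norm_div, h3, div_one, ← dist_eq_norm]
      exact h2
    left
    have h5 := (Complex.abs_re_le_norm (g (i + 1) z / g i z - 1)).trans_lt h4
    rw [abs_lt] at h5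
    simp only [Complex.sub_re, Complex.one_re] at h5
    linarith [h5.1]
  have h0 : (0 : ℂ) ∈ Metric.closedBall (0 : ℂ) 1 := by simp
  refine ⟨fun z => Complex.exp (Complex.log (F 0) / 2) *
    ∏ i ∈ Finset.range N, Complex.exp (Complex.log (g (i + 1) z / g i z) / 2), ?_, ?_⟩
  · apply ContinuousOn.mul continuousOn_const
    apply continuousOn_finsetProd
    intro i hi
    have hi' := Finset.mem_range.1 hi
    apply ContinuousOn.cexp
    apply ContinuousOn.div_const
    apply ContinuousOn.clog
    · exact (hgc (i + 1) hi').div (hgc i hi'.le) (hgne i hi'.le)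
    · exact hratio i hi'
  · intro z hz
    have hsq : (Complex.exp (Complex.log (F 0) / 2) *
        ∏ i ∈ Finset.range N, Complex.exp (Complex.log (g (i + 1) z / g i z) / 2)) ^ 2 = F z := by
      rw [mul_pow, r_sq (hne 0 h0), ← Finset.prod_pow]
      have hind : ∀ n : ℕ, n ≤ N → F 0 * ∏ i ∈ Finset.range n,
          Complex.exp (Complex.log (g (i + 1) z / g i z) / 2) ^ 2 = g n z := by
        intro n
        induction n with
        | zero => intro _; simp [hg]
        | succ n ih =>
          intro hn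
          rw [Finset.prod_range_succ, ← mul_assoc, ih (by omega),
            r_sq (div_ne_zero (hgne (n + 1) hn z hz) (hgne n (by omega) z hz)),
            mul_div_cancel₀ _ (hgne n (by omega) z hz)]
      rw [hind N le_rfl]
      simp only [hg]
      rw [div_self hN0.ne']
      simp
    refine ⟨?_, hsq⟩
    have h6 := congrArg norm hsq
    rw [norm_pow, hF1 z hz] at h6
    exact (pow_eq_one_iff_of_nonneg (norm_nonneg _) two_ne_zero).1 h6

/-- `z ^ (2 ^ k)` on the unit circle does not extend to a circle valued map on the disc -/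
theorem no_extension (k : ℕ) : ¬ ∃ F : ℂ → ℂ, ContinuousOn F (Metric.closedBall 0 1) ∧
    (∀ z ∈ Metric.closedBall (0 : ℂ) 1, ‖F z‖ = 1) ∧ ∀ z : ℂ, ‖z‖ = 1 → F z = z ^ (2 ^ k) := by
  induction k with
  | zero =>
    rintro ⟨F, hF, hF1, hFz⟩
    obtain ⟨H, hH, hH1⟩ := exists_sqrt F hF hF1
    have hm : ∀ t : ℝ, Complex.exp (t * Complex.I) ∈ Metric.closedBall (0 : ℂ) 1 := by
      intro t
      rw [mem_closedBall_zero_iff, Complex.norm_exp_ofReal_mul_I]
    have hfc : Continuous fun t : ℝ => H (Complex.exp (t * Complex.I)) := by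
      rw [← continuousOn_univ]
      apply hH.comp (by fun_prop)
      intro t _
      exact hm t
    have hgc : Continuous fun t : ℝ => Complex.exp (t * Complex.I / 2) := by fun_prop
    have key := (isPreconnected_univ (α := ℝ)).eq_or_eq_neg_of_sq_eq hfc.continuousOn
      hgc.continuousOn (by
        intro t _
        simp only [Pi.pow_apply]
        rw [(hH1 _ (hm t)).2, hFz _ (Complex.norm_exp_ofReal_mul_I t), pow_zero, pow_one,
          ← Complex.exp_nat_mul]
        congr 1
        push_cast; ring) (fun _ => Complex.exp_ne_zero _)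
    have e1 : Complex.exp (((0 : ℝ) : ℂ) * Complex.I) = 1 := by simp
    have e2 : Complex.exp (((2 * Real.pi : ℝ) : ℂ) * Complex.I) = 1 := by
      push_cast
      exact Complex.exp_two_pi_mul_I
    have e3 : Complex.exp (((0 : ℝ) : ℂ) * Complex.I / 2) = 1 := by simp
    have e4 : Complex.exp (((2 * Real.pi : ℝ) : ℂ) * Complex.I / 2) = -1 := by
      have : (((2 * Real.pi : ℝ) : ℂ) * Complex.I / 2) = Real.pi * Complex.I := by push_cast; ring
      rw [this, Complex.exp_pi_mul_I]
    rcases key with key | key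
    · have k1 := key (mem_univ (0 : ℝ))
      have k2 := key (mem_univ (2 * Real.pi : ℝ))
      simp only at k1 k2
      rw [e1, e3] at k1
      rw [e2, e4, k1] at k2
      norm_num at k2
    · have k1 := key (mem_univ (0 : ℝ))
      have k2 := key (mem_univ (2 * Real.pi : ℝ))
      simp only [Pi.neg_apply] at k1 k2
      rw [e1, e3] at k1
      rw [e2, e4, k1] at k2
      norm_num at k2
  | succ k ih =>
    rintro ⟨F, hF, hF1, hFz⟩
    obtain ⟨H, hH, hH1⟩ := exists_sqrt F hF hF1
    have hsub : Metric.sphere (0 : ℂ) 1 ⊆ Metric.closedBall 0 1 := Metric.sphere_subset_closedBall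
    have hpre : IsPreconnected (Metric.sphere (0 : ℂ) 1) := by
      apply isPreconnected_sphere
      rw [Complex.rank_real_complex]
      norm_num
    have key := hpre.eq_or_eq_neg_of_sq_eq (hH.mono hsub)
      (g := fun z => z ^ (2 ^ k)) (by fun_prop) (by
        intro z hz
        simp only [Pi.pow_apply]
        rw [(hH1 _ (hsub hz)).2, hFz _ (by simpa using hz), ← pow_mul, pow_succ]) (by
        intro z hz h
        have : ‖z‖ = 1 := by simpa using hz
        have h2 : z = 0 := pow_eq_zero_iff (by positivity) |>.1 h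
        rw [h2] at this
        simp at this)
    rcases key with key | key
    · exact ih ⟨H, hH, fun z hz => (hH1 z hz).1, fun z hz => key (by simpa using hz)⟩
    · refine ih ⟨fun z => -H z, hH.neg, fun z hz => by rw [norm_neg]; exact (hH1 z hz).1,
        fun z hz => ?_⟩
      have := key (show z ∈ Metric.sphere (0 : ℂ) 1 by simpa using hz)
      simp only [Pi.neg_apply] at this
      show -H z = _
      rw [this, neg_neg]

end Pool.Agent.Helper220.MG.JBase
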