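import Pool.Agent.Helper220.MG.Core

set_option autoImplicit false

namespace Pool.Agent.Helper220.MG.JDen

open Set Topology Filter TopologicalSpace

/-- real polynomials are approximated by rational ones on bounded sets -/
theorem den_poly_rat (K : Set (ℕ → (Fin 3 → ℝ))) (hK : IsCompact K)
    (R : MvPolynomial (ℕ × Fin 3) ℝ) :
    ∀ ε : ℝ, 0 < ε → ∃ P : MvPolynomial (ℕ × Fin 3) ℚ, ∀ ω ∈ K,
      |MvPolynomial.aeval (fun p : ℕ × Fin 3 => ω p.1 p.2) P -
        MvPolynomial.aeval (fun p : ℕ × Fin 3 => ω p.1 p.2) R| < ε := by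
  induction R using MvPolynomial.induction_on with
  | C a =>
    intro ε hε
    obtain ⟨r, hr1, hr2⟩ := exists_rat_btwn (show a - ε < a by linarith)
    refine ⟨MvPolynomial.C r, ?_⟩
    intro ω _
    rw [MvPolynomial.aeval_C, MvPolynomial.aeval_C, abs_lt]
    simp only [eq_ratCast, Algebra.algebraMap_self, RingHom.id_apply]
    constructor <;> linarith
  | add p q hp hq =>
    intro ε hε
    obtain ⟨P, hP⟩ := hp (ε / 2) (by linarith)
    obtain ⟨Q, hQ⟩ := hq (ε / 2) (by linarith)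
    refine ⟨P + Q, ?_⟩
    intro ω hω
    rw [map_add, map_add]
    have h1 := abs_lt.1 (hP ω hω)
    have h2 := abs_lt.1 (hQ ω hω)
    rw [abs_lt]
    constructor <;> linarith [h1.1, h1.2, h2.1, h2.2]
  | mul_X p n hp =>
    intro ε hε
    have hcont : Continuous (fun ω : ℕ → (Fin 3 → ℝ) => ω n.1 n.2) :=
      (continuous_apply n.2).comp (continuous_apply n.1)
    obtain ⟨M, hM⟩ := hK.exists_bound_of_continuousOn hcont.continuousOn
    have hM' : 0 < |M| + 1 := by positivity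
    obtain ⟨P, hP⟩ := hp (ε / (|M| + 1)) (by positivity)
    refine ⟨P * MvPolynomial.X n, ?_⟩
    intro ω hω
    rw [map_mul, map_mul, MvPolynomial.aeval_X, MvPolynomial.aeval_X, ← sub_mul, abs_mul]
    have h1 := hP ω hω
    have h2 : |ω n.1 n.2| ≤ |M| := by
      have := hM ω hω
      rw [Real.norm_eq_abs] at this
      exact this.trans (le_abs_self M)
    have h3 : ε / (|M| + 1) * (|M| + 1) = ε := by field_simp
    calc _ ≤ |MvPolynomial.aeval (fun p : ℕ × Fin 3 => ω p.1 p.2) P -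
        MvPolynomial.aeval (fun p : ℕ × Fin 3 => ω p.1 p.2) p| * |M| :=
          mul_le_mul_of_nonneg_left h2 (abs_nonneg _)
      _ ≤ ε / (|M| + 1) * |M| := mul_le_mul_of_nonneg_right h1.le (abs_nonneg _)
      _ < ε / (|M| + 1) * (|M| + 1) := by
          apply mul_lt_mul_of_pos_left (by linarith) (by positivity)
      _ = ε := h3

/-- rational polynomials in the coordinates are dense on compact sets -/
theorem den_poly (K : Set (ℕ → (Fin 3 → ℝ))) (hK : IsCompact K) (g : (ℕ → (Fin 3 → ℝ)) → ℝ)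
    (hg : ContinuousOn g K) (ε : ℝ) (hε : 0 < ε) :
    ∃ P : MvPolynomial (ℕ × Fin 3) ℚ, ∀ ω ∈ K,
      |MvPolynomial.aeval (fun p : ℕ × Fin 3 => ω p.1 p.2) P - g ω| < ε := by
  have : CompactSpace K := isCompact_iff_compactSpace.1 hK
  have hc : ∀ p : ℕ × Fin 3, Continuous (fun ω : (ℕ → (Fin 3 → ℝ)) => ω p.1 p.2) :=
    fun p => (continuous_apply p.2).comp (continuous_apply p.1)
  let co : ℕ × Fin 3 → C(K, ℝ) := fun p =>
    ⟨fun ω => (ω : ℕ → (Fin 3 → ℝ)) p.1 p.2, (hc p).comp continuous_subtype_val⟩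
  let A : Subalgebra ℝ C(K, ℝ) := (MvPolynomial.aeval (R := ℝ) co).range
  have hev : ∀ (R : MvPolynomial (ℕ × Fin 3) ℝ) (ω : K),
      (MvPolynomial.aeval (R := ℝ) co R) ω =
        MvPolynomial.aeval (fun p : ℕ × Fin 3 => (ω : ℕ → (Fin 3 → ℝ)) p.1 p.2) R := by
    intro R ω
    induction R using MvPolynomial.induction_on with
    | C a => simp
    | add p q hp hq => rw [map_add, map_add, ← hp, ← hq]; rfl
    | mul_X p n hp =>
      rw [map_mul, map_mul, ← hp, MvPolynomial.aeval_X, MvPolynomial.aeval_X]; rfl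
  have hsep : A.SeparatesPoints := by
    intro x y hxy
    have hne : (x : ℕ → (Fin 3 → ℝ)) ≠ y := fun h => hxy (Subtype.ext h)
    obtain ⟨n, hn⟩ := Function.ne_iff.1 hne
    obtain ⟨i, hi⟩ := Function.ne_iff.1 hn
    refine ⟨co (n, i), ⟨co (n, i), ⟨MvPolynomial.X (n, i), by simp⟩, rfl⟩, hi⟩
  obtain ⟨f, hf⟩ := ContinuousMap.exists_mem_subalgebra_near_continuous_of_separatesPoints A hsep
    (fun ω : K => g ω) hg.domRestrict (ε / 2) (by linarith)
  obtain ⟨f, R, hR⟩ := f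
  obtain ⟨P, hP⟩ := den_poly_rat K hK R (ε / 2) (by linarith)
  refine ⟨P, ?_⟩
  intro ω hω
  have h1 := hf ⟨ω, hω⟩
  have h2 := hP ω hω
  have h3 : f ⟨ω, hω⟩ = MvPolynomial.aeval (fun p : ℕ × Fin 3 => ω p.1 p.2) R := by
    have := hev R ⟨ω, hω⟩
    rw [← this]
    have hR' : (MvPolynomial.aeval (R := ℝ) co) R = f := hR
    rw [hR']
  rw [Real.norm_eq_abs] at h1
  change |f ⟨ω, hω⟩ - g ω| < ε / 2 at h1
  rw [h3] at h1
  have h4 := abs_lt.1 h1
  have h5 := abs_lt.1 h2
  rw [abs_lt]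
  constructor <;> linarith [h4.1, h4.2, h5.1, h5.2]

end Pool.Agent.Helper220.MG.JDen
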