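import Pool.Agent.Helper220.MG.Core

set_option autoImplicit false

namespace Pool.Agent.Helper220.MG.JT3

open Set Topology Filter TopologicalSpace

theorem zd_partition {T : Type} [TopologicalSpace T] [SecondCountableTopology T] (hT : ZD T) :
    ∀ (n : ℕ) (O : Fin n → Set T), (∀ j, IsOpen (O j)) → ∀ K : Set T, IsClopen K →
      (K ⊆ ⋃ j, O j) → ∃ D : Fin n → Set T, (∀ j, IsClopen (D j)) ∧ (∀ j, D j ⊆ O j) ∧
        (⋃ j, D j) = K ∧ ∀ i j, i ≠ j → Disjoint (D i) (D j) := by
  intro n
  induction n with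
  | zero =>
    intro O _ K hK hKO
    refine ⟨fun j => j.elim0, fun j => j.elim0, fun j => j.elim0, ?_, fun i => i.elim0⟩
    have : K = ∅ := by
      apply Set.eq_empty_of_subset_empty
      simpa using hKO
    rw [this]
    simp
  | succ n ih =>
    intro O hO K hK hKO
    have hU : IsOpen (⋃ j : Fin n, O j.castSucc) := isOpen_iUnion fun j => hO _
    obtain ⟨C, hC, hAC, hCB⟩ := hT.sep (A := K \ ⋃ j : Fin n, O j.castSucc)
      (B := (O (Fin.last n))ᶜ) (hK.isClosed.sdiff hU) (hO _).isClosed_compl (by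
        rw [Set.disjoint_left]
        rintro x ⟨hx1, hx2⟩ hx3
        obtain ⟨j, hj⟩ := mem_iUnion.1 (hKO hx1)
        revert hj
        refine Fin.lastCases (fun h => hx3 h) (fun j h => hx2 (mem_iUnion.2 ⟨j, h⟩)) j)
    obtain ⟨D, h1, h2, h3, h4⟩ := ih (fun j => O j.castSucc) (fun j => hO _) (K \ C)
      (hK.diff hC) (by
        rintro x ⟨hx1, hx2⟩
        by_contra hx3
        exact hx2 (hAC ⟨hx1, hx3⟩))
    have hDC : ∀ j, Disjoint (D j) (C ∩ K) := by
      intro j
      rw [Set.disjoint_left]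
      intro x hx hx2
      have : x ∈ K \ C := by rw [← h3]; exact mem_iUnion.2 ⟨j, hx⟩
      exact this.2 hx2.1
    refine ⟨Fin.lastCases (C ∩ K) D, ?_, ?_, ?_, ?_⟩
    · intro j
      refine Fin.lastCases ?_ (fun j => ?_) j
      · simp only [Fin.lastCases_last]; exact hC.inter hK
      · simp only [Fin.lastCases_castSucc]; exact h1 j
    · intro j
      refine Fin.lastCases ?_ (fun j => ?_) j
      · simp only [Fin.lastCases_last]
        intro x hx
        by_contra hx2
        exact Set.disjoint_left.1 hCB hx.1 hx2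
      · simp only [Fin.lastCases_castSucc]; exact h2 j
    · ext x
      constructor
      · intro hx
        obtain ⟨j, hj⟩ := mem_iUnion.1 hx
        revert hj
        refine Fin.lastCases ?_ (fun j => ?_) j
        · simp only [Fin.lastCases_last]; exact fun h => h.2
        · simp only [Fin.lastCases_castSucc]
          intro h
          have : x ∈ K \ C := by rw [← h3]; exact mem_iUnion.2 ⟨j, h⟩
          exact this.1
      · intro hx
        by_cases hxC : x ∈ C
        · refine mem_iUnion.2 ⟨Fin.last n, ?_⟩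
          simp only [Fin.lastCases_last]
          exact ⟨hxC, hx⟩
        · have : x ∈ ⋃ j, D j := by rw [h3]; exact ⟨hx, hxC⟩
          obtain ⟨j, hj⟩ := mem_iUnion.1 this
          refine mem_iUnion.2 ⟨j.castSucc, ?_⟩
          simp only [Fin.lastCases_castSucc]
          exact hj
    · intro i j
      refine Fin.lastCases ?_ (fun i => ?_) i
      · refine Fin.lastCases ?_ (fun j => ?_) j
        · intro h; exact absurd rfl h
        · intro _
          simp only [Fin.lastCases_last, Fin.lastCases_castSucc]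
          exact (hDC j).symm
      · refine Fin.lastCases ?_ (fun j => ?_) j
        · intro _
          simp only [Fin.lastCases_last, Fin.lastCases_castSucc]
          exact hDC i
        · intro h
          simp only [Fin.lastCases_castSucc]
          exact h4 i j (fun h5 => h (by rw [h5]))

/-- disjoint open expansions of a clopen partition of a subset -/
theorem expand {X : Type} [TopologicalSpace X] [MetrizableSpace X] {T : Set X} {n : ℕ}
    (D : Fin n → Set ↥T) (hD : ∀ j, IsClopen (D j)) (hU : (⋃ j, D j) = univ)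
    (hdis : ∀ i j, i ≠ j → Disjoint (D i) (D j)) (U : Fin n → Set X) (hUo : ∀ j, IsOpen (U j))
    (hDU : ∀ j, Subtype.val '' (D j) ⊆ U j) :
    ∃ V : Fin n → Set X, (∀ j, IsOpen (V j)) ∧ (∀ j, V j ⊆ U j) ∧ (T ⊆ ⋃ j, V j) ∧
      ∀ i j, i ≠ j → Disjoint (V i) (V j) := by
  letI := metrizableSpaceMetric X
  let A : Fin n → Set X := fun j => Subtype.val '' (D j)
  let C : Fin n → Set X := fun j => T \ A j
  have hAC : ∀ i j, i ≠ j → A j ⊆ C i := by
    rintro i j hij _ ⟨x, hx, rfl⟩
    refine ⟨x.2, ?_⟩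
    rintro ⟨y, hy, hyx⟩
    have : y = x := Subtype.ext hyx
    subst this
    exact Set.disjoint_left.1 (hdis i j hij) hy hx
  refine ⟨fun j => {x | Metric.infEDist x (A j) < Metric.infEDist x (C j)} ∩ U j, ?_, ?_, ?_, ?_⟩
  · intro j
    exact (isOpen_lt Metric.continuous_infEDist Metric.continuous_infEDist).inter (hUo j)
  · intro j
    exact inter_subset_right
  · intro x hx
    have : (⟨x, hx⟩ : ↥T) ∈ ⋃ j, D j := by rw [hU]; trivial
    obtain ⟨j, hj⟩ := mem_iUnion.1 this
    refine mem_iUnion.2 ⟨j, ?_, hDU j ⟨_, hj, rfl⟩⟩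
    have h0 : Metric.infEDist x (A j) = 0 := Metric.infEDist_zero_of_mem ⟨_, hj, rfl⟩
    show Metric.infEDist x (A j) < Metric.infEDist x (C j)
    rw [h0, pos_iff_ne_zero]
    intro h1
    have h2 : x ∈ closure (C j) := Metric.mem_closure_iff_infEDist_zero.2 h1
    have h3 : (⟨x, hx⟩ : ↥T) ∈ closure ((D j)ᶜ) := by
      rw [closure_subtype]
      refine closure_mono ?_ h2
      rintro y ⟨hy1, hy2⟩
      exact ⟨⟨y, hy1⟩, fun hy3 => hy2 ⟨_, hy3, rfl⟩, rfl⟩
    rw [(hD j).compl.isClosed.closure_eq] at h3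
    exact h3 hj
  · intro i j hij
    rw [Set.disjoint_left]
    rintro x ⟨hx1, _⟩ ⟨hx2, _⟩
    have h1 : Metric.infEDist x (A i) < Metric.infEDist x (C i) := hx1
    have h2 : Metric.infEDist x (A j) < Metric.infEDist x (C j) := hx2
    have h3 : Metric.infEDist x (C i) ≤ Metric.infEDist x (A j) :=
      Metric.infEDist_anti (hAC i j hij)
    have h4 : Metric.infEDist x (C j) ≤ Metric.infEDist x (A i) :=
      Metric.infEDist_anti (hAC j i hij.symm)
    exact absurd (h1.trans_le (h3.trans (h2.le.trans h4))) (lt_irrefl _)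

theorem exists_fun {X : Type} [TopologicalSpace X] [MetrizableSpace X] (V : Set X)
    (hV : IsOpen V) : ∃ ψ : X → ℝ, Continuous ψ ∧ (∀ x, 0 ≤ ψ x) ∧ ∀ x, ψ x ≠ 0 ↔ x ∈ V := by
  letI := metrizableSpaceMetric X
  by_cases hVu : V = univ
  · exact ⟨fun _ => 1, continuous_const, fun _ => zero_le_one, fun x => by simp [hVu]⟩
  · have hne : (Vᶜ).Nonempty := by
      rw [nonempty_compl]; exact hVu
    refine ⟨fun x => Metric.infDist x Vᶜ, Metric.continuous_infDist_pt _,
      fun x => Metric.infDist_nonneg, fun x => ?_⟩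
    have := hV.isClosed_compl.mem_iff_infDist_zero hne (x := x)
    constructor
    · intro h
      by_contra hx
      exact h (this.1 hx)
    · intro hx h
      exact (this.2 h) hx

theorem fc_of_zc {m : ℕ} {X : Type} [TopologicalSpace X] [SecondCountableTopology X]
    [MetrizableSpace X] (h : ZC m X) : FC m X := by
  intro n U hU hcov
  obtain ⟨E, hE1, hE2⟩ := h
  have hV : ∀ i : Fin m, ∃ V : Fin n → Set X, (∀ j, IsOpen (V j)) ∧ (∀ j, V j ⊆ U j) ∧
      (E i ⊆ ⋃ j, V j) ∧ ∀ a b, a ≠ b → Disjoint (V a) (V b) := by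
    intro i
    obtain ⟨D, h1, h2, h3, h4⟩ := zd_partition (hE2 i) n (fun j => Subtype.val ⁻¹' (U j))
      (fun j => (hU j).preimage continuous_subtype_val) univ isClopen_univ (by
        intro x _
        have : (x : X) ∈ ⋃ j, U j := by rw [hcov]; trivial
        obtain ⟨j, hj⟩ := mem_iUnion.1 this
        exact mem_iUnion.2 ⟨j, hj⟩)
    exact expand D h1 h3 h4 U hU (fun j => by
      rintro _ ⟨x, hx, rfl⟩
      exact h2 j hx)
  choose V hV1 hV2 hV3 hV4 using hV
  choose ψ hψ1 hψ2 hψ3 using fun (i : Fin m) (j : Fin n) => exists_fun (V i j) (hV1 i j)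
  let S : X → ℝ := fun x => ∑ i, ∑ j, ψ i j x
  have hSc : Continuous S := by
    apply continuous_finsetSum
    intro i _
    apply continuous_finsetSum
    intro j _
    exact hψ1 i j
  have hSpos : ∀ x, 0 < S x := by
    intro x
    obtain ⟨i, hi⟩ := hE1 x
    obtain ⟨j, hj⟩ := mem_iUnion.1 (hV3 i hi)
    have h1 : 0 < ψ i j x := lt_of_le_of_ne (hψ2 i j x) (Ne.symm ((hψ3 i j x).2 hj))
    have h2 : ψ i j x ≤ ∑ j, ψ i j x :=
      Finset.single_le_sum (f := fun j => ψ i j x) (fun k _ => hψ2 i k x) (Finset.mem_univ j)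
    have h3 : ∑ j, ψ i j x ≤ S x :=
      Finset.single_le_sum (f := fun i => ∑ j, ψ i j x)
        (fun k _ => Finset.sum_nonneg fun j _ => hψ2 k j x) (Finset.mem_univ i)
    linarith
  refine ⟨fun i j x => ψ i j x / S x, ?_, ?_, ?_, ?_, ?_⟩
  · intro i j
    exact (hψ1 i j).div hSc (fun x => (hSpos x).ne')
  · intro i j x
    exact div_nonneg (hψ2 i j x) (hSpos x).le
  · intro i j x hx
    have : ψ i j x ≠ 0 := by
      intro h0
      apply hx
      show ψ i j x / S x = 0
      rw [h0, zero_div]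
    exact hV2 i j ((hψ3 i j x).1 this)
  · intro i j j' x hjj
    by_contra hc
    push Not at hc
    have h1 : ψ i j x ≠ 0 := by
      intro h0
      apply hc.1
      show ψ i j x / S x = 0
      rw [h0, zero_div]
    have h2 : ψ i j' x ≠ 0 := by
      intro h0
      apply hc.2
      show ψ i j' x / S x = 0
      rw [h0, zero_div]
    exact Set.disjoint_left.1 (hV4 i j j' hjj) ((hψ3 i j x).1 h1) ((hψ3 i j' x).1 h2)
  · intro x
    have : ∑ i, ∑ j, ψ i j x / S x = S x / S x := by
      simp only [S, Finset.sum_div]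
    show ∑ i, ∑ j, ψ i j x / S x = 1
    rw [this, div_self (hSpos x).ne']

end Pool.Agent.Helper220.MG.JT3
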