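import Pool.Agent.Helper220.MG.CoreT

set_option autoImplicit false

namespace Pool.Agent.Helper220.MG.JTW1

open Set Topology Filter TopologicalSpace

theorem out_eq_out {u v : Fin 3 → ℝ} (h : out u = out v) : u = v ∨ u = -v := by
  have hij : ∀ i j, u i * u j = v i * v j := fun i j => congrFun h (i, j)
  by_cases hu : ∃ i, u i ≠ 0
  · obtain ⟨i, hi⟩ := hu
    have h1 : u i = v i ∨ u i = - v i := by
      have := hij i i
      exact mul_self_eq_mul_self_iff.mp this
    rcases h1 with h1 | h1
    · left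
      funext j
      have := hij i j
      rw [← h1] at this
      exact mul_left_cancel₀ hi this
    · right
      funext j
      have h2 := hij i j
      have h3 : v i = - u i := by linarith
      rw [h3] at h2
      have h4 : u i * u j = u i * (-v j) := by linarith
      exact mul_left_cancel₀ hi h4
  · push Not at hu
    left
    funext j
    have := hij j j
    rw [hu j] at this ⊢
    have h2 : v j * v j = 0 := by linarith
    exact (mul_self_eq_zero.mp h2).symm

theorem continuous_out : Continuous out := by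
  unfold out
  fun_prop

theorem abs_le_of_out_eq {v y : Fin 3 → ℝ} (h : out y = out v) (hy : ∑ i, y i ^ 2 ≤ 1) (i : Fin 3) :
    v i ∈ Icc (-1 : ℝ) 1 := by
  have h1 : y i * y i = v i * v i := congrFun h (i, i)
  have h2 : y i ^ 2 ≤ ∑ i, y i ^ 2 :=
    Finset.single_le_sum (f := fun i => y i ^ 2) (fun j _ => sq_nonneg _) (Finset.mem_univ i)
  have h3 : v i ^ 2 ≤ 1 := by nlinarith
  have h4 := abs_le.mp ((sq_le_one_iff_abs_le_one (v i)).mp h3)
  exact ⟨h4.1, h4.2⟩

theorem isClosed_Dsk : IsClosed Dsk := by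
  have h1 : IsClosed {v : Fin 3 → ℝ | v 0 ^ 2 + v 1 ^ 2 ≤ 1} :=
    isClosed_le (by fun_prop) continuous_const
  have h2 : IsClosed {v : Fin 3 → ℝ | v 2 = 0} :=
    isClosed_eq (by fun_prop) continuous_const
  exact h1.inter h2

theorem Dsk_bound {v : Fin 3 → ℝ} (hv : v ∈ Dsk) (i : Fin 3) : v i ∈ Icc (-1 : ℝ) 1 := by
  obtain ⟨h1, h2⟩ := hv
  have h0 : v 0 ^ 2 ≤ 1 := by nlinarith [sq_nonneg (v 1)]
  have h11 : v 1 ^ 2 ≤ 1 := by nlinarith [sq_nonneg (v 0)]
  have h22 : v 2 ^ 2 ≤ 1 := by rw [h2]; norm_num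
  have h3 : v i ^ 2 ≤ 1 := by
    fin_cases i
    · exact h0
    · exact h11
    · exact h22
  have h4 := abs_le.mp ((sq_le_one_iff_abs_le_one (v i)).mp h3)
  exact ⟨h4.1, h4.2⟩

/-- the compact box -/
def Box : Set Om := Set.pi univ (fun _ => Set.pi univ (fun _ => Icc (-1 : ℝ) 1))

theorem isCompact_Box : IsCompact Box :=
  isCompact_univ_pi (fun _ => isCompact_univ_pi (fun _ => isCompact_Icc))

theorem isCompact_Xk {G : ℕ → Om → (Fin 3 × Fin 3 → ℝ)} (hG : Tower G) (k : ℕ) :
    IsCompact (Xk G k) := by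
  apply isCompact_Box.of_isClosed_subset
  · have hD : IsClosed {ω : Om | ω 0 ∈ Dsk} := isClosed_Dsk.preimage (continuous_apply 0)
    refine hD.inter ?_
    · apply IsClosed.inter
      · have : {ω : Om | ∀ j < k, out (ω (j + 1)) = G j ω} =
            ⋂ j, ⋂ (_ : j < k), {ω : Om | out (ω (j + 1)) = G j ω} := by
          ext ω; simp
        change IsClosed {ω : Om | ∀ j < k, out (ω (j + 1)) = G j ω}
        rw [this]
        exact isClosed_iInter fun j => isClosed_iInter fun _ =>
          isClosed_eq (continuous_out.comp (continuous_apply (j + 1))) (hG.cont j)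
      · have : {ω : Om | ∀ j, k ≤ j → ω (j + 1) = 0} =
            ⋂ j, ⋂ (_ : k ≤ j), {ω : Om | ω (j + 1) = 0} := by
          ext ω; simp
        change IsClosed {ω : Om | ∀ j, k ≤ j → ω (j + 1) = 0}
        rw [this]
        exact isClosed_iInter fun j => isClosed_iInter fun _ =>
          isClosed_eq (continuous_apply (j + 1)) continuous_const
  · rintro ω ⟨h0, h1, h2⟩
    intro j _ i _
    rcases j with _ | j
    · exact Dsk_bound h0 i
    · by_cases hj : j < k
      · obtain ⟨y, hy1, hy2⟩ := hG.rng j ω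
        exact abs_le_of_out_eq (hy2.trans (h1 j hj).symm) hy1 i
      · have := h2 j (not_lt.mp hj)
        change ω (j + 1) i ∈ Icc (-1 : ℝ) 1
        rw [this]
        simp

theorem isCompact_Xinf {G : ℕ → Om → (Fin 3 × Fin 3 → ℝ)} (hG : Tower G) :
    IsCompact (Xinf G) := by
  apply isCompact_Box.of_isClosed_subset
  · have hD : IsClosed {ω : Om | ω 0 ∈ Dsk} := isClosed_Dsk.preimage (continuous_apply 0)
    refine hD.inter ?_
    · have : {ω : Om | ∀ j, out (ω (j + 1)) = G j ω} =
            ⋂ j, {ω : Om | out (ω (j + 1)) = G j ω} := by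
          ext ω; simp
      change IsClosed {ω : Om | ∀ j, out (ω (j + 1)) = G j ω}
      rw [this]
      exact isClosed_iInter fun j =>
          isClosed_eq (continuous_out.comp (continuous_apply (j + 1))) (hG.cont j)
  · rintro ω ⟨h0, h1⟩
    intro j _ i _
    rcases j with _ | j
    · exact Dsk_bound h0 i
    · obtain ⟨y, hy1, hy2⟩ := hG.rng j ω
      exact abs_le_of_out_eq (hy2.trans (h1 j).symm) hy1 i

/-- every point of a finite stage lifts to the next stage -/
theorem exists_lift {G : ℕ → Om → (Fin 3 × Fin 3 → ℝ)} (hG : Tower G) (k : ℕ) (ω : Om)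
    (hω : ω ∈ Xk G k) : ∃ ω' ∈ Xk G (k + 1), ∀ j ≤ k, ω' j = ω j := by
  obtain ⟨h0, h1, h2⟩ := hω
  obtain ⟨y, -, hy2⟩ := hG.rng k ω
  have hagree : ∀ j ≤ k, Function.update ω (k + 1) y j = ω j := by
    intro j hj
    exact Function.update_of_ne (by omega) _ _
  refine ⟨Function.update ω (k + 1) y, ⟨?_, ?_, ?_⟩, hagree⟩
  · rw [hagree 0 (Nat.zero_le _)]; exact h0
  · intro j hj
    rw [hG.dep j (Function.update ω (k + 1) y) ω (fun i hi => hagree i (by omega))]
    rcases Nat.lt_succ_iff_lt_or_eq.mp hj with h | h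
    · rw [hagree (j + 1) (by omega)]
      exact h1 j h
    · subst h
      rw [Function.update_self]
      exact hy2
  · intro j hj
    rw [Function.update_of_ne (by omega)]
    exact h2 j (by omega)

/-- every point of a finite stage lifts to the limit -/
theorem exists_lift_inf {G : ℕ → Om → (Fin 3 × Fin 3 → ℝ)} (hG : Tower G) (k : ℕ) (ω : Om)
    (hω : ω ∈ Xk G k) : ∃ ω' ∈ Xinf G, ∀ j ≤ k, ω' j = ω j := by
  choose! L hL1 hL2 using fun (m : ℕ) (ω : Om) (h : ω ∈ Xk G m) => exists_lift hG m ω h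
  -- sequence of lifts
  let s : ℕ → Om := fun n => Nat.rec ω (fun n w => L (k + n) w) n
  have hs0 : s 0 = ω := rfl
  have hsS : ∀ n, s (n + 1) = L (k + n) (s n) := fun n => rfl
  have hmem : ∀ n, s n ∈ Xk G (k + n) := by
    intro n
    induction n with
    | zero => simpa [hs0] using hω
    | succ n ih =>
      rw [hsS]
      exact hL1 (k + n) (s n) ih
  have hstep : ∀ n, ∀ j ≤ k + n, s (n + 1) j = s n j := by
    intro n j hj
    rw [hsS]
    exact hL2 (k + n) (s n) (hmem n) j hj
  have hag : ∀ n m, n ≤ m → ∀ j ≤ k + n, s m j = s n j := by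
    intro n m hnm
    induction m, hnm using Nat.le_induction with
    | base => intro j _; rfl
    | succ m hm ih =>
      intro j hj
      rw [hstep m j (by omega), ih j hj]
  refine ⟨fun j => s j j, ⟨?_, ?_⟩, ?_⟩
  · change s 0 0 ∈ Dsk
    rw [hs0]; exact hω.1
  · intro j
    have hdep : G j (fun i => s i i) = G j (s (j + 1)) := by
      apply hG.dep
      intro i hi
      exact (hag i (j + 1) (by omega) i (by omega)).symm
    rw [hdep]
    exact (hmem (j + 1)).2.1 j (by omega)
  · intro j hj
    change s j j = ω j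
    have := hag 0 j (Nat.zero_le _) j (by omega)
    rw [this, hs0]

/-- truncation maps the limit onto the finite stages -/
theorem trunc_mem {G : ℕ → Om → (Fin 3 × Fin 3 → ℝ)} (hG : Tower G) (k : ℕ) (ω : Om)
    (hω : ω ∈ Xinf G) : (fun j => if j ≤ k then ω j else 0) ∈ Xk G k := by
  obtain ⟨h0, h1⟩ := hω
  refine ⟨?_, ?_, ?_⟩
  · simpa using h0
  · intro j hj
    rw [hG.dep j (fun j => if j ≤ k then ω j else 0) ω (fun i hi => by
      rw [if_pos (by omega)])]
    change out (if j + 1 ≤ k then ω (j + 1) else 0) = G j ω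
    rw [if_pos (by omega)]
    exact h1 j
  · intro j hj
    change (if j + 1 ≤ k then ω (j + 1) else 0) = 0
    rw [if_neg (by omega)]

end Pool.Agent.Helper220.MG.JTW1
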