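import Pool.Agent.Helper220.MG.CoreT

set_option autoImplicit false

namespace Pool.Agent.Helper220.MG.JTW2

open Set Topology Filter TopologicalSpace

theorem zc_Xk {G : ℕ → Om → (Fin 3 × Fin 3 → ℝ)} (hG : Tower G)
    (out_eq_out : ∀ {u v : Fin 3 → ℝ}, out u = out v → u = v ∨ u = -v)
    (isCompact_Xk : ∀ k, IsCompact (Xk G k))
    (zc_plane : ZC 3 (EuclideanSpace ℝ (Fin 2)))
    (zc_emb : ∀ {X Y : Type} [TopologicalSpace X] [TopologicalSpace Y] (f : X → Y),
      IsEmbedding f → ZC 3 Y → ZC 3 X)
    (zc_sum : ∀ {X : Type} [TopologicalSpace X] [SecondCountableTopology X]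
      [MetrizableSpace X] (F : ℕ → Set X), (∀ i, IsClosed (F i)) → (∀ x, ∃ i, x ∈ F i) →
      (∀ i, ZC 3 ↥(F i)) → ZC 3 X) (k : ℕ) :
    ZC 3 ↥(Xk G k) := by
  induction k with
  | zero =>
    let f : ↥(Xk G 0) → EuclideanSpace ℝ (Fin 2) :=
      fun ω => WithLp.toLp 2 (fun i : Fin 2 => ω.1 0 (Fin.castSucc i))
    have hcont : Continuous f := by
      apply (PiLp.continuous_toLp 2 (fun _ : Fin 2 => ℝ)).comp
      exact continuous_pi fun i =>
        (continuous_apply (Fin.castSucc i)).comp ((continuous_apply 0).comp continuous_subtype_val)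
    have hinj : Function.Injective f := by
      intro ω ν h
      have h1 : ∀ i : Fin 2, ω.1 0 (Fin.castSucc i) = ν.1 0 (Fin.castSucc i) := by
        intro i
        have := congrArg (fun z : EuclideanSpace ℝ (Fin 2) => z i) h
        exact this
      apply Subtype.ext
      funext j
      cases j with
      | zero =>
        funext i
        fin_cases i
        · exact h1 0
        · exact h1 1
        · exact (ω.2.1.2).trans (ν.2.1.2).symm
      | succ j =>
        rw [ω.2.2.2 j (Nat.zero_le _), ν.2.2.2 j (Nat.zero_le _)]
    have : CompactSpace ↥(Xk G 0) := isCompact_iff_compactSpace.1 (isCompact_Xk 0)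
    exact zc_emb f (hcont.isClosedEmbedding hinj).isEmbedding zc_plane
  | succ k ih =>
    have : CompactSpace ↥(Xk G (k + 1)) := isCompact_iff_compactSpace.1 (isCompact_Xk (k + 1))
    have : MetrizableSpace ↥(Xk G (k + 1)) :=
      TopologicalSpace.metrizableSpace_of_t3_secondCountable _
    let sg : ℕ → ℝ := fun n => if n % 2 = 0 then 1 else -1
    let ix : ℕ → Fin 3 := fun n => Fin.ofNat 3 (n / 2)
    let F : ℕ → Set ↥(Xk G (k + 1)) :=
      fun n => {x | ∀ l, |x.1 (k + 1) l| ≤ sg n * x.1 (k + 1) (ix n)}
    have hev : ∀ l : Fin 3, Continuous fun x : ↥(Xk G (k + 1)) => x.1 (k + 1) l := fun l =>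
      (continuous_apply l).comp ((continuous_apply (k + 1)).comp continuous_subtype_val)
    have hF : ∀ n, IsClosed (F n) := by
      intro n
      have : F n = ⋂ l, {x | |x.1 (k + 1) l| ≤ sg n * x.1 (k + 1) (ix n)} := by
        ext x; simp [F]
      rw [this]
      exact isClosed_iInter fun l =>
        isClosed_le ((hev l).abs) (continuous_const.mul (hev (ix n)))
    refine zc_sum F hF ?_ ?_
    · intro x
      obtain ⟨i, hi⟩ := Finite.exists_max (fun l : Fin 3 => |x.1 (k + 1) l|)
      have hix : ∀ m : ℕ, m < 2 → ix (2 * (i : ℕ) + m) = i := by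
        intro m hm
        have h1 : (2 * (i : ℕ) + m) / 2 = i := by omega
        change Fin.ofNat 3 ((2 * (i : ℕ) + m) / 2) = i
        rw [h1]
        apply Fin.ext
        change (i : ℕ) % 3 = i
        exact Nat.mod_eq_of_lt i.2
      by_cases h0 : 0 ≤ x.1 (k + 1) i
      · refine ⟨2 * (i : ℕ) + 0, fun l => ?_⟩
        have hs : sg (2 * (i : ℕ) + 0) = 1 := if_pos (by omega)
        rw [hs, hix 0 (by norm_num), one_mul, ← abs_of_nonneg h0]
        exact hi l
      · refine ⟨2 * (i : ℕ) + 1, fun l => ?_⟩
        have hs : sg (2 * (i : ℕ) + 1) = -1 := if_neg (by omega)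
        rw [hs, hix 1 (by norm_num), neg_one_mul, ← abs_of_neg (not_le.1 h0)]
        exact hi l
    · intro n
      have hmem : ∀ ω : Om, ω ∈ Xk G (k + 1) → Function.update ω (k + 1) 0 ∈ Xk G k := by
        intro ω hω
        have hne : ∀ j, j ≠ k + 1 → Function.update ω (k + 1) 0 j = ω j := fun j hj =>
          Function.update_of_ne hj _ _
        refine ⟨?_, ?_, ?_⟩
        · rw [hne 0 (by omega)]; exact hω.1
        · intro j hj
          rw [hne (j + 1) (by omega), hω.2.1 j (by omega)]
          apply hG.dep
          intro i hi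
          exact (hne i (by omega)).symm
        · intro j hj
          rcases Nat.eq_or_lt_of_le hj with h | h
          · subst h
            exact Function.update_self _ _ _
          · rw [hne (j + 1) (by omega)]
            exact hω.2.2 j h
      let g : ↥(F n) → ↥(Xk G k) := fun x => ⟨Function.update x.1.1 (k + 1) 0, hmem _ x.1.2⟩
      have hg : Continuous g := by
        apply Continuous.subtype_mk
        exact (continuous_subtype_val.comp continuous_subtype_val).update (k + 1) continuous_const
      have hinj : Function.Injective g := by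
        intro x y h
        have h1 : Function.update x.1.1 (k + 1) 0 = Function.update y.1.1 (k + 1) 0 :=
          congrArg Subtype.val h
        have h2 : ∀ i, i ≠ k + 1 → x.1.1 i = y.1.1 i := by
          intro i hi
          have := congrFun h1 i
          rwa [Function.update_of_ne hi, Function.update_of_ne hi] at this
        have h3 : G k x.1.1 = G k y.1.1 := hG.dep k _ _ fun j hj => h2 j (by omega)
        have h4 : out (x.1.1 (k + 1)) = out (y.1.1 (k + 1)) := by
          rw [x.1.2.2.1 k (by omega), y.1.2.2.1 k (by omega), h3]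
        have h5 : x.1.1 (k + 1) = y.1.1 (k + 1) := by
          rcases out_eq_out h4 with h5 | h5
          · exact h5
          · have hx := x.2
            have hy := y.2
            have e1 : ∀ l, |x.1.1 (k + 1) l| ≤ sg n * x.1.1 (k + 1) (ix n) := hx
            have e2 : ∀ l, |y.1.1 (k + 1) l| ≤ sg n * y.1.1 (k + 1) (ix n) := hy
            have e3 : x.1.1 (k + 1) (ix n) = - y.1.1 (k + 1) (ix n) := by rw [h5]; rfl
            have e4 : sg n * y.1.1 (k + 1) (ix n) = 0 := by
              have a1 := (abs_nonneg _).trans (e1 0)
              have a2 := (abs_nonneg _).trans (e2 0)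
              rw [e3] at a1
              nlinarith
            funext l
            have b1 := e1 l
            have b2 := e2 l
            rw [e3] at b1
            have b3 : |x.1.1 (k + 1) l| ≤ 0 := by
              have : sg n * -y.1.1 (k + 1) (ix n) = -(sg n * y.1.1 (k + 1) (ix n)) := by ring
              rw [this, e4] at b1
              simpa using b1
            rw [e4] at b2
            rw [abs_nonpos_iff.1 b3, abs_nonpos_iff.1 b2]
        apply Subtype.ext
        apply Subtype.ext
        funext i
        by_cases hi : i = k + 1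
        · rw [hi]; exact h5
        · exact h2 i hi
      have : CompactSpace ↥(F n) := isCompact_iff_compactSpace.1 (hF n).isCompact
      exact zc_emb g (hg.isClosedEmbedding hinj).isEmbedding ih

end Pool.Agent.Helper220.MG.JTW2
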