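import Pool.Agent.Helper220.MG.CoreT

set_option autoImplicit false

namespace Pool.Agent.Helper220.MG.JTW3

open Set Topology Filter TopologicalSpace

theorem fc_Xinf {G : ℕ → Om → (Fin 3 × Fin 3 → ℝ)}
    (isCompact_Xk : ∀ k, IsCompact (Xk G k)) (isCompact_Xinf : IsCompact (Xinf G))
    (exists_lift_inf : ∀ (k : ℕ) (ω : Om), ω ∈ Xk G k → ∃ ω' ∈ Xinf G, ∀ j ≤ k, ω' j = ω j)
    (trunc_mem : ∀ (k : ℕ) (ω : Om), ω ∈ Xinf G → (fun j => if j ≤ k then ω j else 0) ∈ Xk G k)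
    (fc_Xk : ∀ k, FC 3 ↥(Xk G k)) : FC 3 ↥(Xinf G) := by
  intro n U hUo hUc
  let V : Fin n → ℕ → Set Om := fun j k => ⋃₀ {O : Set Om | IsOpen O ∧
    (∀ ω ∈ O, ∀ ω' : Om, (∀ i ≤ k, ω i = ω' i) → ω' ∈ O) ∧ ∀ (ω : Om) (h : ω ∈ Xinf G), ω ∈ O → (⟨ω, h⟩ : ↥(Xinf G)) ∈ U j}
  have hVo : ∀ j k, IsOpen (V j k) := fun j k => isOpen_sUnion (fun O hO => hO.1)
  have hVd : ∀ j k, ∀ ω ∈ V j k, ∀ ω' : Om, (∀ i ≤ k, ω i = ω' i) → ω' ∈ V j k := by
    rintro j k ω ⟨O, hO, hω⟩ ω' h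
    exact ⟨O, hO, hO.2.1 ω hω ω' h⟩
  have hVU : ∀ j k (ω : Om) (h : ω ∈ Xinf G), ω ∈ V j k → (⟨ω, h⟩ : ↥(Xinf G)) ∈ U j := by
    rintro j k ω h ⟨O, hO, hω⟩
    exact hO.2.2 ω h hω
  have hVm : ∀ j k k', k ≤ k' → V j k ⊆ V j k' := by
    rintro j k k' hkk ω ⟨O, hO, hω⟩
    exact ⟨O, ⟨hO.1, fun ω hω ω' h => hO.2.1 ω hω ω' (fun i hi => h i (hi.trans hkk)), hO.2.2⟩, hω⟩
  obtain ⟨k, hk⟩ : ∃ k, Xinf G ⊆ ⋃ j, V j k := by
    apply isCompact_Xinf.elim_directed_cover (fun k => ⋃ j, V j k)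
    · intro k
      exact isOpen_iUnion (fun j => hVo j k)
    · intro ω hω
      have h1 : (⟨ω, hω⟩ : ↥(Xinf G)) ∈ ⋃ j, U j := by rw [hUc]; trivial
      obtain ⟨j, hj⟩ := mem_iUnion.mp h1
      obtain ⟨Ω, hΩo, hΩ⟩ := isOpen_induced_iff.mp (hUo j)
      have h2 : ω ∈ Ω := by
        have : (⟨ω, hω⟩ : ↥(Xinf G)) ∈ Subtype.val ⁻¹' Ω := by rw [hΩ]; exact hj
        exact this
      obtain ⟨I, u, hu, hIu⟩ := isOpen_pi_iff.mp hΩo ω h2
      refine mem_iUnion.mpr ⟨I.sup id, mem_iUnion.mpr ⟨j, (I : Set ℕ).pi u, ⟨?_, ?_, ?_⟩, ?_⟩⟩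
      · exact isOpen_set_pi I.finite_toSet (fun i hi => (hu i hi).1)
      · intro ω1 h3 ω2 h4 i hi
        rw [← h4 i (Finset.le_sup (f := id) hi)]
        exact h3 i hi
      · intro ω1 h3 h4
        have : (⟨ω1, h3⟩ : ↥(Xinf G)) ∈ Subtype.val ⁻¹' Ω := hIu h4
        rw [hΩ] at this
        exact this
      · intro i hi
        exact (hu i hi).2
    · intro k k'
      refine ⟨max k k', ?_, ?_⟩
      · exact iUnion_mono (fun j => hVm j _ _ (le_max_left _ _))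
      · exact iUnion_mono (fun j => hVm j _ _ (le_max_right _ _))
  obtain ⟨φ, h1, h2, h3, h4, h5⟩ := fc_Xk k n (fun j => {x | x.1 ∈ V j k})
    (fun j => (hVo j k).preimage continuous_subtype_val) (by
      rw [eq_univ_iff_forall]
      intro x
      obtain ⟨ω', hω', hag⟩ := exists_lift_inf k x.1 x.2
      obtain ⟨j, hj⟩ := mem_iUnion.mp (hk hω')
      exact mem_iUnion.mpr ⟨j, hVd j k ω' hj x.1 hag⟩)
  let τ : ↥(Xinf G) → ↥(Xk G k) := fun x => ⟨fun j => if j ≤ k then x.1 j else 0, trunc_mem k x.1 x.2⟩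
  have hτ : Continuous τ := by
    apply Continuous.subtype_mk
    apply continuous_pi
    intro j
    by_cases hj : j ≤ k
    · simp only [hj, if_true]
      exact (continuous_apply j).comp continuous_subtype_val
    · simp only [hj, if_false]
      exact continuous_const
  refine ⟨fun i j x => φ i j (τ x), fun i j => (h1 i j).comp hτ, fun i j x => h2 i j _, ?_, fun i j j' x => h4 i j j' _,
    fun x => h5 _⟩
  intro i j x hx
  have h6 := h3 i j _ hx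
  have h7 : x.1 ∈ V j k := by
    apply hVd j k _ h6
    intro l hl
    show (if l ≤ k then x.1 l else 0) = x.1 l
    rw [if_pos hl]
  exact hVU j k x.1 x.2 h7

end Pool.Agent.Helper220.MG.JTW3
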