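import Pool.Agent.Helper220.MG.CoreT

set_option autoImplicit false

namespace Pool.Agent.Helper220.MG.JTW4

open Set Topology Filter TopologicalSpace

/-- norm along one step of the tower -/
theorem norm_step {G : ℕ → Om → (Fin 3 × Fin 3 → ℝ)} (hG : Tower G)
    (out_eq_out : ∀ {u v : Fin 3 → ℝ}, out u = out v → u = v ∨ u = -v) (k : ℕ)
    (isCompact_Xk : IsCompact (Xk G (k + 1)))
    (exists_lift : ∀ (ω : Om), ω ∈ Xk G k → ∃ ω' ∈ Xk G (k + 1), ∀ j ≤ k, ω' j = ω j)
    (m : ℕ) (F : Om → ℂ) (hF : ContinuousOn F (Xk G (k + 1)))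
    (hF1 : ∀ ω ∈ Xk G (k + 1), ‖F ω‖ = 1)
    (hF2 : ∀ ω ∈ Xk G (k + 1), ‖zz ω‖ = 1 → F ω = zz ω ^ m) :
    ∃ F' : Om → ℂ, ContinuousOn F' (Xk G k) ∧ (∀ ω ∈ Xk G k, ‖F' ω‖ = 1) ∧
      ∀ ω ∈ Xk G k, ‖zz ω‖ = 1 → F' ω = zz ω ^ (2 * m) := by
  classical
  set A := Xk G (k + 1) with hA
  set B := Xk G k with hB
  have hAcl : IsClosed A := isCompact_Xk.isClosed
  set σ : Om → Om := fun ω => Function.update ω (k + 1) (-ω (k + 1)) with hσ
  set π : Om → Om := fun ω => Function.update ω (k + 1) 0 with hπ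
  have hσc : Continuous σ := continuous_id.update (k + 1) (continuous_apply (k + 1)).neg
  have hπc : Continuous π := continuous_id.update (k + 1) continuous_const
  have hσne : ∀ ω j, j ≠ k + 1 → σ ω j = ω j := fun ω j hj => Function.update_of_ne hj _ _
  have hπne : ∀ ω j, j ≠ k + 1 → π ω j = ω j := fun ω j hj => Function.update_of_ne hj _ _
  have hσk : ∀ ω, σ ω (k + 1) = -ω (k + 1) := fun ω => Function.update_self _ _ _
  have hπk : ∀ ω, π ω (k + 1) = 0 := fun ω => Function.update_self _ _ _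
  have hσσ : ∀ ω, σ (σ ω) = ω := by
    intro ω
    funext j
    by_cases hj : j = k + 1
    · subst hj
      rw [hσk, hσk, neg_neg]
    · rw [hσne _ _ hj, hσne _ _ hj]
  have outneg : ∀ y : Fin 3 → ℝ, out (-y) = out y := by
    intro y
    funext p
    simp [out]
  have hσA : ∀ ω ∈ A, σ ω ∈ A := by
    rintro ω ⟨h0, h1, h2⟩
    refine ⟨?_, ?_, ?_⟩
    · rw [hσne ω 0 (by omega)]; exact h0
    · intro j hj
      rw [← hG.dep j ω (σ ω) (fun j' hj' => (hσne ω j' (by omega)).symm)]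
      by_cases hjk : j + 1 = k + 1
      · rw [hjk, hσk, outneg, ← hjk]
        exact h1 j hj
      · rw [hσne ω _ hjk]
        exact h1 j hj
    · intro j hj
      rw [hσne ω _ (by omega)]
      exact h2 j hj
  have hπA : ∀ ω ∈ A, π ω ∈ B := by
    rintro ω ⟨h0, h1, h2⟩
    refine ⟨?_, ?_, ?_⟩
    · rw [hπne ω 0 (by omega)]; exact h0
    · intro j hj
      rw [← hG.dep j ω (π ω) (fun j' hj' => (hπne ω j' (by omega)).symm), hπne ω _ (by omega)]
      exact h1 j (by omega)
    · intro j hj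
      by_cases hjk : j + 1 = k + 1
      · rw [hjk, hπk]
      · rw [hπne ω _ hjk]
        exact h2 j (by omega)
  have hlift : ∀ ω ∈ B, ∃ a ∈ A, π a = ω := by
    intro ω hω
    obtain ⟨a, ha, hj⟩ := exists_lift ω hω
    refine ⟨a, ha, ?_⟩
    funext j
    rcases lt_trichotomy j (k + 1) with h | h | h
    · rw [hπne a j (by omega)]
      exact hj j (by omega)
    · subst h
      rw [hπk]
      exact (hω.2.2 k le_rfl).symm
    · rw [hπne a j (by omega)]
      obtain ⟨i, rfl⟩ : ∃ i, j = i + 1 := ⟨j - 1, by omega⟩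
      rw [ha.2.2 i (by omega), hω.2.2 i (by omega)]
  set N : Om → ℂ := fun ω => F ω * F (σ ω) with hN
  have hNc : ContinuousOn N A := hF.mul (hF.comp hσc.continuousOn hσA)
  have hNeq : ∀ ω ∈ A, ∀ ω' ∈ A, π ω = π ω' → N ω = N ω' := by
    intro ω hω ω' hω' h
    have hne : ∀ j, j ≠ k + 1 → ω j = ω' j := by
      intro j hj
      rw [← hπne ω j hj, ← hπne ω' j hj, h]
    have hG1 : G k ω = G k ω' := hG.dep k ω ω' (fun j hj => hne j (by omega))
    have ho : out (ω (k + 1)) = out (ω' (k + 1)) := by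
      rw [hω.2.1 k (by omega), hω'.2.1 k (by omega), hG1]
    rcases out_eq_out ho with h1 | h1
    · have : ω = ω' := by
        funext j
        by_cases hj : j = k + 1
        · rw [hj]; exact h1
        · exact hne j hj
      rw [this]
    · have : ω = σ ω' := by
        funext j
        by_cases hj : j = k + 1
        · rw [hj, hσk]; exact h1
        · rw [hσne ω' j hj]; exact hne j hj
      simp only [hN]
      rw [this, hσσ, mul_comm]
  set F' : Om → ℂ := fun ω => if h : ω ∈ B then N (Classical.choose (hlift ω h)) else 0 with hF'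
  have hF'π : ∀ a ∈ A, F' (π a) = N a := by
    intro a ha
    have hb := hπA a ha
    have hs := Classical.choose_spec (hlift (π a) hb)
    simp only [hF']
    rw [dif_pos hb]
    exact hNeq _ hs.1 a ha hs.2
  refine ⟨F', ?_, ?_, ?_⟩
  · rw [continuousOn_iff_isClosed]
    intro t ht
    have hcl : IsClosed (A ∩ N ⁻¹' t) := hNc.preimage_isClosed_of_isClosed hAcl ht
    have hcomp : IsCompact (A ∩ N ⁻¹' t) := isCompact_Xk.of_isClosed_subset hcl inter_subset_left
    refine ⟨π '' (A ∩ N ⁻¹' t), (hcomp.image hπc).isClosed, ?_⟩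
    ext ω
    constructor
    · rintro ⟨h1, h2⟩
      obtain ⟨a, ha, rfl⟩ := hlift ω h2
      refine ⟨⟨a, ⟨ha, ?_⟩, rfl⟩, h2⟩
      change F' (π a) ∈ t at h1
      rwa [hF'π a ha] at h1
    · rintro ⟨⟨a, ⟨ha, hat⟩, rfl⟩, h2⟩
      refine ⟨?_, h2⟩
      change F' (π a) ∈ t
      rw [hF'π a ha]
      exact hat
  · intro ω hω
    obtain ⟨a, ha, rfl⟩ := hlift ω hω
    rw [hF'π a ha]
    simp only [hN]
    rw [norm_mul, hF1 a ha, hF1 _ (hσA a ha), mul_one]
  · intro ω hω hz
    obtain ⟨a, ha, rfl⟩ := hlift ω hω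
    have hz1 : zz (π a) = zz a := by
      unfold zz
      rw [hπne a 0 (by omega)]
    have hz2 : zz (σ a) = zz a := by
      unfold zz
      rw [hσne a 0 (by omega)]
    rw [hz1] at hz ⊢
    rw [hF'π a ha]
    simp only [hN]
    rw [hF2 a ha hz, hF2 _ (hσA a ha) (by rw [hz2]; exact hz), hz2, ← pow_add, two_mul]

end Pool.Agent.Helper220.MG.JTW4
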