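import Pool.Agent.Helper220.MG.CoreT

set_option autoImplicit false

namespace Pool.Agent.Helper220.MG.JTW5

open Set Topology Filter TopologicalSpace

/-- the cut-off retraction -/
theorem TW5_lam {ε : ℝ} (hε : 0 < ε)
    {r : (Fin 3 × Fin 3 → ℝ) → (Fin 3 × Fin 3 → ℝ)}
    (hr : ContinuousOn r (Metric.cthickening ε PP))
    (hrL : MapsTo r (Metric.cthickening ε PP) PP) (hne : (PP).Nonempty) :
    ∃ L : (Fin 3 × Fin 3 → ℝ) → (Fin 3 × Fin 3 → ℝ), Continuous L ∧
      (∀ M, ∃ y : Fin 3 → ℝ, ∑ i, y i ^ 2 ≤ 1 ∧ out y = L M) ∧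
      (∀ M, Metric.infDist M PP ≤ ε / 2 → L M = r M) := by
  classical
  have hmem : ∀ M, M ∈ Metric.cthickening ε PP ↔ Metric.infDist M PP ≤ ε := by
    intro M
    rw [Metric.mem_cthickening_iff, Metric.infDist]
    exact (ENNReal.le_ofReal_iff_toReal_le (Metric.infEDist_ne_top hne) hε.le)
  set lam : (Fin 3 × Fin 3 → ℝ) → ℝ := fun M => max 0 (min 1 (2 - 2 * Metric.infDist M PP / ε))
    with hlam
  have hlamc : Continuous lam := by
    have : Continuous fun M : Fin 3 × Fin 3 → ℝ => Metric.infDist M PP :=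
      Metric.continuous_infDist_pt PP
    rw [hlam]
    fun_prop
  have hlam0 : ∀ M, 0 ≤ lam M := fun M => le_max_left _ _
  have hlam1 : ∀ M, lam M ≤ 1 := fun M => max_le zero_le_one (min_le_left _ _)
  have hlamhalf : ∀ M, Metric.infDist M PP ≤ ε / 2 → lam M = 1 := by
    intro M h
    have h1 : 1 ≤ 2 - 2 * Metric.infDist M PP / ε := by
      have : 2 * Metric.infDist M PP / ε ≤ 1 := by
        rw [div_le_one hε]; linarith
      linarith
    simp only [hlam]
    rw [min_eq_left h1, max_eq_right zero_le_one]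
  have hlamout : ∀ M, ε ≤ Metric.infDist M PP → lam M = 0 := by
    intro M h
    have h1 : 2 - 2 * Metric.infDist M PP / ε ≤ 0 := by
      have : 2 ≤ 2 * Metric.infDist M PP / ε := by
        rw [le_div_iff₀ hε]; linarith
      linarith
    simp only [hlam]
    rw [max_eq_left]
    exact (min_le_right _ _).trans h1
  refine ⟨fun M => if M ∈ Metric.cthickening ε PP then lam M • r M else 0, ?_, ?_, ?_⟩
  · rw [← continuousOn_univ]
    have hU : (univ : Set (Fin 3 × Fin 3 → ℝ)) =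
        Metric.cthickening ε PP ∪ {M | ε ≤ Metric.infDist M PP} := by
      ext M
      simp only [mem_univ, mem_union, hmem, true_iff]
      exact le_total _ _
    rw [hU]
    apply ContinuousOn.union_of_isClosed
    · apply (hlamc.continuousOn.smul hr).congr
      intro M hM
      simp only [if_pos hM]
      rfl
    · apply (continuousOn_const (c := (0 : Fin 3 × Fin 3 → ℝ))).congr
      intro M hM
      have hM' : ε ≤ Metric.infDist M PP := hM
      simp only
      split_ifs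
      · rw [hlamout M hM', zero_smul]
      · rfl
    · exact Metric.isClosed_cthickening
    · exact isClosed_le continuous_const (Metric.continuous_infDist_pt PP)
  · intro M
    by_cases hM : M ∈ Metric.cthickening ε PP
    · obtain ⟨u, hu, hu2⟩ := hrL hM
      refine ⟨fun i => Real.sqrt (lam M) * u i, ?_, ?_⟩
      · simp only [mul_pow, Real.sq_sqrt (hlam0 M)]
        rw [← Finset.mul_sum]
        have : ∑ i, u i ^ 2 = 1 := hu
        rw [this, mul_one]
        exact hlam1 M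
      · simp only [if_pos hM]
        rw [← hu2]
        funext p
        simp only [out, Pi.smul_apply, smul_eq_mul]
        calc Real.sqrt (lam M) * u p.1 * (Real.sqrt (lam M) * u p.2)
            = (Real.sqrt (lam M) * Real.sqrt (lam M)) * (u p.1 * u p.2) := by ring
          _ = _ := by rw [Real.mul_self_sqrt (hlam0 M)]
    · refine ⟨0, by simp, ?_⟩
      simp only [if_neg hM]
      funext p
      simp [out]
  · intro M hM
    have hM' : M ∈ Metric.cthickening ε PP := by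
      rw [hmem]; linarith
    simp only [if_pos hM']
    rw [hlamhalf M hM, one_smul]

theorem TW5_countable : Countable (MvPolynomial (ℕ × Fin 3) ℚ) := by
  rw [← Cardinal.mk_le_aleph0_iff]
  refine (MvPolynomial.cardinalMk_le_max (σ := ℕ × Fin 3) (R := ℚ)).trans ?_
  simp

theorem TW5_aeval_cont (P : MvPolynomial (ℕ × Fin 3) ℚ) :
    Continuous (fun ω : Om => MvPolynomial.aeval (fun p : ℕ × Fin 3 => ω p.1 p.2) P) := by
  have : (fun ω : Om => MvPolynomial.aeval (fun p : ℕ × Fin 3 => ω p.1 p.2) P) =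
      fun ω : Om => ∑ d ∈ P.support, algebraMap ℚ ℝ (MvPolynomial.coeff d P) *
        ∏ i ∈ d.support, (ω i.1 i.2) ^ d i := by
    funext ω
    rw [MvPolynomial.aeval_def, MvPolynomial.eval₂_eq]
  rw [this]
  fun_prop

theorem TW5_aeval_dep (P : MvPolynomial (ℕ × Fin 3) ℚ) (k : ℕ) (hP : ∀ v ∈ P.vars, v.1 ≤ k)
    (ω ω' : Om) (h : ∀ j ≤ k, ω j = ω' j) :
    MvPolynomial.aeval (fun p : ℕ × Fin 3 => ω p.1 p.2) P =
      MvPolynomial.aeval (fun p : ℕ × Fin 3 => ω' p.1 p.2) P := by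
  rw [MvPolynomial.aeval_def, MvPolynomial.aeval_def]
  apply MvPolynomial.eval₂Hom_congr' rfl _ rfl
  intro v hv _
  rw [h v.1 (hP v hv)]

/-- a tower for which all maps into matrices are approximately lifted -/
theorem exists_tower {ε : ℝ} (hε : 0 < ε)
    {r : (Fin 3 × Fin 3 → ℝ) → (Fin 3 × Fin 3 → ℝ)}
    (hr : ContinuousOn r (Metric.cthickening ε PP))
    (hrL : MapsTo r (Metric.cthickening ε PP) PP) (hrid : ∀ x ∈ PP, r x = x)
    (isCompact_PP : IsCompact PP)
    (den_poly : ∀ (K : Set (ℕ → (Fin 3 → ℝ))), IsCompact K →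
      ∀ (g : (ℕ → (Fin 3 → ℝ)) → ℝ), ContinuousOn g K → ∀ (ε : ℝ), 0 < ε →
      ∃ P : MvPolynomial (ℕ × Fin 3) ℚ, ∀ ω ∈ K,
        |MvPolynomial.aeval (fun p : ℕ × Fin 3 => ω p.1 p.2) P - g ω| < ε)
    (isCompact_Xinf : ∀ {G : ℕ → Om → (Fin 3 × Fin 3 → ℝ)}, Tower G → IsCompact (Xinf G)) :
    ∃ G : ℕ → Om → (Fin 3 × Fin 3 → ℝ), Tower G ∧
      ∀ (g : Om → (Fin 3 × Fin 3 → ℝ)), ContinuousOn g (Xinf G) → ∀ δ : ℝ, 0 < δ →
        ∃ k : ℕ, ∀ ω ∈ Xinf G, g ω ∈ PP →
          ω (k + 1) ∈ sph 3 ∧ dist (out (ω (k + 1))) (g ω) ≤ δ := by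
  classical
  have hne : (PP).Nonempty := by
    refine ⟨out ![1, 0, 0], ![1, 0, 0], ?_, rfl⟩
    simp [sph, Fin.sum_univ_three]
  obtain ⟨L, hLc, hLr, hLh⟩ := TW5_lam hε hr hrL hne
  have := TW5_countable
  obtain ⟨e, he⟩ := exists_surjective_nat (Fin 3 × Fin 3 → MvPolynomial (ℕ × Fin 3) ℚ)
  let Pk : ℕ → (Fin 3 × Fin 3 → MvPolynomial (ℕ × Fin 3) ℚ) := fun k =>
    if ∀ p, ∀ v ∈ (e k.unpair.1 p).vars, v.1 ≤ k then e k.unpair.1 else 0
  have hPk : ∀ k p, ∀ v ∈ (Pk k p).vars, v.1 ≤ k := by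
    intro k p v hv
    simp only [Pk] at hv
    split_ifs at hv with h
    · exact h p v hv
    · simp at hv
  let G : ℕ → Om → (Fin 3 × Fin 3 → ℝ) := fun k ω =>
    L (fun p => MvPolynomial.aeval (fun v : ℕ × Fin 3 => ω v.1 v.2) (Pk k p))
  have hT : Tower G := by
    refine ⟨?_, ?_, ?_⟩
    · intro k
      apply hLc.comp
      apply continuous_pi
      intro p
      exact TW5_aeval_cont _
    · intro k ω ω' h
      simp only [G]
      congr 1
      funext p
      exact TW5_aeval_dep _ k (hPk k p) ω ω' h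
    · intro k ω
      exact hLr _
  refine ⟨G, hT, ?_⟩
  intro g hg δ hδ
  have hK := isCompact_Xinf hT
  have hN : IsCompact (Metric.cthickening ε PP) := isCompact_PP.cthickening
  have hru := hN.uniformContinuousOn_of_continuous hr
  rw [Metric.uniformContinuousOn_iff] at hru
  obtain ⟨η₀, hη₀, hη⟩ := hru δ hδ
  set η : ℝ := min (η₀ / 2) (ε / 2) with hηdef
  have hηpos : 0 < η := lt_min (by linarith) (by linarith)
  have hpoly : ∀ p : Fin 3 × Fin 3, ∃ P : MvPolynomial (ℕ × Fin 3) ℚ, ∀ ω ∈ Xinf G,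
      |MvPolynomial.aeval (fun p : ℕ × Fin 3 => ω p.1 p.2) P - g ω p| < η := by
    intro p
    apply den_poly (Xinf G) hK (fun ω => g ω p) _ η hηpos
    exact (continuous_apply p).comp_continuousOn hg
  choose P hP using hpoly
  obtain ⟨c, hc⟩ := he P
  obtain ⟨B, hB⟩ : ∃ B : ℕ, ∀ p, ∀ v ∈ (P p).vars, v.1 ≤ B := by
    refine ⟨∑ p, ∑ v ∈ (P p).vars, v.1, ?_⟩
    intro p v hv
    have h1 : v.1 ≤ ∑ v ∈ (P p).vars, v.1 :=
      Finset.single_le_sum (f := fun v : ℕ × Fin 3 => v.1) (fun _ _ => Nat.zero_le _) hv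
    have h2 : (∑ v ∈ (P p).vars, v.1) ≤ ∑ p, ∑ v ∈ (P p).vars, v.1 :=
      Finset.single_le_sum (f := fun p => ∑ v ∈ (P p).vars, v.1) (fun _ _ => Nat.zero_le _)
        (Finset.mem_univ p)
    exact h1.trans h2
  refine ⟨Nat.pair c B, ?_⟩
  intro ω hω hgω
  have hPkeq : Pk (Nat.pair c B) = P := by
    simp only [Pk, Nat.unpair_pair]
    rw [hc, if_pos]
    intro p v hv
    exact (hB p v hv).trans (Nat.right_le_pair c B)
  have hG : out (ω (Nat.pair c B + 1)) = G (Nat.pair c B) ω := hω.2 _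
  set Eω : Fin 3 × Fin 3 → ℝ := fun p => MvPolynomial.aeval (fun v : ℕ × Fin 3 => ω v.1 v.2) (P p)
    with hEω
  have hdist : dist Eω (g ω) < η := by
    rw [dist_pi_lt_iff hηpos]
    intro p
    rw [Real.dist_eq]
    exact hP p ω hω
  have hinf : Metric.infDist Eω PP ≤ ε / 2 :=
    (Metric.infDist_le_dist_of_mem hgω).trans (hdist.le.trans (min_le_right _ _))
  have hGr : G (Nat.pair c B) ω = r Eω := by
    simp only [G]
    rw [hPkeq]
    exact hLh _ hinf
  have hEN : Eω ∈ Metric.cthickening ε PP :=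
    Metric.mem_cthickening_of_dist_le Eω (g ω) ε PP hgω
      (hdist.le.trans ((min_le_right _ _).trans (by linarith)))
  have hgN : g ω ∈ Metric.cthickening ε PP :=
    Metric.mem_cthickening_of_dist_le (g ω) (g ω) ε PP hgω (by rw [dist_self]; exact hε.le)
  rw [hGr] at hG
  refine ⟨?_, ?_⟩
  · obtain ⟨u, hu, hu2⟩ := hrL hEN
    have hu' : ∑ i, u i ^ 2 = 1 := hu
    change ∑ i, (ω (Nat.pair c B + 1)) i ^ 2 = 1
    rw [← hu']
    apply Finset.sum_congr rfl
    intro i _
    have := congrFun (hG.trans hu2.symm) (i, i)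
    simp only [out] at this
    rw [pow_two, pow_two, this]
  · rw [hG]
    have h1 : dist (r Eω) (r (g ω)) < δ := by
      apply hη Eω hEN (g ω) hgN
      have : η ≤ η₀ / 2 := min_le_left _ _
      linarith
    rw [hrid (g ω) hgω] at h1
    exact h1.le

end Pool.Agent.Helper220.MG.JTW5
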