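import Pool.Agent.Helper220.MG.CoreT

set_option autoImplicit false

namespace Pool.Agent.Helper220.MG.JTW6

open Set Topology Filter TopologicalSpace

/-- truncation -/
def TW6t (k : ℕ) (ω : Om) : Om := fun j => if j ≤ k then ω j else 0

lemma TW6_zz : Continuous zz := by
  have h : zz = fun ω : Om => ((ω 0 0 : ℝ) : ℂ) + ((ω 0 1 : ℝ) : ℂ) * Complex.I := by
    funext ω
    apply Complex.ext <;> simp [zz]
  rw [h]
  fun_prop

/-- uniform approximation by truncations -/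
lemma TW6_unif {K : Set Om} (hK : IsCompact K) {F : Om → (Fin 2 → ℝ)} (hF : Continuous F) {ε : ℝ}
    (hε : 0 < ε) : ∃ k, ∀ ω ∈ K, dist (F (TW6t k ω)) (F ω) < ε := by
  by_contra hcon
  push Not at hcon
  choose ω hω hd using hcon
  obtain ⟨a, _, φ, hφ, hlim⟩ := hK.tendsto_subseq hω
  have h1 : Tendsto (fun n => F (ω (φ n))) atTop (𝓝 (F a)) := (hF.tendsto a).comp hlim
  have h2 : Tendsto (fun n => TW6t (φ n) (ω (φ n))) atTop (𝓝 a) := by
    rw [tendsto_pi_nhds] at hlim ⊢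
    intro j
    refine (hlim j).congr' ?_
    filter_upwards [eventually_ge_atTop j] with n hn
    have h3 : j ≤ φ n := hn.trans (hφ.id_le n)
    simp [TW6t, h3]
  have h3 : Tendsto (fun n => F (TW6t (φ n) (ω (φ n)))) atTop (𝓝 (F a)) := (hF.tendsto a).comp h2
  have h4 : Tendsto (fun n => dist (F (TW6t (φ n) (ω (φ n)))) (F (ω (φ n)))) atTop (𝓝 0) := by
    have := h3.dist h1
    rwa [dist_self] at this
  obtain ⟨n, hn⟩ := (h4.eventually (gt_mem_nhds hε)).exists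
  exact absurd hn (not_lt.2 (hd (φ n)))

/-- complex number of a vector -/
noncomputable def TW6c (v : Fin 2 → ℝ) : ℂ := ⟨v 0, v 1⟩

lemma TW6c_cont : Continuous TW6c := by
  have h : TW6c = fun v : Fin 2 → ℝ => ((v 0 : ℝ) : ℂ) + ((v 1 : ℝ) : ℂ) * Complex.I := by
    funext ω
    apply Complex.ext <;> simp [TW6c]
  rw [h]
  fun_prop

lemma TW6_sph {v : Fin 2 → ℝ} : v ∈ sph 2 ↔ ‖TW6c v‖ = 1 := by
  have h1 : ‖TW6c v‖ ^ 2 = v 0 ^ 2 + v 1 ^ 2 := by
    rw [← Complex.normSq_eq_norm_sq, Complex.normSq_apply]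
    simp only [TW6c]
    ring
  unfold sph
  rw [Set.mem_ofPred_eq, Fin.sum_univ_two, ← h1]
  exact pow_eq_one_iff_of_nonneg (norm_nonneg _) two_ne_zero

/-- the normalisation is close -/
lemma TW6_close {v u : Fin 2 → ℝ} {ε : ℝ} (hε : 0 < ε) (hε1 : ε ≤ 1 / 4) (hu : u ∈ sph 2)
    (hd : dist v u < ε) : TW6c v ≠ 0 ∧ dist u (fun i => v i / ‖TW6c v‖) ≤ 3 * ε := by
  have hd' := (dist_pi_lt_iff hε).1 hd
  have h0 : |v 0 - u 0| < ε := hd' 0
  have h1 : |v 1 - u 1| < ε := hd' 1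
  have h2 : ‖TW6c v - TW6c u‖ ≤ 2 * ε := by
    have h3 := Complex.norm_le_abs_re_add_abs_im (TW6c v - TW6c u)
    have h4 : (TW6c v - TW6c u).re = v 0 - u 0 := by simp [TW6c]
    have h5 : (TW6c v - TW6c u).im = v 1 - u 1 := by simp [TW6c]
    rw [h4, h5] at h3
    linarith
  have hu1 : ‖TW6c u‖ = 1 := TW6_sph.1 hu
  have h6 : |‖TW6c v‖ - 1| ≤ 2 * ε := by
    rw [← hu1]
    exact (abs_norm_sub_norm_le _ _).trans h2
  have h7 := abs_le.1 h6
  have hpos : 0 < ‖TW6c v‖ := by linarith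
  refine ⟨norm_pos_iff.1 hpos, ?_⟩
  rw [dist_pi_le_iff (by positivity)]
  intro i
  have hvi : |v i| ≤ ‖TW6c v‖ := by
    fin_cases i
    · exact Complex.abs_re_le_norm (TW6c v)
    · exact Complex.abs_im_le_norm (TW6c v)
  have hui : |u i - v i| < ε := by
    rw [abs_sub_comm]
    exact hd' i
  have h8 : |v i - v i / ‖TW6c v‖| ≤ 2 * ε := by
    have h9 : v i - v i / ‖TW6c v‖ = (v i / ‖TW6c v‖) * (‖TW6c v‖ - 1) := by
      field_simp
    rw [h9, abs_mul, abs_div, abs_of_pos hpos]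
    have h10 : |v i| / ‖TW6c v‖ ≤ 1 := (div_le_one hpos).2 hvi
    calc |v i| / ‖TW6c v‖ * |‖TW6c v‖ - 1| ≤ 1 * |‖TW6c v‖ - 1| :=
          mul_le_mul_of_nonneg_right h10 (abs_nonneg _)
      _ ≤ 2 * ε := by rw [one_mul]; exact h6
  calc dist (u i) (v i / ‖TW6c v‖) = |(u i - v i) + (v i - v i / ‖TW6c v‖)| := by
        rw [Real.dist_eq]
        congr 1
        ring
    _ ≤ |u i - v i| + |v i - v i / ‖TW6c v‖| := abs_add_le _ _
    _ ≤ 3 * ε := by linarith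

/-- going down the tower -/
lemma TW6_down {G : ℕ → Om → (Fin 3 × Fin 3 → ℝ)}
    (norm_step : ∀ (k m : ℕ) (F : Om → ℂ), ContinuousOn F (Xk G (k + 1)) →
      (∀ ω ∈ Xk G (k + 1), ‖F ω‖ = 1) →
      (∀ ω ∈ Xk G (k + 1), ‖zz ω‖ = 1 → F ω = zz ω ^ m) →
      ∃ F' : Om → ℂ, ContinuousOn F' (Xk G k) ∧ (∀ ω ∈ Xk G k, ‖F' ω‖ = 1) ∧
        ∀ ω ∈ Xk G k, ‖zz ω‖ = 1 → F' ω = zz ω ^ (2 * m)) :
    ∀ (k m : ℕ) (F : Om → ℂ), ContinuousOn F (Xk G k) → (∀ ω ∈ Xk G k, ‖F ω‖ = 1) →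
      (∀ ω ∈ Xk G k, ‖zz ω‖ = 1 → F ω = zz ω ^ m) →
      ∃ F' : Om → ℂ, ContinuousOn F' (Xk G 0) ∧ (∀ ω ∈ Xk G 0, ‖F' ω‖ = 1) ∧
        ∀ ω ∈ Xk G 0, ‖zz ω‖ = 1 → F' ω = zz ω ^ (2 ^ k * m) := by
  intro k
  induction k with
  | zero =>
    intro m F h1 h2 h3
    exact ⟨F, h1, h2, by simpa using h3⟩
  | succ k ih =>
    intro m F h1 h2 h3
    obtain ⟨F', h1', h2', h3'⟩ := norm_step k m F h1 h2 h3
    obtain ⟨F'', h1'', h2'', h3''⟩ := ih (2 * m) F' h1' h2' h3'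
    refine ⟨F'', h1'', h2'', fun ω hω hz => ?_⟩
    rw [h3'' ω hω hz]
    congr 1
    ring

/-- the limit space is not an absolute extensor situation for the circle -/
theorem not_ae_Xinf {G : ℕ → Om → (Fin 3 × Fin 3 → ℝ)}
    (near_extend : ∃ δ : ℝ, 0 < δ ∧ ∀ (X : Type) [TopologicalSpace X] [NormalSpace X]
      (B : Set X), IsClosed B →
      ∀ (f g : X → (Fin 2 → ℝ)), ContinuousOn f B → MapsTo f B (sph 2) → Continuous g →
        (∀ x, g x ∈ sph 2) → (∀ x ∈ B, dist (f x) (g x) ≤ δ) →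
        ∃ h : X → (Fin 2 → ℝ), Continuous h ∧ (∀ x, h x ∈ sph 2) ∧ EqOn h f B)
    (isCompact_Xk : ∀ k, IsCompact (Xk G k)) (isCompact_Xinf : IsCompact (Xinf G))
    (exists_lift_inf : ∀ (k : ℕ) (ω : Om), ω ∈ Xk G k → ∃ ω' ∈ Xinf G, ∀ j ≤ k, ω' j = ω j)
    (trunc_mem : ∀ (k : ℕ) (ω : Om), ω ∈ Xinf G → (fun j => if j ≤ k then ω j else 0) ∈ Xk G k)
    (norm_step : ∀ (k m : ℕ) (F : Om → ℂ), ContinuousOn F (Xk G (k + 1)) →
      (∀ ω ∈ Xk G (k + 1), ‖F ω‖ = 1) →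
      (∀ ω ∈ Xk G (k + 1), ‖zz ω‖ = 1 → F ω = zz ω ^ m) →
      ∃ F' : Om → ℂ, ContinuousOn F' (Xk G k) ∧ (∀ ω ∈ Xk G k, ‖F' ω‖ = 1) ∧
        ∀ ω ∈ Xk G k, ‖zz ω‖ = 1 → F' ω = zz ω ^ (2 * m))
    (no_extension : ∀ k : ℕ, ¬ ∃ F : ℂ → ℂ, ContinuousOn F (Metric.closedBall 0 1) ∧
      (∀ z ∈ Metric.closedBall (0 : ℂ) 1, ‖F z‖ = 1) ∧
      ∀ z : ℂ, ‖z‖ = 1 → F z = z ^ (2 ^ k)) :
    ¬ AE (sph 2) ↥(Xinf G) := by
  classical
  intro hAE
  let bd : Om → (Fin 2 → ℝ) := fun ω => ![ω 0 0, ω 0 1]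
  have hbdc : Continuous bd := by
    refine continuous_pi fun i => ?_
    fin_cases i
    · exact (continuous_apply (0 : Fin 3)).comp (continuous_apply (0 : ℕ))
    · exact (continuous_apply (1 : Fin 3)).comp (continuous_apply (0 : ℕ))
  have hbdz : ∀ ω, TW6c (bd ω) = zz ω := fun ω => rfl
  have hbds : ∀ ω, ‖zz ω‖ = 1 → bd ω ∈ sph 2 := fun ω h => TW6_sph.2 h
  have hzzc := TW6_zz
  -- the extension over the limit
  obtain ⟨g, hgc, hgs, hgB⟩ := hAE {ω : ↥(Xinf G) | ‖zz (ω : Om)‖ = 1}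
    (isClosed_eq ((hzzc.comp continuous_subtype_val).norm) continuous_const)
    (fun ω => bd (ω : Om)) ((hbdc.comp continuous_subtype_val).continuousOn)
    (fun ω hω => hbds _ hω)
  obtain ⟨Fh, hFh⟩ := ContinuousMap.exists_restrict_eq isCompact_Xinf.isClosed
    (⟨g, hgc⟩ : C(↥(Xinf G), Fin 2 → ℝ))
  have hFg : ∀ (ω : Om) (hω : ω ∈ Xinf G), Fh ω = g ⟨ω, hω⟩ := by
    intro ω hω
    have := congrArg (fun φ : C(↥(Xinf G), Fin 2 → ℝ) => φ ⟨ω, hω⟩) hFh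
    simpa using this
  obtain ⟨δ, hδ, hne⟩ := near_extend
  set ε : ℝ := min (δ / 3) (1 / 4) with hε
  have hε0 : 0 < ε := by positivity
  have hε1 : ε ≤ 1 / 4 := min_le_right _ _
  have hε3 : 3 * ε ≤ δ := by
    have : ε ≤ δ / 3 := min_le_left _ _
    linarith
  obtain ⟨k, hk⟩ := TW6_unif isCompact_Xinf Fh.continuous hε0
  -- lifts
  have hlift : ∀ ω ∈ Xk G k, ∃ ω' , ∃ hω' : ω' ∈ Xinf G, zz ω' = zz ω ∧ bd ω' = bd ω ∧
      dist (Fh ω) (g ⟨ω', hω'⟩) < ε := by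
    intro ω hω
    obtain ⟨ω', hω', hj⟩ := exists_lift_inf k ω hω
    have h0 : ω' 0 = ω 0 := hj 0 (Nat.zero_le _)
    refine ⟨ω', hω', by simp only [zz, h0], by simp only [bd, h0], ?_⟩
    have h1 : TW6t k ω' = ω := by
      funext j
      unfold TW6t
      by_cases h : j ≤ k
      · rw [if_pos h, hj j h]
      · rw [if_neg h]
        obtain ⟨i, rfl⟩ : ∃ i, j = i + 1 := ⟨j - 1, by omega⟩
        exact (hω.2.2 i (by omega)).symm
    have h2 := hk ω' hω'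
    rw [h1, hFg ω' hω'] at h2
    exact h2
  have hclose : ∀ ω ∈ Xk G k, TW6c (Fh ω) ≠ 0 := by
    intro ω hω
    obtain ⟨ω', hω', _, _, h3⟩ := hlift ω hω
    exact (TW6_close hε0 hε1 (hgs _) h3).1
  have hcs : CompactSpace ↥(Xk G k) := isCompact_iff_compactSpace.1 (isCompact_Xk k)
  have hn : NormalSpace ↥(Xk G k) := inferInstance
  let g1 : ↥(Xk G k) → (Fin 2 → ℝ) := fun ω => fun i => Fh (ω : Om) i / ‖TW6c (Fh (ω : Om))‖
  have hFc : Continuous (fun ω : ↥(Xk G k) => Fh (ω : Om)) :=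
    Fh.continuous.comp continuous_subtype_val
  have hg1c : Continuous g1 := by
    refine continuous_pi fun i => ?_
    refine Continuous.div ((continuous_apply i).comp hFc) ((TW6c_cont.comp hFc).norm) ?_
    intro ω
    exact norm_ne_zero_iff.2 (hclose ω ω.2)
  have hg1s : ∀ ω, g1 ω ∈ sph 2 := by
    intro ω
    have h1 : 0 < ‖TW6c (Fh (ω : Om))‖ := norm_pos_iff.2 (hclose ω ω.2)
    rw [TW6_sph]
    have h2 : TW6c (g1 ω) = TW6c (Fh (ω : Om)) / ((‖TW6c (Fh (ω : Om))‖ : ℝ) : ℂ) := by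
      apply Complex.ext
      · rw [Complex.div_ofReal_re]
        rfl
      · rw [Complex.div_ofReal_im]
        rfl
    rw [h2, norm_div, Complex.norm_real, Real.norm_eq_abs, abs_of_pos h1, div_self h1.ne']
  obtain ⟨h, hhc, hhs, hhB⟩ := hne ↥(Xk G k) {ω | ‖zz (ω : Om)‖ = 1}
    (isClosed_eq ((hzzc.comp continuous_subtype_val).norm) continuous_const)
    (fun ω => bd (ω : Om)) g1 ((hbdc.comp continuous_subtype_val).continuousOn)
    (fun ω hω => hbds _ hω) hg1c hg1s (by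
      intro ω hω
      obtain ⟨ω', hω', hz, hb, h3⟩ := hlift ω ω.2
      have h4 := (TW6_close hε0 hε1 (hgs ⟨ω', hω'⟩) h3).2
      have hω1 : ‖zz (ω : Om)‖ = 1 := hω
      have h5 : g ⟨ω', hω'⟩ = bd ω' := hgB (by
        change ‖zz ω'‖ = 1
        rw [hz, hω1])
      rw [h5, hb] at h4
      exact h4.trans hε3)
  let F : Om → ℂ := fun ω => if hω : ω ∈ Xk G k then TW6c (h ⟨ω, hω⟩) else 0
  have hFr : ∀ (ω : Om) (hω : ω ∈ Xk G k), F ω = TW6c (h ⟨ω, hω⟩) := fun ω hω => dif_pos hω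
  obtain ⟨F0, hF0c, hF0n, hF0b⟩ := TW6_down norm_step k 1 F (by
      rw [continuousOn_iff_continuous_domRestrict]
      have h1 : (Xk G k).domRestrict F = fun ω => TW6c (h ω) := by
        funext ω
        exact hFr ω ω.2
      rw [h1]
      exact TW6c_cont.comp hhc) (by
      intro ω hω
      rw [hFr ω hω]
      exact TW6_sph.1 (hhs _)) (by
      intro ω hω hz
      rw [hFr ω hω, pow_one, ← hbdz]
      congr 1
      exact hhB hz)
  apply no_extension k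
  let ws : ℂ → Om := fun z j => if j = 0 then ![z.re, z.im, 0] else 0
  have hws0 : ∀ z, ws z 0 = ![z.re, z.im, 0] := fun z => rfl
  have hwsc : Continuous ws := by
    refine continuous_pi fun j => ?_
    by_cases hj : j = 0
    · subst hj
      simp only [hws0]
      refine continuous_pi fun i => ?_
      fin_cases i
      · exact Complex.continuous_re
      · exact Complex.continuous_im
      · exact continuous_const
    · have : (fun z => ws z j) = fun _ => 0 := by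
        funext z
        simp [ws, hj]
      rw [this]
      exact continuous_const
  have hwsz : ∀ z, zz (ws z) = z := fun z => rfl
  have hwsm : ∀ z ∈ Metric.closedBall (0 : ℂ) 1, ws z ∈ Xk G 0 := by
    intro z hz
    rw [mem_closedBall_zero_iff] at hz
    refine ⟨⟨?_, rfl⟩, fun j hj => absurd hj (Nat.not_lt_zero j), fun j _ => rfl⟩
    rw [hws0]
    have h1 : z.re ^ 2 + z.im ^ 2 = ‖z‖ ^ 2 := by
      rw [← Complex.normSq_eq_norm_sq, Complex.normSq_apply]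
      ring
    have h2 : ‖z‖ ^ 2 ≤ 1 := by
      have := norm_nonneg z
      nlinarith
    have h3 : (![z.re, z.im, 0] : Fin 3 → ℝ) 0 = z.re := rfl
    have h4 : (![z.re, z.im, 0] : Fin 3 → ℝ) 1 = z.im := rfl
    rw [h3, h4, h1]
    exact h2
  refine ⟨fun z => F0 (ws z), hF0c.comp hwsc.continuousOn hwsm, fun z hz => hF0n _ (hwsm z hz), ?_⟩
  intro z hz
  have h1 := hF0b (ws z) (hwsm z (by rw [mem_closedBall_zero_iff, hz])) (by rw [hwsz, hz])
  rw [hwsz, mul_one] at h1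
  exact h1

end Pool.Agent.Helper220.MG.JTW6
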