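import Pool.Agent.Helper220.MG.Ext
import Pool.Agent.Helper220.MG.Emb
import Pool.Agent.Helper220.MG.JT3
import Pool.Agent.Helper220.MG.JTW1
import Pool.Agent.Helper220.MG.JTW2
import Pool.Agent.Helper220.MG.JTW3
import Pool.Agent.Helper220.MG.JTW4
import Pool.Agent.Helper220.MG.JTW5
import Pool.Agent.Helper220.MG.JTW6
import Pool.Agent.Helper220.MG.JBase
import Pool.Agent.Helper220.MG.JDen

set_option autoImplicit false

namespace Pool.Agent.Helper220.MG

open Set Topology Filter TopologicalSpace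

theorem fc_of_zc {m : ℕ} {X : Type} [TopologicalSpace X] [SecondCountableTopology X]
    [MetrizableSpace X] (h : ZC m X) : FC m X := JT3.fc_of_zc h

theorem zc_plane : ZC 3 (EuclideanSpace ℝ (Fin 2)) := by
  have h : ZC 3 ↥(nob 2) := zc_nob 2
  have hu : nob 2 = univ := by
    rw [eq_univ_iff_forall]
    intro x s _
    have := s.card_le_univ
    simp at this
    omega
  refine ZC.of_embedding (fun x => (⟨x, by rw [hu]; trivial⟩ : ↥(nob 2))) ?_ h
  refine IsEmbedding.of_comp (by fun_prop) continuous_subtype_val ?_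
  exact IsEmbedding.id

theorem zc_of_fc {Y : Type} [TopologicalSpace Y] [CompactSpace Y] [MetrizableSpace Y]
    (h : FC 3 Y) : ZC 3 Y := by
  obtain ⟨f, hf, hn⟩ := embed_nob Y h
  refine ZC.of_embedding (fun y => (⟨f y, hn y⟩ : ↥(nob 5))) ?_ (zc_nob 5)
  refine IsEmbedding.of_comp (by have := hf.continuous; fun_prop) continuous_subtype_val ?_
  exact hf

theorem exotic : ∃ (Y : Type) (_ : TopologicalSpace Y), CompactSpace Y ∧ MetrizableSpace Y ∧
    FC 3 Y ∧ AE PP Y ∧ ¬ AE (sph 2) Y := by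
  have hNR := JNrPP.nr_PP
  obtain ⟨ε, hε, r, hr, hrL, hrid⟩ := hNR.retr
  obtain ⟨G, hG, hlift⟩ := JTW5.exists_tower hε hr hrL hrid hNR.compact
    (fun K hK g hg ε hε => JDen.den_poly K hK g hg ε hε) (fun hG => JTW1.isCompact_Xinf hG)
  have hc : ∀ k, IsCompact (Xk G k) := fun k => JTW1.isCompact_Xk hG k
  have hci : IsCompact (Xinf G) := JTW1.isCompact_Xinf hG
  haveI : CompactSpace ↥(Xinf G) := isCompact_iff_compactSpace.1 hci
  have hzc : ∀ k, ZC 3 ↥(Xk G k) := fun k =>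
    JTW2.zc_Xk hG (fun h => JTW1.out_eq_out h) hc zc_plane
      (fun f hf h => ZC.of_embedding f hf h)
      (fun F hF hcov h => ZC.sum F hF hcov h) k
  have hfck : ∀ k, FC 3 ↥(Xk G k) := fun k => fc_of_zc (hzc k)
  have hli : ∀ (k : ℕ) (ω : Om), ω ∈ Xk G k → ∃ ω' ∈ Xinf G, ∀ j ≤ k, ω' j = ω j :=
    fun k ω hω => JTW1.exists_lift_inf hG k ω hω
  have htr : ∀ (k : ℕ) (ω : Om), ω ∈ Xinf G → (fun j => if j ≤ k then ω j else 0) ∈ Xk G k :=
    fun k ω hω => JTW1.trunc_mem hG k ω hω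
  have hfc : FC 3 ↥(Xinf G) := JTW3.fc_Xinf hc hci hli htr hfck
  have hzi : ZC 3 ↥(Xinf G) := zc_of_fc hfc
  have hsph : AE (sph 3) ↥(Xinf G) := sph_ae (m := 2) hzi
  letI := metrizableSpaceMetric ↥(Xinf G)
  refine ⟨↥(Xinf G), inferInstance, inferInstance, inferInstance, hfc, ?_, ?_⟩
  · -- extension of maps into the projective plane
    obtain ⟨δ, hδ, hn⟩ := near_extend hNR
    intro B hB f hf hfL
    -- Tietze extension
    obtain ⟨fh, hfh⟩ : ∃ fh : C(↥(Xinf G), Fin 3 × Fin 3 → ℝ), ∀ x ∈ B, fh x = f x := by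
      let f0 : C(↥B, Fin 3 × Fin 3 → ℝ) := ⟨fun x => f x, hf.domRestrict⟩
      obtain ⟨g, hg⟩ := f0.exists_restrict_eq hB
      refine ⟨g, fun x hx => ?_⟩
      have := DFunLike.congr_fun hg ⟨x, hx⟩
      exact this
    classical
    let gg : Om → (Fin 3 × Fin 3 → ℝ) := fun ω => if hω : ω ∈ Xinf G then fh ⟨ω, hω⟩ else 0
    have hgg : ∀ x : ↥(Xinf G), gg x = fh x := by
      intro x
      show (if hω : (x : Om) ∈ Xinf G then fh ⟨x, hω⟩ else 0) = fh x
      rw [dif_pos x.2]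
    have hggc : ContinuousOn gg (Xinf G) := by
      rw [continuousOn_iff_continuous_domRestrict]
      have : (Xinf G).domRestrict gg = fh := by
        funext x
        exact hgg x
      rw [this]
      exact fh.continuous
    obtain ⟨k, hk⟩ := hlift gg hggc δ hδ
    -- the lift on `B`
    have hB1 : ∀ x ∈ B, (x : Om) (k + 1) ∈ sph 3 ∧ dist (out ((x : Om) (k + 1))) (f x) ≤ δ := by
      intro x hx
      have h1 := hk x x.2 (by rw [hgg, hfh x hx]; exact hfL hx)
      rw [hgg, hfh x hx] at h1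
      exact h1
    obtain ⟨Y, hY1, hY2, hY3⟩ := hsph B hB (fun x => (x : Om) (k + 1)) (by
      have : Continuous (fun x : ↥(Xinf G) => (x : Om) (k + 1)) :=
        (continuous_apply (k + 1)).comp continuous_subtype_val
      exact this.continuousOn) (fun x hx => (hB1 x hx).1)
    have hout : Continuous (out : (Fin 3 → ℝ) → (Fin 3 × Fin 3 → ℝ)) := by
      unfold out
      fun_prop
    exact hn _ B hB f (fun x => out (Y x)) hf hfL (hout.comp hY1)
      (fun x => ⟨Y x, hY2 x, rfl⟩) (fun x hx => by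
        rw [hY3 hx, dist_comm]
        exact (hB1 x hx).2)
  · obtain ⟨δ, hδ, hn⟩ := near_extend (JNrSph.nr_sph 1)
    exact JTW6.not_ae_Xinf ⟨δ, hδ, fun X _ _ B hB f g a1 a2 a3 a4 a5 => hn X B hB f g a1 a2 a3 a4 a5⟩
      hc hci hli htr
      (fun k m F h1 h2 h3 => JTW4.norm_step hG (fun h => JTW1.out_eq_out h) k (hc _)
        (fun ω hω => JTW1.exists_lift hG k ω hω) m F h1 h2 h3)
      (fun k => JBase.no_extension k)

end Pool.Agent.Helper220.MG
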