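import Pool.Agent.Helper220.MG.Core

set_option autoImplicit false

namespace Pool.Agent.Helper220.MG.JC2

open Set Topology Filter TopologicalSpace

theorem c2_zd_sub {X : Type} [TopologicalSpace X] {S T : Set X} (h : ZD ↥S) (hTS : T ⊆ S) :
    ZD ↥T := by
  intro x U hU
  have hind : IsInducing (Set.inclusion hTS) := (IsEmbedding.inclusion hTS).isInducing
  rw [hind.nhds_eq_comap, mem_comap] at hU
  obtain ⟨U', hU', hUU⟩ := hU
  obtain ⟨V, hV, hxV, hVU⟩ := h _ U' hU'
  exact ⟨Set.inclusion hTS ⁻¹' V, hV.preimage hind.continuous, hxV, fun y hy => hUU (hVU hy)⟩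

theorem c2_path {ι : Type} {L : Set (ι → ℝ)} {a b : ι → ℝ} (h : JoinedIn L a b) :
    ∃ γ : ℝ → (ι → ℝ), Continuous γ ∧ (∀ t, γ t ∈ L) ∧ γ 0 = a ∧ γ 1 = b := by
  obtain ⟨γ, hγ⟩ := h
  refine ⟨γ.extend, γ.continuous_extend, ?_, γ.extend_zero, γ.extend_one⟩
  intro t
  have : γ.extend t ∈ range γ := by
    rw [← γ.extend_range]; exact mem_range_self t
  obtain ⟨s, hs⟩ := this
  rw [← hs]
  exact hγ s

theorem c2_claim {ι : Type} [Fintype ι] {L : Set (ι → ℝ)} (hL : NR L)
    (hp : IsPathConnected L) {X : Type} [TopologicalSpace X]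
    [MetrizableSpace X] (T : Set X) (hT : IsClosed T) (hfc : FC 1 ↥T)
    (f : X → (ι → ℝ)) (hf : ContinuousOn f T) (hfL : MapsTo f T L) {δ : ℝ} (hδ : 0 < δ) :
    ∃ g : X → (ι → ℝ), Continuous g ∧ (∀ x, g x ∈ L) ∧ ∀ x ∈ T, dist (f x) (g x) ≤ δ := by
  classical
  obtain ⟨l₀, hl₀⟩ := hL.nonempty
  obtain ⟨t, htL, htf, htc⟩ := hL.compact.finite_cover_balls hδ
  let e := htf.toFinset.equivFin
  set n := htf.toFinset.card with hn
  let l : Fin n → (ι → ℝ) := fun j => ((e.symm j : {x // x ∈ htf.toFinset}) : ι → ℝ)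
  have hl : ∀ j, l j ∈ L := fun j => htL (htf.mem_toFinset.1 (e.symm j).2)
  have hlc : ∀ y ∈ L, ∃ j, dist y (l j) < δ := by
    intro y hy
    have := htc hy
    simp only [mem_iUnion, exists_prop] at this
    obtain ⟨w, hw, hyw⟩ := this
    refine ⟨e ⟨w, htf.mem_toFinset.2 hw⟩, ?_⟩
    simp only [l, Equiv.symm_apply_apply]
    exact hyw
  have hfr : Continuous (fun x : ↥T => f x) := continuousOn_iff_continuous_domRestrict.1 hf
  obtain ⟨φ, h1, h2, h3, h4, h5⟩ := hfc n (fun j => {x : ↥T | dist (f x) (l j) < δ})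
    (fun j => isOpen_lt (hfr.dist continuous_const) continuous_const) (by
      rw [eq_univ_iff_forall]
      intro x
      obtain ⟨j, hj⟩ := hlc (f x) (hfL x.2)
      exact mem_iUnion.2 ⟨j, hj⟩)
  simp only [Finset.univ_unique, Fin.default_eq_zero, Fin.isValue, Finset.sum_singleton] at h5
  have h6 : ∀ j x, φ 0 j x ∈ Icc (0 : ℝ) 1 := by
    intro j x
    refine ⟨h2 0 j x, ?_⟩
    rw [← h5 x]
    exact Finset.single_le_sum (f := fun j => φ 0 j x) (fun i _ => h2 0 i x) (Finset.mem_univ j)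
  have h7 : ∀ j, ∃ a : C(X, ℝ), (∀ x, a x ∈ Icc (0 : ℝ) 1) ∧ ∀ x : ↥T, a x = φ 0 j x := by
    intro j
    obtain ⟨a, ha1, ha2⟩ := ContinuousMap.exists_restrict_eq_forall_mem_of_closed
      (⟨φ 0 j, h1 0 j⟩ : C(↥T, ℝ)) (h6 j) ⟨0, by simp⟩ hT
    refine ⟨a, ha1, fun x => ?_⟩
    have := congrArg (fun q : C(↥T, ℝ) => q x) ha2
    exact this
  choose a ha1 ha2 using h7
  let lam : Fin n → X → ℝ := fun j x => max 0 (a j x - ∑ k ∈ Finset.univ.erase j, a k x)
  have hlamc : ∀ j, Continuous (lam j) := by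
    intro j
    refine continuous_const.max ((a j).continuous.sub ?_)
    exact continuous_finsetSum _ (fun k _ => (a k).continuous)
  have hlam0 : ∀ j k x, j ≠ k → lam j x ≠ 0 → lam k x = 0 := by
    intro j k x hjk hj
    have hpos : 0 < a j x - ∑ i ∈ Finset.univ.erase j, a i x := by
      by_contra hcon
      push Not at hcon
      exact hj (max_eq_left hcon)
    have e1 : a k x ≤ ∑ i ∈ Finset.univ.erase j, a i x :=
      Finset.single_le_sum (f := fun i => a i x) (fun i _ => (ha1 i x).1)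
        (Finset.mem_erase.2 ⟨hjk.symm, Finset.mem_univ k⟩)
    have e2 : a j x ≤ ∑ i ∈ Finset.univ.erase k, a i x :=
      Finset.single_le_sum (f := fun i => a i x) (fun i _ => (ha1 i x).1)
        (Finset.mem_erase.2 ⟨hjk, Finset.mem_univ j⟩)
    exact max_eq_left (by linarith)
  have hpath : ∀ j, ∃ γ : ℝ → (ι → ℝ), Continuous γ ∧ (∀ t, γ t ∈ L) ∧ γ 0 = l₀ ∧ γ 1 = l j :=
    fun j => c2_path (hp.joinedIn l₀ hl₀ (l j) (hl j))
  choose γ hγ1 hγ2 hγ3 hγ4 using hpath
  have hval : ∀ x j, (∀ k, j ≠ k → lam k x = 0) →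
      l₀ + ∑ k, (γ k (lam k x) - l₀) = γ j (lam j x) := by
    intro x j hj
    rw [Finset.sum_eq_single j]
    · abel
    · intro k _ hk
      rw [hj k (Ne.symm hk), hγ3, sub_self]
    · intro h; exact absurd (Finset.mem_univ j) h
  refine ⟨fun x => l₀ + ∑ j, (γ j (lam j x) - l₀), ?_, ?_, ?_⟩
  · refine continuous_const.add (continuous_finsetSum _ (fun j _ => ?_))
    exact ((hγ1 j).comp (hlamc j)).sub continuous_const
  · intro x
    by_cases hx : ∃ j, lam j x ≠ 0
    · obtain ⟨j, hj⟩ := hx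
      show l₀ + ∑ k, (γ k (lam k x) - l₀) ∈ L
      rw [hval x j (fun k hk => hlam0 j k x hk hj)]
      exact hγ2 j _
    · push Not at hx
      show l₀ + ∑ k, (γ k (lam k x) - l₀) ∈ L
      rw [Finset.sum_eq_zero (fun k _ => by rw [hx k, hγ3, sub_self]), add_zero]
      exact hl₀
  · intro x hx
    have h8 : ∃ j, φ 0 j ⟨x, hx⟩ ≠ 0 := by
      by_contra hcon
      push Not at hcon
      have := h5 ⟨x, hx⟩
      rw [Finset.sum_eq_zero (fun j _ => hcon j)] at this
      exact zero_ne_one this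
    obtain ⟨j, hj⟩ := h8
    have h9 : ∀ k, j ≠ k → φ 0 k ⟨x, hx⟩ = 0 := fun k hk => (h4 0 j k ⟨x, hx⟩ hk).resolve_left hj
    have h10 : φ 0 j ⟨x, hx⟩ = 1 := by
      rw [← h5 ⟨x, hx⟩]
      rw [Finset.sum_eq_single j (fun k _ hk => h9 k (Ne.symm hk)) (fun h => absurd (Finset.mem_univ j) h)]
    have h11 : lam j x = 1 := by
      have e1 : ∑ k ∈ Finset.univ.erase j, a k x = 0 := by
        refine Finset.sum_eq_zero (fun k hk => ?_)
        have := ha2 k ⟨x, hx⟩
        rw [this]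
        exact h9 k (Ne.symm (Finset.mem_erase.1 hk).1)
      show max 0 (a j x - ∑ k ∈ Finset.univ.erase j, a k x) = 1
      rw [e1, ha2 j ⟨x, hx⟩, h10]
      norm_num
    show dist (f x) (l₀ + ∑ k, (γ k (lam k x) - l₀)) ≤ δ
    rw [hval x j (fun k hk => hlam0 j k x hk (by rw [h11]; exact one_ne_zero)), h11, hγ4]
    exact (h3 0 j ⟨x, hx⟩ hj).le

/-- spaces covered by two zero-dimensional subsets: maps into a path connected `L` extend -/
theorem ae_of_zc_two {ι : Type} [Fintype ι] {L : Set (ι → ℝ)} (hL : NR L)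
    (hp : IsPathConnected L) {X : Type} [TopologicalSpace X] [SecondCountableTopology X]
    [MetrizableSpace X] (h : ZC 2 X)
    (zd_ambient : ∀ {T : Set X} (_ : ZD ↥T) {A B : Set X} (_ : IsClosed A)
      (_ : IsClosed B) (_ : Disjoint A B),
      ∃ V : Set X, IsOpen V ∧ A ⊆ V ∧ Disjoint V B ∧ Disjoint (frontier V) T)
    (fc_of_zd : ∀ T : Set X, ZD ↥T → FC 1 ↥T)
    (near_extend : ∃ δ : ℝ, 0 < δ ∧ ∀ (B : Set X), IsClosed B →
      ∀ (f g : X → (ι → ℝ)), ContinuousOn f B → MapsTo f B L → Continuous g → (∀ x, g x ∈ L) →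
        (∀ x ∈ B, dist (f x) (g x) ≤ δ) →
        ∃ h : X → (ι → ℝ), Continuous h ∧ (∀ x, h x ∈ L) ∧ EqOn h f B)
    (nbhd_extend : ∀ (B : Set X) (f : X → (ι → ℝ)), IsClosed B → ContinuousOn f B →
      MapsTo f B L → ∃ (B' : Set X) (f' : X → (ι → ℝ)), IsClosed B' ∧ B ⊆ interior B' ∧
        ContinuousOn f' B' ∧ MapsTo f' B' L ∧ EqOn f' f B) :
    AE L X := by
  classical
  obtain ⟨E, hE1, hE2⟩ := h
  intro B hB f hf hfL
  obtain ⟨B', f', hB'c, hBB', hf'c, hf'L, hf'f⟩ := nbhd_extend B f hB hf hfL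
  obtain ⟨V, hVo, hBV, hVB', hVfr⟩ := zd_ambient (hE2 1) hB (isClosed_compl_iff.2 isOpen_interior)
    (disjoint_compl_right_iff_subset.2 hBB')
  have hVsub : V ⊆ B' := (disjoint_compl_right_iff_subset.1 hVB').trans interior_subset
  have hcl : closure V ⊆ B' := closure_minimal hVsub hB'c
  have hfrE : frontier V ⊆ E 0 := by
    intro x hx
    obtain ⟨c, hc⟩ := hE1 x
    fin_cases c
    · exact hc
    · exact absurd hc (disjoint_left.1 hVfr hx)
  have hZD : ZD ↥(frontier V) := c2_zd_sub (hE2 0) hfrE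
  have hfrB : frontier V ⊆ B' := frontier_subset_closure.trans hcl
  obtain ⟨δ, hδ, hnear⟩ := near_extend
  obtain ⟨g', hg'c, hg'L, hg'd⟩ := c2_claim hL hp (frontier V) isClosed_frontier
    (fc_of_zd _ hZD) f' (hf'c.mono hfrB) (hf'L.mono_left hfrB) hδ
  obtain ⟨g, hgc, hgL, hgf⟩ := hnear (frontier V) isClosed_frontier f' g' (hf'c.mono hfrB)
    (hf'L.mono_left hfrB) hg'c hg'L hg'd
  let h : X → (ι → ℝ) := fun x => if x ∈ closure V then f' x else g x
  have hh1 : ContinuousOn h (closure V) := by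
    refine (hf'c.mono hcl).congr (fun x hx => ?_)
    show (if x ∈ closure V then f' x else g x) = f' x
    rw [if_pos hx]
  have hh2 : ContinuousOn h Vᶜ := by
    refine hgc.continuousOn.congr (fun x hx => ?_)
    show (if x ∈ closure V then f' x else g x) = g x
    by_cases hxc : x ∈ closure V
    · rw [if_pos hxc]
      have : x ∈ frontier V := by
        rw [hVo.frontier_eq]
        exact ⟨hxc, hx⟩
      exact (hgf this).symm
    · rw [if_neg hxc]
  have hun : closure V ∪ Vᶜ = univ := by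
    rw [eq_univ_iff_forall]
    intro x
    by_cases hx : x ∈ V
    · exact Or.inl (subset_closure hx)
    · exact Or.inr hx
  refine ⟨h, ?_, ?_, ?_⟩
  · rw [← continuousOn_univ, ← hun]
    exact hh1.union_of_isClosed hh2 isClosed_closure (isClosed_compl_iff.2 hVo)
  · intro x
    show (if x ∈ closure V then f' x else g x) ∈ L
    split_ifs with hx
    · exact hf'L (hcl hx)
    · exact hgL x
  · intro x hx
    show (if x ∈ closure V then f' x else g x) = f x
    rw [if_pos (subset_closure (hBV hx))]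
    exact hf'f hx

end Pool.Agent.Helper220.MG.JC2
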