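import Pool.Agent.Helper220.MG.Core

set_option autoImplicit false

namespace Pool.Agent.Helper220.MG.JHE

open Set Topology Filter TopologicalSpace

theorem near_extend {ι : Type} [Fintype ι] {L : Set (ι → ℝ)} (hL : NR L) :
    ∃ δ : ℝ, 0 < δ ∧ ∀ (X : Type) [TopologicalSpace X] [NormalSpace X] (B : Set X), IsClosed B →
      ∀ (f g : X → (ι → ℝ)), ContinuousOn f B → MapsTo f B L → Continuous g → (∀ x, g x ∈ L) →
        (∀ x ∈ B, dist (f x) (g x) ≤ δ) →
        ∃ h : X → (ι → ℝ), Continuous h ∧ (∀ x, h x ∈ L) ∧ EqOn h f B := by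
  obtain ⟨ε, hε, r, hr1, hr2, hr3⟩ := hL.retr
  refine ⟨ε, hε, ?_⟩
  intro X _ _ B hB f g hf hfL hg hgL hd
  have key : ∀ p : ι, ∃ φ : C(X, ℝ), (∀ x, φ x ∈ Set.Icc (-ε) ε) ∧
      ∀ x ∈ B, φ x = f x p - g x p := by
    intro p
    let F : C(B, ℝ) := ⟨fun x => f x.1 p - g x.1 p, by
      have h1 : Continuous (B.restrict f) := continuousOn_iff_continuous_restrict.1 hf
      have h2 : Continuous (fun x : B => f x.1 p) := (continuous_apply p).comp h1
      have h3 : Continuous (fun x : B => g x.1 p) :=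
        (continuous_apply p).comp (hg.comp continuous_subtype_val)
      exact h2.sub h3⟩
    have hF : ∀ x, F x ∈ Set.Icc (-ε) ε := by
      intro x
      have h1 : dist (f x.1 p) (g x.1 p) ≤ ε :=
        (dist_le_pi_dist (f x.1) (g x.1) p).trans (hd x.1 x.2)
      rw [Real.dist_eq, abs_le] at h1
      exact h1
    obtain ⟨φ, h1, h2⟩ := ContinuousMap.exists_restrict_eq_forall_mem_of_closed F hF
      ⟨0, by constructor <;> linarith⟩ hB
    refine ⟨φ, h1, fun x hx => ?_⟩
    have := DFunLike.congr_fun h2 ⟨x, hx⟩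
    exact this
  choose φ hφ1 hφ2 using key
  let G : X → (ι → ℝ) := fun x p => g x p + φ p x
  have hG : Continuous G :=
    continuous_pi fun p => ((continuous_apply p).comp hg).add (φ p).continuous
  have hGm : ∀ x, G x ∈ Metric.cthickening ε L := by
    intro x
    refine Metric.mem_cthickening_of_dist_le (G x) (g x) ε L (hgL x) ?_
    rw [dist_pi_le_iff hε.le]
    intro p
    rw [Real.dist_eq]
    have : G x p - g x p = φ p x := by simp [G]
    rw [this, abs_le]
    exact hφ1 p x
  refine ⟨fun x => r (G x), ?_, fun x => hr2 (hGm x), ?_⟩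
  · exact hr1.comp_continuous hG hGm
  · intro x hx
    have : G x = f x := by
      funext p
      show g x p + φ p x = f x p
      rw [hφ2 p x hx]
      ring
    show r (G x) = f x
    rw [this]
    exact hr3 _ (hfL hx)

theorem nbhd_extend {ι : Type} [Fintype ι] {L : Set (ι → ℝ)} (hL : NR L)
    {X : Type} [TopologicalSpace X] [NormalSpace X] (B : Set X) (hB : IsClosed B)
    (f : X → (ι → ℝ)) (hf : ContinuousOn f B) (hfL : MapsTo f B L) :
    ∃ (B' : Set X) (f' : X → (ι → ℝ)), IsClosed B' ∧ B ⊆ interior B' ∧ ContinuousOn f' B' ∧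
      MapsTo f' B' L ∧ EqOn f' f B := by
  obtain ⟨ε, hε, r, hr1, hr2, hr3⟩ := hL.retr
  obtain ⟨F, hF⟩ := ContinuousMap.exists_restrict_eq (Y := ι → ℝ) hB
    ⟨B.restrict f, continuousOn_iff_continuous_restrict.1 hf⟩
  have hFf : ∀ x ∈ B, F x = f x := by
    intro x hx
    exact DFunLike.congr_fun hF ⟨x, hx⟩
  refine ⟨F ⁻¹' Metric.cthickening ε L, fun x => r (F x), ?_, ?_, ?_, ?_, ?_⟩
  · exact Metric.isClosed_cthickening.preimage F.continuous
  · have h1 : IsOpen (F ⁻¹' Metric.thickening ε L) :=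
      Metric.isOpen_thickening.preimage F.continuous
    have h2 : F ⁻¹' Metric.thickening ε L ⊆ F ⁻¹' Metric.cthickening ε L :=
      preimage_mono (Metric.thickening_subset_cthickening ε L)
    refine Subset.trans ?_ (interior_maximal h2 h1)
    intro x hx
    show F x ∈ Metric.thickening ε L
    rw [hFf x hx]
    exact Metric.self_subset_thickening hε L (hfL hx)
  · exact hr1.comp F.continuous.continuousOn (fun x hx => hx)
  · exact fun x hx => hr2 hx
  · intro x hx
    show r (F x) = f x
    rw [hFf x hx]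
    exact hr3 _ (hfL hx)

end Pool.Agent.Helper220.MG.JHE
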