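import Pool.Agent.Helper220.MG.Core

set_option autoImplicit false

namespace Pool.Agent.Helper220.MG.JHer

open Set Topology Filter TopologicalSpace

/-- the extension property passes from open subsets to arbitrary subsets -/
theorem ae_subset_of_open {ι : Type} [Fintype ι] {L : Set (ι → ℝ)} (hL : NR L)
    {X : Type} [TopologicalSpace X] [MetrizableSpace X]
    (hopen : ∀ O : Set X, IsOpen O → AE L ↥O) (S : Set X)
    (hnear : ∃ δ : ℝ, 0 < δ ∧ ∀ (B : Set ↥S), IsClosed B →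
      ∀ (f g : ↥S → (ι → ℝ)), ContinuousOn f B → MapsTo f B L → Continuous g → (∀ x, g x ∈ L) →
        (∀ x ∈ B, dist (f x) (g x) ≤ δ) →
        ∃ h : ↥S → (ι → ℝ), Continuous h ∧ (∀ x, h x ∈ L) ∧ EqOn h f B) :
    AE L ↥S := by
  obtain ⟨ε, hε, r, hrc, hrm, hrL⟩ := hL.retr
  obtain ⟨δ, hδ, hnear⟩ := hnear
  have hN : IsCompact (Metric.cthickening ε L) := hL.compact.cthickening
  have huc := hN.uniformContinuousOn_of_continuous hrc
  rw [Metric.uniformContinuousOn_iff] at huc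
  obtain ⟨η0, hη0, huc⟩ := huc δ hδ
  obtain ⟨η, hη, hηε, hη1⟩ : ∃ η : ℝ, 0 < η ∧ η ≤ ε ∧ η ≤ η0 :=
    ⟨min ε η0, lt_min hε hη0, min_le_left _ _, min_le_right _ _⟩
  intro B hB f hf hfL
  obtain ⟨F, hF⟩ : ∃ F : C(↥S, ι → ℝ), ∀ b ∈ B, F b = f b := by
    obtain ⟨F, hF⟩ := ContinuousMap.exists_restrict_eq hB
      (⟨B.restrict f, continuousOn_iff_continuous_restrict.1 hf⟩ : C(B, ι → ℝ))
    refine ⟨F, fun b hb => ?_⟩
    have := congrArg (fun φ : C(B, ι → ℝ) => φ ⟨b, hb⟩) hF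
    exact this
  have hO : ∀ s : ↥S, ∃ O : Set X, IsOpen O ∧ s.1 ∈ O ∧ ∀ t : ↥S, t.1 ∈ O →
      dist (F s) (F t) < η := by
    intro s
    have h1 : IsOpen {t : ↥S | dist (F s) (F t) < η} :=
      isOpen_lt (continuous_const.dist F.continuous) continuous_const
    obtain ⟨O, hO1, hO2⟩ := isOpen_induced_iff.1 h1
    refine ⟨O, hO1, ?_, ?_⟩
    · have : s ∈ (Subtype.val ⁻¹' O : Set ↥S) := by
        rw [hO2]
        change dist (F s) (F s) < η
        rw [dist_self]; exact hη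
      exact this
    · intro t ht
      have : t ∈ (Subtype.val ⁻¹' O : Set ↥S) := ht
      rw [hO2] at this
      exact this
  choose Os hOs1 hOs2 hOs3 using hO
  obtain ⟨O, hOdef⟩ : ∃ O : Set X, O = ⋃ s, Os s := ⟨_, rfl⟩
  have hOo : IsOpen O := by rw [hOdef]; exact isOpen_iUnion hOs1
  have hSO : S ⊆ O := by
    intro s hs
    rw [hOdef]
    exact mem_iUnion.2 ⟨⟨s, hs⟩, hOs2 ⟨s, hs⟩⟩
  have hpc : ParacompactSpace ↥O := by
    letI := TopologicalSpace.metrizableSpaceMetric ↥O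
    infer_instance
  obtain ⟨F', hF'⟩ : ∃ F' : C(↥O, ι → ℝ), ∀ x : ↥O, ∀ h : x.1 ∈ S,
      dist (F' x) (F ⟨x.1, h⟩) < η := by
    refine exists_continuous_forall_mem_convex_of_local_const
      (t := fun x : ↥O => {w : ι → ℝ | ∀ h : x.1 ∈ S, dist w (F ⟨x.1, h⟩) < η}) ?_ ?_
    · intro x
      have h1 : {w : ι → ℝ | ∀ h : x.1 ∈ S, dist w (F ⟨x.1, h⟩) < η} =
          ⋂ h : x.1 ∈ S, Metric.ball (F ⟨x.1, h⟩) η := by
        ext w
        simp only [Set.mem_iInter, Metric.mem_ball]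
        rfl
      rw [h1]
      exact convex_iInter fun h => convex_ball _ _
    · intro x
      have hx : x.1 ∈ ⋃ s, Os s := by rw [← hOdef]; exact x.2
      obtain ⟨s, hs⟩ := mem_iUnion.1 hx
      refine ⟨F s, ?_⟩
      have h1 : ∀ᶠ y : ↥O in 𝓝 x, y.1 ∈ Os s :=
        continuous_subtype_val.continuousAt.eventually_mem ((hOs1 s).mem_nhds hs)
      filter_upwards [h1] with y hy
      intro h
      exact hOs3 s ⟨y.1, h⟩ hy
  obtain ⟨B', hB'⟩ : ∃ B' : Set ↥O, B' = {x | F' x ∈ Metric.cthickening ε L} := ⟨_, rfl⟩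
  have hB'c : IsClosed B' := by
    rw [hB']
    exact Metric.isClosed_cthickening.preimage F'.continuous
  obtain ⟨g, hgc, hgL, hgeq⟩ := hopen O hOo B' hB'c (fun x => r (F' x))
    (by
      refine hrc.comp F'.continuous.continuousOn ?_
      intro x hx
      rw [hB'] at hx
      exact hx)
    (by
      intro x hx
      rw [hB'] at hx
      exact hrm hx)
  refine hnear B hB f (fun s : ↥S => g ⟨s.1, hSO s.2⟩) hf hfL ?_ (fun s => hgL _) ?_
  · exact hgc.comp (continuous_inclusion hSO)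
  · intro b hb
    have h1 := hF' ⟨b.1, hSO b.2⟩ b.2
    have h2 : F ⟨b.1, b.2⟩ = f b := hF b hb
    simp only at h1
    rw [h2] at h1
    have hfb : f b ∈ L := hfL hb
    have h3 : F' ⟨b.1, hSO b.2⟩ ∈ Metric.cthickening ε L :=
      Metric.mem_cthickening_of_dist_le _ (f b) ε L hfb (by linarith)
    have h4 : f b ∈ Metric.cthickening ε L := Metric.self_subset_cthickening L hfb
    have h5 : (⟨b.1, hSO b.2⟩ : ↥O) ∈ B' := by rw [hB']; exact h3
    have h6 := hgeq h5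
    simp only at h6 ⊢
    rw [h6]
    have h7 := huc (f b) h4 _ h3 (by rw [dist_comm]; linarith)
    rw [hrL (f b) hfb] at h7
    exact h7.le

end Pool.Agent.Helper220.MG.JHer
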