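import Pool.Agent.Helper220.MG.Core

set_option autoImplicit false

namespace Pool.Agent.Helper220.MG.JNrPP

open Set Topology Filter TopologicalSpace

/-- pairing of matrices -/
def pr (M P : Fin 3 × Fin 3 → ℝ) : ℝ := ∑ p, M p * P p

/-- scalar product -/
def dt (u v : Fin 3 → ℝ) : ℝ := ∑ i, u i * v i

lemma pr_continuous : Continuous (fun q : (Fin 3 × Fin 3 → ℝ) × (Fin 3 × Fin 3 → ℝ) => pr q.1 q.2) := by
  unfold pr
  fun_prop

lemma out_continuous : Continuous out := by
  unfold out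
  fun_prop

lemma sph_compact : IsCompact (sph 3) := by
  apply Metric.isCompact_of_isClosed_isBounded
  · exact isClosed_eq (by fun_prop) continuous_const
  · rw [Metric.isBounded_iff_subset_closedBall 0]
    refine ⟨1, fun u hu => ?_⟩
    rw [mem_closedBall_zero_iff, pi_norm_le_iff_of_nonneg (by norm_num)]
    intro i
    have h1 : u i ^ 2 ≤ ∑ i, u i ^ 2 :=
      Finset.single_le_sum (f := fun i => u i ^ 2) (fun i _ => by positivity) (Finset.mem_univ i)
    have h2 : ∑ i, u i ^ 2 = 1 := hu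
    rw [Real.norm_eq_abs, abs_le]
    constructor <;> nlinarith

lemma PP_compact : IsCompact PP := sph_compact.image out_continuous

lemma pr_out (u v : Fin 3 → ℝ) : pr (out u) (out v) = dt u v ^ 2 := by
  unfold pr out dt
  rw [Fintype.sum_prod_type]
  simp only [Fin.sum_univ_three]
  ring

lemma dt_self {u : Fin 3 → ℝ} (hu : u ∈ sph 3) : dt u u = 1 := by
  have h : ∑ i, u i ^ 2 = 1 := hu
  unfold dt
  simpa [sq] using h

lemma dt_nonneg (u : Fin 3 → ℝ) : 0 ≤ dt u u := by
  unfold dt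
  exact Finset.sum_nonneg fun i _ => mul_self_nonneg _

lemma dt_zero {u : Fin 3 → ℝ} (h : dt u u = 0) : u = 0 := by
  unfold dt at h
  rw [Finset.sum_eq_zero_iff_of_nonneg fun i _ => mul_self_nonneg _] at h
  funext i
  exact mul_self_eq_zero.1 (h i (Finset.mem_univ i))

lemma pr_comb (M : Fin 3 × Fin 3 → ℝ) (u v : Fin 3 → ℝ) (a c : ℝ) :
    pr M (out (a • u + c • v)) = a ^ 2 * pr M (out u) +
      a * c * (pr M (out (u + v)) - pr M (out u) - pr M (out v)) + c ^ 2 * pr M (out v) := by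
  unfold pr out
  simp only [Fintype.sum_prod_type, Fin.sum_univ_three, Pi.add_apply, Pi.smul_apply, smul_eq_mul]
  ring

lemma dt_comb (u v : Fin 3 → ℝ) (a c : ℝ) :
    dt (a • u + c • v) (a • u + c • v) = a ^ 2 * dt u u + a * c * (dt (u + v) (u + v) - dt u u - dt v v)
      + c ^ 2 * dt v v := by
  unfold dt
  simp only [Fin.sum_univ_three, Pi.add_apply, Pi.smul_apply, smul_eq_mul]
  ring

lemma pr_smul (M : Fin 3 × Fin 3 → ℝ) (u : Fin 3 → ℝ) (a : ℝ) :
    pr M (out (a • u)) = a ^ 2 * pr M (out u) := by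
  unfold pr out
  simp only [Fintype.sum_prod_type, Fin.sum_univ_three, Pi.smul_apply, smul_eq_mul]
  ring

lemma dt_smul (u : Fin 3 → ℝ) (a : ℝ) : dt (a • u) (a • u) = a ^ 2 * dt u u := by
  unfold dt
  simp only [Fin.sum_univ_three, Pi.smul_apply, smul_eq_mul]
  ring

/-- near a projector the quadratic form is close to that of the projector -/
lemma pr_near {M P : Fin 3 × Fin 3 → ℝ} (h : dist M P ≤ 1 / 10) (v : Fin 3 → ℝ) :
    |pr M (out v) - pr P (out v)| ≤ 3 / 10 * dt v v := by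
  have h1 : pr M (out v) - pr P (out v) = ∑ p : Fin 3 × Fin 3, (M p - P p) * (v p.1 * v p.2) := by
    unfold pr out
    rw [← Finset.sum_sub_distrib]
    exact Finset.sum_congr rfl fun p _ => by ring
  rw [h1]
  calc |∑ p : Fin 3 × Fin 3, (M p - P p) * (v p.1 * v p.2)|
      ≤ ∑ p : Fin 3 × Fin 3, |(M p - P p) * (v p.1 * v p.2)| := Finset.abs_sum_le_sum_abs _ _
    _ ≤ ∑ p : Fin 3 × Fin 3, 1 / 10 * (|v p.1| * |v p.2|) := by
        refine Finset.sum_le_sum fun p _ => ?_
        rw [abs_mul, abs_mul]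
        refine mul_le_mul_of_nonneg_right ?_ (by positivity)
        have := (dist_le_pi_dist M P p).trans h
        rwa [Real.dist_eq] at this
    _ ≤ 3 / 10 * dt v v := by
        unfold dt
        simp only [Fintype.sum_prod_type, Fin.sum_univ_three]
        have e0 := abs_mul_abs_self (v 0)
        have e1 := abs_mul_abs_self (v 1)
        have e2 := abs_mul_abs_self (v 2)
        nlinarith [sq_nonneg (|v 0| - |v 1|), sq_nonneg (|v 1| - |v 2|), sq_nonneg (|v 0| - |v 2|)]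

/-- `P` maximises the pairing with `M` -/
def IsMx (M P : Fin 3 × Fin 3 → ℝ) : Prop := P ∈ PP ∧ ∀ P' ∈ PP, pr M P' ≤ pr M P

lemma exists_mx (M : Fin 3 × Fin 3 → ℝ) : ∃ P, IsMx M P := by
  have hne : PP.Nonempty := by
    refine ⟨out ![1, 0, 0], ![1, 0, 0], ?_, rfl⟩
    show ∑ i, (![1, 0, 0] : Fin 3 → ℝ) i ^ 2 = 1
    simp [Fin.sum_univ_three]
  have hc : Continuous (fun P => pr M P) := by
    unfold pr
    fun_prop
  obtain ⟨P, hP, hmax⟩ := PP_compact.exists_isMaxOn hne hc.continuousOn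
  exact ⟨P, hP, fun P' hP' => hmax hP'⟩

lemma mx_unique {M P1 P2 : Fin 3 × Fin 3 → ℝ} (hM : M ∈ Metric.cthickening (1 / 10) PP)
    (h1 : IsMx M P1) (h2 : IsMx M P2) : P1 = P2 := by
  obtain ⟨⟨u1, hu1, rfl⟩, hm1⟩ := h1
  obtain ⟨⟨u2, hu2, rfl⟩, hm2⟩ := h2
  rw [PP_compact.cthickening_eq_biUnion_closedBall (by norm_num)] at hM
  simp only [mem_iUnion, Metric.mem_closedBall] at hM
  obtain ⟨P0, ⟨u0, hu0, rfl⟩, hd⟩ := hM
  set μ := pr M (out u1) with hμ
  have hμ2 : pr M (out u2) = μ :=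
    le_antisymm (hm1 _ ⟨u2, hu2, rfl⟩) (hm2 _ ⟨u1, hu1, rfl⟩)
  have hd1 := dt_self hu1
  have hd2 := dt_self hu2
  have hd0 := dt_self hu0
  -- homogeneity
  have hle : ∀ v, pr M (out v) ≤ μ * dt v v := by
    intro v
    by_cases hv : dt v v = 0
    · rw [dt_zero hv]
      simp [pr, out, dt]
    · have hpos : 0 < dt v v := lt_of_le_of_ne (dt_nonneg v) (Ne.symm hv)
      set a := (Real.sqrt (dt v v))⁻¹ with ha
      have hs : Real.sqrt (dt v v) ^ 2 = dt v v := Real.sq_sqrt hpos.le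
      have ha2 : a ^ 2 * dt v v = 1 := by
        rw [ha, inv_pow, hs, inv_mul_cancel₀ hv]
      have hmem : a • v ∈ sph 3 := by
        show ∑ i, (a • v) i ^ 2 = 1
        have : ∑ i, (a • v) i ^ 2 = dt (a • v) (a • v) := by
          unfold dt
          exact Finset.sum_congr rfl fun i _ => by ring
        rw [this, dt_smul, ha2]
      have h3 := hm1 _ ⟨a • v, hmem, rfl⟩
      rw [pr_smul] at h3
      have h4 : a ^ 2 * pr M (out v) * dt v v ≤ μ * dt v v := mul_le_mul_of_nonneg_right h3 hpos.le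
      calc pr M (out v) = a ^ 2 * dt v v * pr M (out v) := by rw [ha2, one_mul]
        _ = a ^ 2 * pr M (out v) * dt v v := by ring
        _ ≤ _ := h4
  -- lower bound for μ
  have hμ0 : 7 / 10 ≤ μ := by
    have h3 := hle u0
    have h4 := (abs_le.1 (pr_near hd u0)).1
    rw [pr_out, hd0] at h4
    rw [hd0] at h3
    linarith
  -- polar form vanishes
  have hpol : ∀ a c : ℝ, pr M (out (a • u1 + c • u2)) = μ * dt (a • u1 + c • u2) (a • u1 + c • u2) := by
    have hb : (pr M (out (u1 + u2)) - pr M (out u1) - pr M (out u2)) =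
        μ * (dt (u1 + u2) (u1 + u2) - dt u1 u1 - dt u2 u2) := by
      have e1 := hle ((1 : ℝ) • u1 + (1 : ℝ) • u2)
      have e2 := hle ((1 : ℝ) • u1 + (-1 : ℝ) • u2)
      rw [pr_comb, dt_comb, ← hμ, hμ2, hd1, hd2] at e1 e2
      rw [← hμ, hμ2, hd1, hd2]
      apply le_antisymm <;> linarith
    intro a c
    rw [pr_comb, dt_comb, hb, ← hμ, hμ2, hd1, hd2]
    ring
  set a := dt u2 u0 with ha
  set c := - dt u1 u0 with hc
  set w := a • u1 + c • u2 with hw
  have hwu0 : dt u0 w = 0 := by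
    rw [hw, ha, hc]
    unfold dt
    simp only [Fin.sum_univ_three, Pi.add_apply, Pi.smul_apply, smul_eq_mul]
    ring
  have hw0 : w = 0 := by
    apply dt_zero
    have h3 := hpol a c
    have h4 := (abs_le.1 (pr_near hd w)).2
    rw [pr_out, hwu0] at h4
    rw [← hw] at h3
    rw [h3] at h4
    have h5 := dt_nonneg w
    nlinarith
  -- not both zero
  have hac : a ^ 2 = c ^ 2 := by
    have h3 : a • u1 = (-c) • u2 := by
      have : a • u1 + c • u2 = 0 := hw0
      rw [neg_smul]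
      exact eq_neg_of_add_eq_zero_left this
    have h4 : dt (a • u1) (a • u1) = dt ((-c) • u2) ((-c) • u2) := by rw [h3]
    rw [dt_smul, dt_smul, hd1, hd2] at h4
    linarith
  have hc0 : c ^ 2 ≠ 0 := by
    intro h
    have h3 : dt u1 u0 = 0 := by
      have : c = 0 := by simpa using h
      rw [hc] at this
      linarith
    have h4 := (abs_le.1 (pr_near hd u1)).2
    have h5 : dt u0 u1 = dt u1 u0 := by
      unfold dt
      exact Finset.sum_congr rfl fun i _ => mul_comm _ _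
    rw [pr_out, h5, h3, hd1] at h4
    linarith
  funext p
  have h3 : ∀ i, a * u1 i = - (c * u2 i) := by
    intro i
    have := congrFun hw0 i
    simp only [hw, Pi.add_apply, Pi.smul_apply, smul_eq_mul, Pi.zero_apply] at this
    linarith
  have h4 : c ^ 2 * (u1 p.1 * u1 p.2) = c ^ 2 * (u2 p.1 * u2 p.2) := by
    calc c ^ 2 * (u1 p.1 * u1 p.2) = (a * u1 p.1) * (a * u1 p.2) := by rw [← hac]; ring
      _ = c ^ 2 * (u2 p.1 * u2 p.2) := by rw [h3, h3]; ring
  exact mul_left_cancel₀ hc0 h4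

theorem nr_PP : NR PP := by
  classical
  choose r hr using exists_mx
  refine ⟨PP_compact, ?_, 1 / 10, by norm_num, r, ?_, fun M _ => (hr M).1, ?_⟩
  · exact ⟨r 0, (hr 0).1⟩
  · intro M hM
    refine PP_compact.tendsto_nhds_of_unique_mapClusterPt
      (Eventually.of_forall fun M' => (hr M').1) fun P' hP' hcl => ?_
    rw [mapClusterPt_iff_ultrafilter] at hcl
    obtain ⟨U, hU, hUt⟩ := hcl
    have hid : Tendsto (fun M' : Fin 3 × Fin 3 → ℝ => M') U (𝓝 M) :=
      hU.trans nhdsWithin_le_nhds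
    refine mx_unique hM ⟨hP', fun P hP => ?_⟩ (hr M)
    have t1 : Tendsto (fun M' => pr M' P) U (𝓝 (pr M P)) :=
      (pr_continuous.tendsto (M, P)).comp (hid.prodMk_nhds tendsto_const_nhds)
    have t2 : Tendsto (fun M' => pr M' (r M')) U (𝓝 (pr M P')) :=
      (pr_continuous.tendsto (M, P')).comp (hid.prodMk_nhds hUt)
    exact le_of_tendsto_of_tendsto' t1 t2 fun M' => (hr M').2 P hP
  · rintro _ ⟨u0, hu0, rfl⟩
    refine mx_unique (Metric.self_subset_cthickening _ ⟨u0, hu0, rfl⟩) (hr _) ⟨⟨u0, hu0, rfl⟩, ?_⟩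
    rintro _ ⟨v, hv, rfl⟩
    rw [pr_out, pr_out, dt_self hu0]
    have h1 := Finset.sum_mul_sq_le_sq_mul_sq (Finset.univ : Finset (Fin 3)) u0 v
    have h2 : ∑ i, u0 i ^ 2 = 1 := hu0
    have h3 : ∑ i, v i ^ 2 = 1 := hv
    rw [h2, h3] at h1
    unfold dt
    linarith

end Pool.Agent.Helper220.MG.JNrPP
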