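import Pool.Agent.Helper220.MG.Core

set_option autoImplicit false

namespace Pool.Agent.Helper220.MG.JNrSph

open Set Topology Filter TopologicalSpace

theorem nr_sph (m : ℕ) : NR (sph (m + 1)) := by
  have hcomp : IsCompact (sph (m+1)) := by
    have hcl : IsClosed (sph (m+1)) := by
      unfold sph
      exact isClosed_eq (by fun_prop) continuous_const
    refine Metric.isCompact_of_isClosed_isBounded hcl ?_
    refine (Metric.isBounded_iff_subset_closedBall 0).2 ⟨1, ?_⟩
    intro u hu
    rw [mem_closedBall_zero_iff, pi_norm_le_iff_of_nonneg zero_le_one]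
    intro i
    have h1 : u i ^ 2 ≤ ∑ j, u j ^ 2 :=
      Finset.single_le_sum (f := fun j => u j ^ 2) (fun j _ => sq_nonneg (u j)) (Finset.mem_univ i)
    have h2 : ∑ j, u j ^ 2 = 1 := hu
    rw [h2] at h1
    rw [Real.norm_eq_abs]
    exact abs_le_one_iff_mul_self_le_one.2 (by nlinarith)
  refine ⟨hcomp, ?_, ?_⟩
  · refine ⟨Pi.single 0 1, ?_⟩
    show ∑ i, (Pi.single (0 : Fin (m+1)) (1:ℝ) : Fin (m+1) → ℝ) i ^ 2 = 1
    rw [Finset.sum_eq_single (0 : Fin (m+1))]
    · simp
    · intro b _ hb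
      simp [Pi.single_eq_of_ne hb]
    · intro h; exact absurd (Finset.mem_univ _) h
  · have hm : (0:ℝ) < (m:ℝ) + 1 := by positivity
    refine ⟨1 / (4 * ((m:ℝ) + 1)), by positivity, ?_⟩
    have hpos : ∀ v ∈ Metric.cthickening (1 / (4 * ((m:ℝ) + 1))) (sph (m+1)),
        0 < ∑ j, v j ^ 2 := by
      intro v hv
      rw [hcomp.cthickening_eq_biUnion_closedBall (by positivity)] at hv
      simp only [mem_iUnion, Metric.mem_closedBall, exists_prop] at hv
      obtain ⟨u, hu, hvu⟩ := hv
      rcases (Finset.sum_nonneg (fun j (_ : j ∈ Finset.univ) => sq_nonneg (v j))).lt_or_eq with h | h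
      · exact h
      · exfalso
        have hz : ∀ j, v j = 0 := by
          intro j
          have := (Finset.sum_eq_zero_iff_of_nonneg (fun j (_ : j ∈ Finset.univ) => sq_nonneg (v j))).1 h.symm j (Finset.mem_univ j)
          exact pow_eq_zero_iff (two_ne_zero) |>.1 this
        have hb : ∀ j, u j ^ 2 ≤ (1 / (4 * ((m:ℝ) + 1))) ^ 2 := by
          intro j
          have h1 : dist (v j) (u j) ≤ 1 / (4 * ((m:ℝ) + 1)) := (dist_le_pi_dist v u j).trans hvu
          rw [hz j, Real.dist_eq, zero_sub, abs_neg] at h1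
          rw [← sq_abs (u j)]
          exact pow_le_pow_left₀ (abs_nonneg _) h1 2
        have hs : ∑ j, u j ^ 2 ≤ ∑ _j : Fin (m+1), (1 / (4 * ((m:ℝ) + 1))) ^ 2 :=
          Finset.sum_le_sum (fun j _ => hb j)
        have h1 : ∑ j, u j ^ 2 = 1 := hu
        rw [h1, Finset.sum_const, Finset.card_univ, Fintype.card_fin, nsmul_eq_mul] at hs
        push_cast at hs
        have h2 : ((m:ℝ) + 1) * (1 / (4 * ((m:ℝ) + 1))) ^ 2 = 1 / (16 * ((m:ℝ) + 1)) := by
          field_simp; norm_num
        rw [h2] at hs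
        have h3 : 1 / (16 * ((m:ℝ) + 1)) < 1 := by
          rw [div_lt_one (by positivity)]
          have : (0:ℝ) ≤ m := Nat.cast_nonneg m
          linarith
        linarith
    refine ⟨fun v i => v i / Real.sqrt (∑ j, v j ^ 2), ?_, ?_, ?_⟩
    · refine continuousOn_pi.2 (fun i => ?_)
      refine ContinuousOn.div (by fun_prop) (by fun_prop) ?_
      intro v hv
      exact (Real.sqrt_pos.2 (hpos v hv)).ne'
    · intro v hv
      show ∑ i, (v i / Real.sqrt (∑ j, v j ^ 2)) ^ 2 = 1
      have h1 := hpos v hv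
      simp_rw [div_pow]
      rw [Real.sq_sqrt h1.le, ← Finset.sum_div, div_self h1.ne']
    · intro x hx
      have h1 : ∑ j, x j ^ 2 = 1 := hx
      funext i
      simp [h1]

/-- the projective plane is path connected -/
theorem pathConnected_PP : IsPathConnected PP := by
  have hr : 1 < Module.rank ℝ (EuclideanSpace ℝ (Fin 3)) := by
    rw [← Module.finrank_eq_rank]
    rw [finrank_euclideanSpace_fin]
    norm_num
  have h1 : IsPathConnected (Metric.sphere (0 : EuclideanSpace ℝ (Fin 3)) 1) :=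
    isPathConnected_sphere hr 0 zero_le_one
  have h2 : sph 3 = (fun x : EuclideanSpace ℝ (Fin 3) => (x.ofLp : Fin 3 → ℝ)) ''
      (Metric.sphere (0 : EuclideanSpace ℝ (Fin 3)) 1) := by
    ext u
    constructor
    · intro hu
      refine ⟨WithLp.toLp 2 u, ?_, rfl⟩
      rw [mem_sphere_zero_iff_norm, EuclideanSpace.norm_eq]
      have h3 : ∑ i, u i ^ 2 = 1 := hu
      simp [h3]
    · rintro ⟨x, hx, rfl⟩
      rw [mem_sphere_zero_iff_norm, EuclideanSpace.norm_eq] at hx
      show ∑ i, x i ^ 2 = 1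
      have h3 : (∑ i, ‖x i‖ ^ 2) = 1 := by
        rw [Real.sqrt_eq_one] at hx; exact hx
      simpa using h3
  unfold PP
  rw [h2]
  have hc : Continuous (fun x : EuclideanSpace ℝ (Fin 3) => (x.ofLp : Fin 3 → ℝ)) := by fun_prop
  refine (h1.image hc).image ?_
  unfold out
  fun_prop

end Pool.Agent.Helper220.MG.JNrSph
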