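import Pool.Agent.Helper220.MG.Core

set_option autoImplicit false

namespace Pool.Agent.Helper220.MG.JSph

open Set Topology Filter TopologicalSpace

theorem s_perf {X : Type} [MetricSpace X] (V : Set X) (hV : IsOpen V) :
    ∃ ψ : X → ℝ, Continuous ψ ∧ (∀ x, 0 ≤ ψ x ∧ ψ x ≤ 1) ∧ ∀ x, ψ x = 0 ↔ x ∉ V := by
  by_cases h : (Vᶜ).Nonempty
  · refine ⟨fun x => min 1 (Metric.infDist x Vᶜ),
      continuous_const.min (Metric.continuous_infDist_pt _),
      fun x => ⟨le_min zero_le_one Metric.infDist_nonneg, min_le_left _ _⟩, fun x => ?_⟩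
    have h1 : x ∈ Vᶜ ↔ Metric.infDist x Vᶜ = 0 :=
      hV.isClosed_compl.mem_iff_infDist_zero h
    constructor
    · intro h2
      have h3 : min 1 (Metric.infDist x Vᶜ) = 0 := h2
      have h4 : Metric.infDist x Vᶜ = 0 := by
        rcases min_choice 1 (Metric.infDist x Vᶜ) with h5 | h5
        · rw [h5] at h3
          norm_num at h3
        · rw [h5] at h3
          exact h3
      exact h1.2 h4
    · intro h2
      have h3 : Metric.infDist x Vᶜ = 0 := h1.1 h2
      change min 1 (Metric.infDist x Vᶜ) = 0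
      rw [h3]
      norm_num
  · refine ⟨fun _ => 1, continuous_const, fun x => ⟨zero_le_one, le_refl _⟩, fun x => ?_⟩
    constructor
    · intro h2
      norm_num at h2
    · intro h2
      exact absurd ⟨x, h2⟩ h

theorem s_tfun {X : Type} [MetricSpace X] (V A : Set X) (hV : IsOpen V) (hA : IsClosed A)
    (hAV : A ⊆ V) :
    ∃ t : X → ℝ, Continuous t ∧ (∀ x, 0 ≤ t x ∧ t x ≤ 1) ∧ (∀ x, t x = 0 ↔ x ∉ V) ∧
      ∀ x ∈ A, t x = 1 := by
  obtain ⟨ψ, hψc, hψ1, hψ⟩ := s_perf V hV
  have hd : Disjoint Vᶜ A := by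
    rw [Set.disjoint_left]
    intro x hx hxA
    exact hx (hAV hxA)
  obtain ⟨u, hu0, hu1, hu⟩ := exists_continuous_zero_one_of_isClosed hV.isClosed_compl hA hd
  refine ⟨fun x => max (ψ x) (u x), hψc.max u.continuous, fun x => ⟨?_, ?_⟩, fun x => ?_, ?_⟩
  · exact le_max_of_le_left (hψ1 x).1
  · exact max_le (hψ1 x).2 (hu x).2
  · constructor
    · intro h
      have h1 : max (ψ x) (u x) = 0 := h
      have h2 : ψ x ≤ 0 := by rw [← h1]; exact le_max_left _ _
      exact (hψ x).1 (le_antisymm h2 (hψ1 x).1)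
    · intro h
      have h1 : ψ x = 0 := (hψ x).2 h
      have h2 : u x = 0 := hu0 h
      change max (ψ x) (u x) = 0
      rw [h1, h2]
      exact max_self _
  · intro x hx
    have h2 : u x = 1 := hu1 hx
    change max (ψ x) (u x) = 1
    rw [h2]
    exact max_eq_right (hψ1 x).2

theorem s_coord {X : Type} [MetricSpace X] (φ : X → ℝ) (hφ : Continuous φ) {η : ℝ} (hη : 0 < η)
    (T : Set X) (hT : ∀ {A B : Set X} (_ : IsClosed A) (_ : IsClosed B) (_ : Disjoint A B),
      ∃ V : Set X, IsOpen V ∧ A ⊆ V ∧ Disjoint V B ∧ Disjoint (frontier V) T) :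
    ∃ G : X → ℝ, Continuous G ∧ (∀ x, |G x - φ x| ≤ 2 * η) ∧ ∀ x ∈ T, G x ≠ 0 := by
  have hA : IsClosed {x | η ≤ φ x} := isClosed_le continuous_const hφ
  have hC' : IsClosed {x | φ x ≤ -(η / 2)} := isClosed_le hφ continuous_const
  have hC : IsClosed {x | φ x ≤ -η} := isClosed_le hφ continuous_const
  have hO : IsOpen {x | φ x < -(η / 2)} := isOpen_lt hφ continuous_const
  obtain ⟨V, hV, hAV, hVC, hVT⟩ := hT hA hC' (by
    rw [Set.disjoint_left]
    intro x hx hx2
    have h1 : η ≤ φ x := hx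
    have h2 : φ x ≤ -(η / 2) := hx2
    linarith)
  have hW : IsOpen (closure V)ᶜ := isClosed_closure.isOpen_compl
  have hCW : {x | φ x ≤ -η} ⊆ (closure V)ᶜ := by
    have h1 : Disjoint V {x | φ x < -(η / 2)} := by
      refine hVC.mono_right ?_
      intro x hx
      have h3 : φ x < -(η / 2) := hx
      exact h3.le
    have h2 : Disjoint (closure V) {x | φ x < -(η / 2)} := h1.closure_left hO
    intro x hx hx2
    have h3 : φ x ≤ -η := hx
    exact Set.disjoint_left.1 h2 hx2 (by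
      have : φ x < -(η / 2) := by linarith
      exact this)
  obtain ⟨p, hpc, hp1, hp0, hpA⟩ := s_tfun V _ hV hA hAV
  obtain ⟨q, hqc, hq1, hq0, hqC⟩ := s_tfun _ _ hW hC hCW
  have hVW : ∀ x ∈ V, x ∉ (closure V)ᶜ := fun x hx h => h (subset_closure hx)
  refine ⟨fun x => φ x - max (-η) (min (φ x) η) + η * (p x - q x), ?_, ?_, ?_⟩
  · exact (hφ.sub (continuous_const.max (hφ.min continuous_const))).add
      (continuous_const.mul (hpc.sub hqc))
  · intro x
    have h1 : max (-η) (min (φ x) η) ≤ η := max_le (by linarith) (min_le_right _ _)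
    have h2 : -η ≤ max (-η) (min (φ x) η) := le_max_left _ _
    have h3 := hp1 x
    have h4 := hq1 x
    rw [abs_le]
    constructor
    · nlinarith
    · nlinarith
  · intro x hxT h0
    have h0' : φ x - max (-η) (min (φ x) η) + η * (p x - q x) = 0 := h0
    by_cases c1 : η ≤ φ x
    · have h1 : p x = 1 := hpA x c1
      have h2 : q x = 0 := (hq0 x).2 (hVW x (hAV c1))
      rw [min_eq_right c1, max_eq_right (by linarith), h1, h2] at h0'
      linarith
    · by_cases c2 : φ x ≤ -η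
      · have h1 : q x = 1 := hqC x c2
        have h3 : x ∉ V := fun h => hVW x h (hCW c2)
        have h2 : p x = 0 := (hp0 x).2 h3
        rw [min_eq_left (by linarith), max_eq_left c2, h1, h2] at h0'
        linarith
      · rw [not_le] at c1 c2
        rw [min_eq_left c1.le, max_eq_right c2.le] at h0'
        have h1 : p x = q x := by
          have : η * (p x - q x) = 0 := by linarith
          rcases mul_eq_zero.1 this with h | h
          · exact absurd h hη.ne'
          · linarith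
        have h2 : x ∉ V := by
          intro h
          have h3 : q x = 0 := (hq0 x).2 (hVW x h)
          rw [h3] at h1
          exact (hp0 x).1 h1 h
        have h3 : x ∈ closure V := by
          by_contra h
          have h4 : p x = 0 := (hp0 x).2 h2
          rw [h4] at h1
          exact (hq0 x).1 h1.symm h
        have h4 : x ∈ frontier V := by
          rw [frontier, hV.interior_eq]
          exact ⟨h3, h2⟩
        exact Set.disjoint_left.1 hVT h4 hxT

theorem s_norm_est {m : ℕ} {v w : Fin (m + 1) → ℝ} {η δ : ℝ} (hη : 0 < η)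
    (h1 : 20 * ((m : ℝ) + 1) * η ≤ 1) (h2 : 20 * ((m : ℝ) + 1) * η ≤ δ)
    (hv : ∑ i, v i ^ 2 = 1) (hw : ∀ i, |w i - v i| ≤ 2 * η) :
    dist v (fun i => w i / √(∑ i, w i ^ 2)) ≤ δ := by
  have hm : (1 : ℝ) ≤ (m : ℝ) + 1 := by
    have : (0 : ℝ) ≤ (m : ℝ) := Nat.cast_nonneg m
    linarith
  have hη1 : 20 * η ≤ 1 := by nlinarith
  have hv1 : ∀ i, |v i| ≤ 1 := by
    intro i
    rw [← sq_le_one_iff_abs_le_one, ← hv]
    exact Finset.single_le_sum (f := fun i => v i ^ 2) (fun i _ => sq_nonneg _)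
      (Finset.mem_univ i)
  have hterm : ∀ i, |w i ^ 2 - v i ^ 2| ≤ 8 * η := by
    intro i
    have e1 : w i ^ 2 - v i ^ 2 = (w i - v i) * ((w i - v i) + 2 * v i) := by ring
    rw [e1, abs_mul]
    have e2 : |(w i - v i) + 2 * v i| ≤ 4 := by
      refine (abs_add_le _ _).trans ?_
      rw [abs_mul]
      have := hw i
      have := hv1 i
      norm_num
      linarith
    have e3 := hw i
    have e4 := abs_nonneg (w i - v i)
    nlinarith [abs_nonneg ((w i - v i) + 2 * v i)]
  have hS : |(∑ i, w i ^ 2) - 1| ≤ 8 * ((m : ℝ) + 1) * η := by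
    have e0 : (∑ i, w i ^ 2) - 1 = ∑ i, (w i ^ 2 - v i ^ 2) := by
      rw [Finset.sum_sub_distrib, hv]
    rw [e0]
    refine (Finset.abs_sum_le_sum_abs _ _).trans ?_
    refine (Finset.sum_le_sum (fun i _ => hterm i)).trans ?_
    rw [Finset.sum_const, Finset.card_univ, Fintype.card_fin, nsmul_eq_mul]
    push_cast
    linarith
  obtain ⟨S, hSd⟩ : ∃ S, S = ∑ i, w i ^ 2 := ⟨_, rfl⟩
  rw [← hSd] at hS ⊢
  obtain ⟨N, hN⟩ : ∃ N, N = √S := ⟨_, rfl⟩
  rw [← hN]
  have hS' := abs_le.1 hS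
  have hSpos : 1 / 2 ≤ S := by nlinarith
  have hN0 : 0 ≤ N := by rw [hN]; exact Real.sqrt_nonneg _
  have hNS : N ^ 2 = S := by rw [hN]; exact Real.sq_sqrt (by linarith)
  have hNh : 1 / 2 ≤ N := by nlinarith
  have hN1 : |N - 1| ≤ 8 * ((m : ℝ) + 1) * η := by
    have e1 : |N - 1| * (N + 1) = |S - 1| := by
      rw [← hNS]
      have : N ^ 2 - 1 = (N - 1) * (N + 1) := by ring
      rw [this, abs_mul, abs_of_nonneg (by linarith : (0 : ℝ) ≤ N + 1)]
    have e2 : |N - 1| ≤ |N - 1| * (N + 1) := by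
      have := abs_nonneg (N - 1)
      nlinarith
    linarith
  rw [dist_pi_le_iff (by nlinarith)]
  intro i
  have e0 : dist (v i) (w i / N) = |v i * N - w i| / N := by
    rw [Real.dist_eq, ← abs_of_nonneg hN0, ← abs_div, abs_of_nonneg hN0]
    congr 1
    have : N ≠ 0 := by linarith
    field_simp
  rw [e0, div_le_iff₀ (by linarith)]
  have e1 : v i * N - w i = v i * (N - 1) - (w i - v i) := by ring
  have e2 : |v i * N - w i| ≤ 8 * ((m : ℝ) + 1) * η + 2 * η := by
    rw [e1]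
    refine (abs_sub _ _).trans ?_
    rw [abs_mul]
    have a1 := hv1 i
    have a2 := hw i
    have a3 := abs_nonneg (v i)
    have a4 := abs_nonneg (N - 1)
    nlinarith
  nlinarith

/-- spaces covered by `m + 1` zero-dimensional subsets: maps into the `m`-sphere extend -/
theorem sph_ae {m : ℕ} {X : Type} [TopologicalSpace X] [SecondCountableTopology X]
    [MetrizableSpace X] (h : ZC (m + 1) X)
    (zd_ambient : ∀ {T : Set X} (_ : ZD ↥T) {A B : Set X} (_ : IsClosed A)
      (_ : IsClosed B) (_ : Disjoint A B),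
      ∃ V : Set X, IsOpen V ∧ A ⊆ V ∧ Disjoint V B ∧ Disjoint (frontier V) T)
    (near_extend : ∃ δ : ℝ, 0 < δ ∧ ∀ (B : Set X), IsClosed B →
      ∀ (f g : X → (Fin (m + 1) → ℝ)), ContinuousOn f B → MapsTo f B (sph (m + 1)) →
        Continuous g → (∀ x, g x ∈ sph (m + 1)) → (∀ x ∈ B, dist (f x) (g x) ≤ δ) →
        ∃ h : X → (Fin (m + 1) → ℝ), Continuous h ∧ (∀ x, h x ∈ sph (m + 1)) ∧ EqOn h f B) :
    AE (sph (m + 1)) X := by
  classical
  letI : MetricSpace X := TopologicalSpace.metrizableSpaceMetric X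
  obtain ⟨E, hE, hZD⟩ := h
  obtain ⟨δ, hδ, hext⟩ := near_extend
  intro B hB f hf hfS
  obtain ⟨F, hFc, hFB⟩ : ∃ F : X → (Fin (m + 1) → ℝ), Continuous F ∧ EqOn F f B := by
    obtain ⟨g, hg⟩ := ContinuousMap.exists_restrict_eq hB
      (⟨B.restrict f, hf.restrict⟩ : C(B, Fin (m + 1) → ℝ))
    refine ⟨g, g.continuous, fun x hx => ?_⟩
    have := DFunLike.congr_fun hg ⟨x, hx⟩
    exact this
  have hm : (0 : ℝ) < (m : ℝ) + 1 := by
    have : (0 : ℝ) ≤ (m : ℝ) := Nat.cast_nonneg m
    linarith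
  obtain ⟨η, hη, hη1, hη2⟩ : ∃ η : ℝ, 0 < η ∧ 20 * ((m : ℝ) + 1) * η ≤ 1 ∧
      20 * ((m : ℝ) + 1) * η ≤ δ := by
    refine ⟨min 1 δ / (20 * ((m : ℝ) + 1)), by positivity, ?_, ?_⟩
    · rw [mul_div_cancel₀ _ (by positivity)]
      exact min_le_left _ _
    · rw [mul_div_cancel₀ _ (by positivity)]
      exact min_le_right _ _
  have hco : ∀ i : Fin (m + 1), ∃ G : X → ℝ, Continuous G ∧ (∀ x, |G x - F x i| ≤ 2 * η) ∧
      ∀ x ∈ E i, G x ≠ 0 := by
    intro i
    exact s_coord (fun x => F x i) ((continuous_apply i).comp hFc) hη (E i)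
      (fun hA hB hd => zd_ambient (hZD i) hA hB hd)
  choose G hGc hGF hG0 using hco
  have hSc : Continuous (fun x => √(∑ i, G i x ^ 2)) := by
    refine Real.continuous_sqrt.comp ?_
    exact continuous_finsetSum _ (fun i _ => (hGc i).pow 2)
  have hSp : ∀ x, 0 < ∑ i, G i x ^ 2 := by
    intro x
    obtain ⟨i, hi⟩ := hE x
    refine Finset.sum_pos' (fun i _ => sq_nonneg _) ⟨i, Finset.mem_univ i, ?_⟩
    have := hG0 i x hi
    positivity
  have hSq : ∀ x, 0 < √(∑ i, G i x ^ 2) := fun x => Real.sqrt_pos.2 (hSp x)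
  refine hext B hB f (fun x i => G i x / √(∑ i, G i x ^ 2)) hf hfS ?_ ?_ ?_
  · refine continuous_pi (fun i => ?_)
    exact (hGc i).div hSc (fun x => (hSq x).ne')
  · intro x
    change ∑ i, (G i x / √(∑ i, G i x ^ 2)) ^ 2 = 1
    have : ∀ i, (G i x / √(∑ i, G i x ^ 2)) ^ 2 = G i x ^ 2 / (∑ i, G i x ^ 2) := by
      intro i
      rw [div_pow, Real.sq_sqrt (hSp x).le]
    simp_rw [this]
    rw [← Finset.sum_div, div_self (hSp x).ne']
  · intro x hx
    refine s_norm_est (v := f x) (w := fun i => G i x) hη hη1 hη2 (hfS hx) ?_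
    intro i
    have := hGF i x
    rw [hFB hx] at this
    exact this

end Pool.Agent.Helper220.MG.JSph
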