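import Pool.Agent.Helper220.MG.Core

set_option autoImplicit false

namespace Pool.Agent.Helper220.MG.JSum

open Set Topology Filter TopologicalSpace

/-- countable closed sum theorem -/
theorem ae_sum {ι : Type} [Fintype ι] {L : Set (ι → ℝ)} (hne : L.Nonempty)
    {X : Type} [TopologicalSpace X]
    (hnb : ∀ (B : Set X) (f : X → (ι → ℝ)), IsClosed B → ContinuousOn f B → MapsTo f B L →
      ∃ (B' : Set X) (f' : X → (ι → ℝ)), IsClosed B' ∧ B ⊆ interior B' ∧ ContinuousOn f' B' ∧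
        MapsTo f' B' L ∧ EqOn f' f B)
    (F : ℕ → Set X) (hF : ∀ i, IsClosed (F i)) (hcov : ∀ x, ∃ i, x ∈ F i)
    (hAE : ∀ i, AE L ↥(F i)) : AE L X := by
  classical
  intro B hB f hf hfL
  let St := {p : Set X × (X → (ι → ℝ)) // IsClosed p.1 ∧ ContinuousOn p.2 p.1 ∧ MapsTo p.2 p.1 L}
  have step : ∀ (i : ℕ) (s : St), ∃ s' : St, s.1.1 ∪ F i ⊆ interior s'.1.1 ∧
      EqOn s'.1.2 s.1.2 s.1.1 := by
    rintro i ⟨⟨B, f⟩, hB, hf, hfL⟩
    dsimp only at hB hf hfL ⊢
    have hB0 : IsClosed ((Subtype.val : ↥(F i) → X) ⁻¹' B) := hB.preimage continuous_subtype_val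
    obtain ⟨g, hg, hgL, hgeq⟩ := hAE i _ hB0 (fun x => f x.1)
      (hf.comp continuous_subtype_val.continuousOn (fun x hx => hx)) (fun x hx => hfL hx)
    let f1 : X → (ι → ℝ) := fun x => if h : x ∈ F i then g ⟨x, h⟩ else f x
    have h1 : EqOn f1 f B := by
      intro x hx
      by_cases h : x ∈ F i
      · simp only [f1, dif_pos h]
        exact hgeq (show (⟨x, h⟩ : ↥(F i)) ∈ (Subtype.val : ↥(F i) → X) ⁻¹' B from hx)
      · simp only [f1, dif_neg h]
    have h2 : ∀ (x : X) (h : x ∈ F i), f1 x = g ⟨x, h⟩ := by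
      intro x h
      simp only [f1, dif_pos h]
    have hc1 : ContinuousOn f1 B := hf.congr h1
    have hc2 : ContinuousOn f1 (F i) := by
      rw [continuousOn_iff_continuous_domRestrict]
      have : (F i).domRestrict f1 = g := by
        funext x
        exact h2 x.1 x.2
      rw [this]; exact hg
    have hc : ContinuousOn f1 (B ∪ F i) := hc1.union_of_isClosed hc2 hB (hF i)
    have hm : MapsTo f1 (B ∪ F i) L := by
      rintro x (hx | hx)
      · rw [h1 hx]; exact hfL hx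
      · rw [h2 x hx]; exact hgL _
    obtain ⟨B', f', hB', hsub, hf', hfL', heq⟩ := hnb (B ∪ F i) f1 (hB.union (hF i)) hc hm
    refine ⟨⟨(B', f'), hB', hf', hfL'⟩, hsub, ?_⟩
    intro x hx
    rw [← h1 hx]
    exact heq (Or.inl hx)
  choose nxt hn1 hn2 using step
  let s : ℕ → St := fun n => Nat.rec (⟨(B, f), hB, hf, hfL⟩ : St) (fun n s => nxt n s) n
  have hs1 : ∀ n, (s n).1.1 ∪ F n ⊆ interior (s (n+1)).1.1 := fun n => hn1 n (s n)
  have hs2 : ∀ n, EqOn (s (n+1)).1.2 (s n).1.2 (s n).1.1 := fun n => hn2 n (s n)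
  have hle : ∀ n m, n ≤ m → (s n).1.1 ⊆ (s m).1.1 ∧ EqOn (s m).1.2 (s n).1.2 (s n).1.1 := by
    intro n m hnm
    induction m, hnm using Nat.le_induction with
    | base => exact ⟨Subset.rfl, fun x _ => rfl⟩
    | succ m hm ih =>
      refine ⟨fun x hx => interior_subset (hs1 m (Or.inl (ih.1 hx))), fun x hx => ?_⟩
      rw [hs2 m (ih.1 hx)]
      exact ih.2 hx
  have hcv : ∀ x, ∃ n, x ∈ (s n).1.1 := by
    intro x
    obtain ⟨i, hi⟩ := hcov x
    exact ⟨i + 1, interior_subset (hs1 i (Or.inr hi))⟩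
  choose N hN using hcv
  let g : X → (ι → ℝ) := fun x => (s (N x)).1.2 x
  have key : ∀ n x, x ∈ (s n).1.1 → g x = (s n).1.2 x := by
    intro n x hx
    rcases le_total n (N x) with h | h
    · exact (hle n (N x) h).2 hx
    · exact ((hle (N x) n h).2 (hN x)).symm
  refine ⟨g, ?_, ?_, ?_⟩
  · rw [continuous_iff_continuousAt]
    intro x
    obtain ⟨i, hi⟩ := hcov x
    have hx : x ∈ interior (s (i+1)).1.1 := hs1 i (Or.inr hi)
    have hnh : (s (i+1)).1.1 ∈ 𝓝 x := mem_interior_iff_mem_nhds.1 hx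
    have hca : ContinuousAt (s (i+1)).1.2 x := (s (i+1)).2.2.1.continuousAt hnh
    refine hca.congr ?_
    filter_upwards [hnh] with y hy
    exact (key (i+1) y hy).symm
  · intro x
    exact (s (N x)).2.2.2 (hN x)
  · intro x hx
    exact key 0 x hx

end Pool.Agent.Helper220.MG.JSum
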