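import Pool.Agent.Helper220.MG.ZCl
import Pool.Agent.Helper220.MG.JHE
import Pool.Agent.Helper220.MG.JSum
import Pool.Agent.Helper220.MG.JHer
import Pool.Agent.Helper220.MG.JSph
import Pool.Agent.Helper220.MG.JC2
import Pool.Agent.Helper220.MG.JNrPP
import Pool.Agent.Helper220.MG.JNrSph

set_option autoImplicit false

namespace Pool.Agent.Helper220.MG

open Set Topology Filter TopologicalSpace

theorem near_extend {ι : Type} [Fintype ι] {L : Set (ι → ℝ)} (hL : NR L) :
    ∃ δ : ℝ, 0 < δ ∧ ∀ (X : Type) [TopologicalSpace X] [NormalSpace X] (B : Set X), IsClosed B →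
      ∀ (f g : X → (ι → ℝ)), ContinuousOn f B → MapsTo f B L → Continuous g → (∀ x, g x ∈ L) →
        (∀ x ∈ B, dist (f x) (g x) ≤ δ) →
        ∃ h : X → (ι → ℝ), Continuous h ∧ (∀ x, h x ∈ L) ∧ EqOn h f B := JHE.near_extend hL

theorem ae_sum {ι : Type} [Fintype ι] {L : Set (ι → ℝ)} (hL : NR L)
    {X : Type} [TopologicalSpace X] [NormalSpace X]
    (F : ℕ → Set X) (hF : ∀ i, IsClosed (F i)) (hcov : ∀ x, ∃ i, x ∈ F i)
    (hAE : ∀ i, AE L ↥(F i)) : AE L X :=
  JSum.ae_sum hL.nonempty (fun B f hB hf hfL => JHE.nbhd_extend hL B hB f hf hfL) F hF hcov hAE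

theorem ae_closed {ι : Type} {L : Set (ι → ℝ)} {X : Type} [TopologicalSpace X] (h : AE L X)
    {S : Set X} (hS : IsClosed S) : AE L ↥S := by
  intro B hB f hf hfL
  classical
  by_cases hne : S.Nonempty
  swap
  · refine ⟨f, ?_, ?_, fun x _ => rfl⟩
    · have : IsEmpty ↥S := by
        rw [Set.not_nonempty_iff_eq_empty] at hne
        exact Set.isEmpty_coe_sort.2 hne
      exact continuous_of_discreteTopology
    · intro x
      exact (hne ⟨x, x.2⟩).elim
  obtain ⟨s0, hs0⟩ := hne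
  have hcl : IsClosedEmbedding (Subtype.val : ↥S → X) := hS.isClosedEmbedding_subtypeVal
  let f' : X → (ι → ℝ) := fun x => if hx : x ∈ S then f ⟨x, hx⟩ else f ⟨s0, hs0⟩
  have hf' : ∀ x : ↥S, f' x = f x := by
    intro x
    show (if hx : (x : X) ∈ S then f ⟨x, hx⟩ else f ⟨s0, hs0⟩) = f x
    rw [dif_pos x.2]
  have hB' : IsClosed (Subtype.val '' B) := hcl.isClosedMap _ hB
  obtain ⟨g, h1, h2, h3⟩ := h (Subtype.val '' B) hB' f' (by
    rw [hcl.isInducing.continuousOn_image_iff]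
    refine hf.congr ?_
    intro x _
    exact hf' x) (by
    rintro _ ⟨x, hx, rfl⟩
    rw [hf']
    exact hfL hx)
  refine ⟨fun x => g x, h1.comp continuous_subtype_val, fun x => h2 _, ?_⟩
  intro x hx
  have := h3 (mem_image_of_mem _ hx)
  rw [hf'] at this
  exact this

theorem AE.of_homeo {ι : Type} {L : Set (ι → ℝ)} {X Y : Type} [TopologicalSpace X]
    [TopologicalSpace Y] (e : X ≃ₜ Y) (h : AE L X) : AE L Y := by
  intro B hB f hf hfL
  obtain ⟨g, h1, h2, h3⟩ := h (e ⁻¹' B) (hB.preimage e.continuous) (f ∘ e)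
    (hf.comp e.continuous.continuousOn (fun x hx => hx)) (fun x hx => hfL hx)
  refine ⟨g ∘ e.symm, h1.comp e.symm.continuous, fun y => h2 _, ?_⟩
  intro y hy
  have : e.symm y ∈ e ⁻¹' B := by
    show e (e.symm y) ∈ B
    rw [e.apply_symm_apply]; exact hy
  have h4 := h3 this
  simp only [Function.comp] at h4 ⊢
  rw [h4, e.apply_symm_apply]

theorem ae_open {ι : Type} [Fintype ι] {L : Set (ι → ℝ)} (hL : NR L) {X : Type}
    [TopologicalSpace X] [MetrizableSpace X] (h : AE L X) {O : Set X} (hO : IsOpen O) :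
    AE L ↥O := by
  let _ := metrizableSpaceMetric X
  obtain ⟨F, hF1, hF2, hF3, hF4⟩ := hO.exists_iUnion_isClosed
  refine ae_sum hL (fun n => Subtype.val ⁻¹' (F n)) (fun n => (hF1 n).preimage
    continuous_subtype_val) ?_ ?_
  · rintro ⟨x, hx⟩
    rw [← hF3] at hx
    obtain ⟨n, hn⟩ := mem_iUnion.1 hx
    exact ⟨n, hn⟩
  · intro n
    have h1 : AE L ↥(F n) := ae_closed h (hF1 n)
    refine AE.of_homeo ?_ h1
    refine ⟨⟨fun x => ⟨⟨x.1, hF2 n x.2⟩, x.2⟩, fun x => ⟨x.1.1, x.2⟩, fun x => rfl,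
      fun x => rfl⟩, ?_, ?_⟩
    · exact Continuous.subtype_mk (Continuous.subtype_mk continuous_subtype_val _) _
    · exact Continuous.subtype_mk (continuous_subtype_val.comp continuous_subtype_val) _

theorem ae_subset {ι : Type} [Fintype ι] {L : Set (ι → ℝ)} (hL : NR L)
    {X : Type} [TopologicalSpace X] [MetrizableSpace X] (h : AE L X) (S : Set X) : AE L ↥S := by
  let _ := metrizableSpaceMetric X
  obtain ⟨δ, hδ, hn⟩ := near_extend hL
  exact JHer.ae_subset_of_open hL (fun O hO => ae_open hL h hO) S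
    ⟨δ, hδ, fun B hB f g h1 h2 h3 h4 h5 => hn ↥S B hB f g h1 h2 h3 h4 h5⟩

theorem AE.of_embedding {ι : Type} [Fintype ι] {L : Set (ι → ℝ)} (hL : NR L) {X Y : Type}
    [TopologicalSpace X] [TopologicalSpace Y] [MetrizableSpace Y] (f : X → Y)
    (hf : IsEmbedding f) (h : AE L Y) : AE L X :=
  AE.of_homeo hf.toHomeomorph.symm (ae_subset hL h (range f))

theorem sph_ae {m : ℕ} {X : Type} [TopologicalSpace X] [SecondCountableTopology X]
    [MetrizableSpace X] (h : ZC (m + 1) X) : AE (sph (m + 1)) X := by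
  let _ := metrizableSpaceMetric X
  obtain ⟨δ, hδ, hn⟩ := near_extend (JNrSph.nr_sph m)
  exact JSph.sph_ae h (fun hT _ _ hA hB hAB => zd_ambient hT hA hB hAB)
    ⟨δ, hδ, fun B hB f g h1 h2 h3 h4 h5 => hn X B hB f g h1 h2 h3 h4 h5⟩

end Pool.Agent.Helper220.MG
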