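import Pool.Agent.Helper220.MG.Core

set_option autoImplicit false

namespace Pool.Agent.Helper220.MG.JP5

open Set Topology Filter TopologicalSpace

noncomputable def xx (t : ℝ) : EuclideanSpace ℝ (Fin 2) := !₂[Real.cos t, Real.sin t]

noncomputable def cc (t : ℝ) : Fin 3 → ℝ := ![Real.cos (t / 2), Real.sin (t / 2), 0]

noncomputable def FF (x : EuclideanSpace ℝ (Fin 2)) : Fin 3 × Fin 3 → ℝ := fun p =>
  (!![(1 + x 0) / 2, x 1 / 2, 0; x 1 / 2, (1 - x 0) / 2, 0; 0, 0, 0] : Matrix (Fin 3) (Fin 3) ℝ) p.1 p.2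

theorem xx_cont : Continuous xx := by
  unfold xx
  refine (PiLp.continuous_toLp 2 _).comp (continuous_pi fun i => ?_)
  fin_cases i
  · exact Real.continuous_cos
  · exact Real.continuous_sin

theorem cc_cont : Continuous cc := by
  unfold cc
  refine continuous_pi fun i => ?_
  fin_cases i
  · exact Real.continuous_cos.comp (continuous_id.div_const 2)
  · exact Real.continuous_sin.comp (continuous_id.div_const 2)
  · exact continuous_const

theorem xx_norm (t : ℝ) : ‖xx t‖ = 1 := by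
  rw [EuclideanSpace.norm_eq]
  simp [xx, Fin.sum_univ_two]

theorem xx_per : xx (2 * Real.pi) = xx 0 := by
  simp [xx]

theorem FF_cont : Continuous FF := by
  unfold FF
  refine continuous_pi fun p => ?_
  obtain ⟨i, j⟩ := p
  fin_cases i <;> fin_cases j <;> simp <;> fun_prop

theorem FF_xx (t : ℝ) : FF (xx t) = out (cc t) := by
  have h1 : Real.cos t = 2 * Real.cos (t / 2) ^ 2 - 1 := by
    rw [← Real.cos_two_mul]; congr 1; ring
  have h2 : Real.sin t = 2 * Real.sin (t / 2) * Real.cos (t / 2) := by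
    rw [← Real.sin_two_mul]; congr 1; ring
  have h3 := Real.sin_sq_add_cos_sq (t / 2)
  funext p
  obtain ⟨i, j⟩ := p
  fin_cases i <;> fin_cases j <;> simp [FF, out, xx, cc] <;> (try rw [h1]) <;> (try rw [h2]) <;>
    nlinarith

theorem cc_sph (t : ℝ) : ∑ i, cc t i ^ 2 = 1 := by
  simp [Fin.sum_univ_three, cc]

theorem circ (x : EuclideanSpace ℝ (Fin 2)) (hx : x 0 ^ 2 + x 1 ^ 2 = 1) : ∃ t, x = xx t := by
  have hn : ‖(⟨x 0, x 1⟩ : ℂ)‖ = 1 := by
    rw [Complex.norm_eq_sqrt_sq_add_sq]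
    simp [hx]
  have h := Complex.norm_mul_cos_arg (⟨x 0, x 1⟩ : ℂ)
  have h' := Complex.norm_mul_sin_arg (⟨x 0, x 1⟩ : ℂ)
  rw [hn, one_mul] at h h'
  refine ⟨Complex.arg ⟨x 0, x 1⟩, ?_⟩
  ext i
  fin_cases i
  · simp [xx, h]
  · simp [xx, h']

/-- one step of the lifting -/
theorem step_lift (q : Fin 3 → ℝ) (hq : ∑ i, q i ^ 2 = 1) (M : Fin 3 × Fin 3 → ℝ) (hM : M ∈ PP)
    (hd : ∀ p, |M p - out q p| ≤ 1 / 10) :
    0 < ∑ i, (∑ j, M (i, j) * q j) ^ 2 ∧
      ∑ i, ((∑ j, M (i, j) * q j) / Real.sqrt (∑ i, (∑ j, M (i, j) * q j) ^ 2)) ^ 2 = 1 ∧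
      out (fun i => (∑ j, M (i, j) * q j) / Real.sqrt (∑ i, (∑ j, M (i, j) * q j) ^ 2)) = M := by
  obtain ⟨p, hp, rfl⟩ := hM
  have hp' : ∑ i, p i ^ 2 = 1 := hp
  set c := ∑ j, p j * q j with hc
  have hw : ∀ i, ∑ j, out p (i, j) * q j = c * p i := by
    intro i
    rw [hc, Finset.sum_mul]
    exact Finset.sum_congr rfl fun j _ => by simp only [out]; ring
  have hsum : ∑ i, (∑ j, out p (i, j) * q j) ^ 2 = c ^ 2 := by
    simp only [hw, mul_pow]
    rw [← Finset.mul_sum, hp', mul_one]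
  have hc2 : 7 / 10 ≤ c ^ 2 := by
    have h00 := hd (0, 0)
    have h01 := hd (0, 1)
    have h02 := hd (0, 2)
    have h11 := hd (1, 1)
    have h12 := hd (1, 2)
    have h22 := hd (2, 2)
    simp only [out] at h00 h01 h02 h11 h12 h22
    rw [Fin.sum_univ_three] at hq hc
    have e : c ^ 2 = (q 0 ^ 2 + q 1 ^ 2 + q 2 ^ 2) ^ 2 + q 0 ^ 2 * (p 0 * p 0 - q 0 * q 0)
      + q 1 ^ 2 * (p 1 * p 1 - q 1 * q 1) + q 2 ^ 2 * (p 2 * p 2 - q 2 * q 2)
      + 2 * (q 0 * q 1) * (p 0 * p 1 - q 0 * q 1) + 2 * (q 0 * q 2) * (p 0 * p 2 - q 0 * q 2)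
      + 2 * (q 1 * q 2) * (p 1 * p 2 - q 1 * q 2) := by rw [hc]; ring
    have b : ∀ a y : ℝ, |y| ≤ 1 / 10 → - (|a| * (1 / 10)) ≤ a * y := by
      intro a y hy
      have h1 : |a * y| ≤ |a| * (1 / 10) := by
        rw [abs_mul]; exact mul_le_mul_of_nonneg_left hy (abs_nonneg _)
      have := neg_abs_le (a * y)
      linarith
    have c1 := b (q 0 ^ 2) _ h00
    have c2 := b (q 1 ^ 2) _ h11
    have c3 := b (q 2 ^ 2) _ h22
    have c4 := b (2 * (q 0 * q 1)) _ h01
    have c5 := b (2 * (q 0 * q 2)) _ h02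
    have c6 := b (2 * (q 1 * q 2)) _ h12
    rw [abs_of_nonneg (sq_nonneg _)] at c1 c2 c3
    have d : ∀ a y : ℝ, |2 * (a * y)| ≤ a ^ 2 + y ^ 2 := by
      intro a y
      rw [abs_le]
      constructor <;> nlinarith [sq_nonneg (a - y), sq_nonneg (a + y)]
    have d4 := d (q 0) (q 1)
    have d5 := d (q 0) (q 2)
    have d6 := d (q 1) (q 2)
    rw [e, hq]
    linarith
  have hc0 : c ≠ 0 := by
    rintro h
    rw [h] at hc2
    norm_num at hc2
  have hcabs : |c| ≠ 0 := abs_ne_zero.mpr hc0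
  refine ⟨by rw [hsum]; linarith, ?_, ?_⟩
  · rw [hsum, Real.sqrt_sq_eq_abs]
    simp only [hw, div_pow, sq_abs, mul_pow]
    rw [← Finset.sum_div, ← Finset.mul_sum, hp', mul_one, div_self (pow_ne_zero 2 hc0)]
  · rw [hsum, Real.sqrt_sq_eq_abs]
    funext r
    simp only [hw]
    simp only [out]
    have : c * p r.1 / |c| * (c * p r.2 / |c|) = (c ^ 2 / |c| ^ 2) * (p r.1 * p r.2) := by
      field_simp
    rw [this, sq_abs, div_self (pow_ne_zero 2 hc0), one_mul]

/-- the unit disc has a map on its boundary circle into the projective plane with no extension -/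
theorem not_ae_plane : ¬ AE PP (EuclideanSpace ℝ (Fin 2)) := by
  intro hAE
  obtain ⟨g, hgc, hgP, hgF⟩ := hAE {x | x 0 ^ 2 + x 1 ^ 2 = 1}
    (isClosed_eq (by fun_prop) continuous_const) FF FF_cont.continuousOn (by
      intro x hx
      obtain ⟨t, rfl⟩ := circ x hx
      rw [FF_xx]
      exact ⟨cc t, cc_sph t, rfl⟩)
  have hB : ∀ t, xx t ∈ {x : EuclideanSpace ℝ (Fin 2) | x 0 ^ 2 + x 1 ^ 2 = 1} := by
    intro t
    simp [xx]
  have hgx : ∀ t, g (xx t) = out (cc t) := by
    intro t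
    rw [hgF (hB t), FF_xx]
  -- uniform continuity
  have hU : UniformContinuousOn g (Metric.closedBall 0 1) :=
    (isCompact_closedBall (0 : EuclideanSpace ℝ (Fin 2)) 1).uniformContinuousOn_of_continuous
      hgc.continuousOn
  rw [Metric.uniformContinuousOn_iff] at hU
  obtain ⟨δ, hδ, hUδ⟩ := hU (1 / 10) (by norm_num)
  obtain ⟨N, hN⟩ := exists_nat_one_div_lt hδ
  have hN0 : (0:ℝ) < (N:ℝ) + 1 := by positivity
  have hind : ∀ k : ℕ, k ≤ N + 1 → ∃ q : ℝ → (Fin 3 → ℝ), Continuous q ∧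
      (∀ t, ∑ i, q t i ^ 2 = 1) ∧ (∀ t, out (q t) = g (((k : ℝ) / (N + 1)) • xx t)) ∧
      q (2 * Real.pi) = q 0 := by
    intro k
    induction k with
    | zero =>
      intro _
      obtain ⟨u, hu, hu'⟩ := hgP 0
      refine ⟨fun _ => u, continuous_const, fun _ => hu, fun t => ?_, rfl⟩
      simp [hu']
    | succ k ih =>
      intro hk
      obtain ⟨q, hqc, hqs, hqo, hqp⟩ := ih (by omega)
      set M : ℝ → Fin 3 × Fin 3 → ℝ := fun t => g ((((k + 1 : ℕ) : ℝ) / (N + 1)) • xx t) with hM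
      have hMc : Continuous M := by
        have h1 : Continuous (fun t => (((k + 1 : ℕ) : ℝ) / (N + 1)) • xx t) :=
          Continuous.smul (f := fun _ : ℝ => (((k + 1 : ℕ) : ℝ) / (N + 1))) (g := xx)
            continuous_const xx_cont
        exact hgc.comp h1
      have hball : ∀ (j : ℕ) (t : ℝ), j ≤ N + 1 →
          (((j : ℕ) : ℝ) / (N + 1)) • xx t ∈ Metric.closedBall (0 : EuclideanSpace ℝ (Fin 2)) 1 := by
        intro j t hj
        rw [mem_closedBall_zero_iff, norm_smul, xx_norm, mul_one, Real.norm_eq_abs,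
          abs_of_nonneg (by positivity), div_le_one hN0]
        exact_mod_cast hj
      have hMd : ∀ t p, |M t p - out (q t) p| ≤ 1 / 10 := by
        intro t p
        have h1 := hUδ _ (hball (k + 1) t hk) _ (hball k t (by omega)) (by
          rw [dist_eq_norm, ← sub_smul, norm_smul, xx_norm, mul_one, ← sub_div]
          push_cast
          rw [add_sub_cancel_left, Real.norm_eq_abs, abs_of_pos (by positivity)]
          exact hN)
        rw [← hqo t] at h1
        have h2 := dist_le_pi_dist (g ((((k + 1 : ℕ) : ℝ) / (N + 1)) • xx t)) (out (q t)) p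
        rw [Real.dist_eq] at h2
        exact h2.trans h1.le
      have hst := fun t => step_lift (q t) (hqs t) (M t) (hgP _) (hMd t)
      have hwc : ∀ i, Continuous (fun t => ∑ j, M t (i, j) * q t j) := by
        intro i
        refine continuous_finsetSum _ fun j _ => ?_
        exact ((continuous_apply (i, j)).comp hMc).mul ((continuous_apply j).comp hqc)
      refine ⟨fun t i => (∑ j, M t (i, j) * q t j) /
        Real.sqrt (∑ i, (∑ j, M t (i, j) * q t j) ^ 2), ?_, fun t => (hst t).2.1,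
        fun t => (hst t).2.2, ?_⟩
      · refine continuous_pi fun i => ?_
        refine (hwc i).div (Real.continuous_sqrt.comp (continuous_finsetSum _ fun i _ =>
          (hwc i).pow 2)) fun t => ?_
        exact (Real.sqrt_pos.mpr (hst t).1).ne'
      · have hM0 : M (2 * Real.pi) = M 0 := by simp only [hM, xx_per]
        simp only [hM0, hqp]
  obtain ⟨q, hqc, hqs, hqo, hqp⟩ := hind (N + 1) le_rfl
  have hqo' : ∀ t, out (q t) = out (cc t) := by
    intro t
    rw [hqo t, ← hgx t]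
    congr 1
    push_cast
    rw [div_self hN0.ne', one_smul]
  set s : ℝ → ℝ := fun t => ∑ i, q t i * cc t i with hs
  have hsc : Continuous s := by
    refine continuous_finsetSum _ fun i _ => ?_
    exact ((continuous_apply i).comp hqc).mul ((continuous_apply i).comp cc_cont)
  have hs1 : ∀ t, s t ^ 2 = 1 := by
    intro t
    have h1 : s t ^ 2 = ∑ i, ∑ j, out (q t) (i, j) * (cc t i * cc t j) := by
      simp only [hs, sq, Finset.sum_mul_sum, out]
      exact Finset.sum_congr rfl fun i _ => Finset.sum_congr rfl fun j _ => by ring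
    rw [h1, hqo' t]
    have h2 : ∑ i, ∑ j, out (cc t) (i, j) * (cc t i * cc t j) = (∑ i, cc t i ^ 2) ^ 2 := by
      simp only [sq, Finset.sum_mul_sum, out]
      exact Finset.sum_congr rfl fun i _ => Finset.sum_congr rfl fun j _ => by ring
    rw [h2, cc_sph]
    norm_num
  have hs2 : s (2 * Real.pi) = - s 0 := by
    simp only [hs, hqp]
    rw [← Finset.sum_neg_distrib]
    refine Finset.sum_congr rfl fun i _ => ?_
    have : cc (2 * Real.pi) i = - cc 0 i := by
      have e : 2 * Real.pi / 2 = Real.pi := by ring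
      fin_cases i <;> simp [cc, e]
    rw [this]
    ring
  have hz : (0:ℝ) ∈ Set.range s := by
    rcases le_total (s 0) 0 with h | h
    · exact mem_range_of_exists_le_of_exists_ge hsc ⟨0, h⟩ ⟨2 * Real.pi, by rw [hs2]; linarith⟩
    · exact mem_range_of_exists_le_of_exists_ge hsc ⟨2 * Real.pi, by rw [hs2]; linarith⟩ ⟨0, h⟩
  obtain ⟨t, ht⟩ := hz
  have := hs1 t
  rw [ht] at this
  norm_num at this

end Pool.Agent.Helper220.MG.JP5
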