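import Pool.Agent.Helper220.MG.Exo
import Pool.Agent.Helper220.MG.Comp
import Pool.Agent.Helper220.MG.JP5

set_option autoImplicit false

namespace Pool.Agent.Helper220.MG

open Set Topology Filter TopologicalSpace Pool.MengerAx

theorem InU.metrizable {n : ℕ} {X : Type} [TopologicalSpace X] (h : InU n X) :
    MetrizableSpace X := by
  obtain ⟨f, hf⟩ := h
  exact hf.metrizableSpace

theorem InU.secondCountable {n : ℕ} {X : Type} [TopologicalSpace X] (h : InU n X) :
    SecondCountableTopology X := by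
  obtain ⟨f, hf⟩ := h
  exact hf.secondCountableTopology

theorem InU.subset {n : ℕ} {X : Type} [TopologicalSpace X] (h : InU n X) (S : Set X) :
    InU n ↥S := by
  obtain ⟨f, hf⟩ := h
  exact ⟨fun x => f x, hf.comp IsEmbedding.subtypeVal⟩

theorem InU.mono {n m : ℕ} (hnm : n ≤ m) {X : Type} [TopologicalSpace X] (h : InU n X) :
    InU m X := by
  obtain ⟨f, hf⟩ := h
  let φ : EuclideanSpace ℝ (Fin n) → EuclideanSpace ℝ (Fin m) := fun x =>
    WithLp.toLp 2 (fun i => if hi : i.1 < n then x ⟨i.1, hi⟩ else 0)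
  let ψ : EuclideanSpace ℝ (Fin m) → EuclideanSpace ℝ (Fin n) := fun x =>
    WithLp.toLp 2 (fun i => x ⟨i.1, lt_of_lt_of_le i.2 hnm⟩)
  have hφ : Continuous φ := by
    refine (PiLp.continuous_toLp 2 _).comp ?_
    refine continuous_pi fun i => ?_
    by_cases hi : i.1 < n
    · simp only [hi, dite_true]; fun_prop
    · simp only [hi, dite_false]; fun_prop
  have hψ : Continuous ψ := by
    refine (PiLp.continuous_toLp 2 _).comp ?_
    fun_prop
  have hψφ : Function.LeftInverse ψ φ := by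
    intro x
    ext i
    simp [φ, ψ]
  exact ⟨φ ∘ f, (hψφ.isEmbedding hψ hφ).comp hf⟩

/-- an integer as an extended integer -/
def cz (z : ℤ) : ExtInt := ((z : WithTop ℤ) : ExtInt)

theorem cz_le {a b : ℤ} : cz a ≤ cz b ↔ a ≤ b := cc_le

theorem cz_inj {a b : ℤ} : cz a = cz b ↔ a = b := by
  constructor
  · intro h
    exact le_antisymm (cz_le.1 h.le) (cz_le.1 h.ge)
  · rintro rfl; rfl

theorem le_ind {k : ℕ} {X : Type} [TopologicalSpace X] [SecondCountableTopology X]
    [MetrizableSpace X] (h : ¬ ZC k X) : cz k ≤ ind X := by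
  apply le_sInf
  rintro a ⟨j, hj, rfl⟩
  have hjk : k < j := by
    by_contra hle
    exact h ((indLT_iff.1 hj).mono (not_lt.1 hle))
  exact cz_le.2 (by omega)

theorem ind_le {k : ℕ} {X : Type} [TopologicalSpace X] [SecondCountableTopology X]
    [MetrizableSpace X] : ind X ≤ cz ((k : ℤ) - 1) ↔ ZC k X := ind_le_iff

theorem ind_eq_two {X : Type} [TopologicalSpace X] [SecondCountableTopology X]
    [MetrizableSpace X] : ind X = cz 2 ↔ ZC 3 X ∧ ¬ ZC 2 X := by
  constructor
  · intro h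
    constructor
    · rw [← ind_le, h, cz_le]; norm_num
    · intro h2
      rw [← ind_le, h, cz_le] at h2
      norm_num at h2
  · rintro ⟨h1, h2⟩
    apply le_antisymm
    · have := ind_le.2 h1
      simpa using this
    · have := le_ind h2
      simpa using this

open Classical in
/-- the second dimension function -/
noncomputable def dd (X : Type) [TopologicalSpace X] : ExtInt :=
  if ind X = cz 2 ∧ AE PP X then cz 1 else ind X

theorem dd_pos {X : Type} [TopologicalSpace X] (h : ind X = cz 2 ∧ AE PP X) : dd X = cz 1 := by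
  unfold dd; rw [if_pos h]

theorem dd_neg {X : Type} [TopologicalSpace X] (h : ¬ (ind X = cz 2 ∧ AE PP X)) :
    dd X = ind X := by
  unfold dd; rw [if_neg h]

theorem dd_le {X : Type} [TopologicalSpace X] : dd X ≤ ind X := by
  by_cases h : ind X = cz 2 ∧ AE PP X
  · rw [dd_pos h, h.1, cz_le]; norm_num
  · rw [dd_neg h]

theorem ae_two {X : Type} [TopologicalSpace X] [SecondCountableTopology X]
    [MetrizableSpace X] (h : ZC 2 X) : AE PP X := by
  letI := metrizableSpaceMetric X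
  obtain ⟨δ, hδ, hn⟩ := near_extend JNrPP.nr_PP
  exact JC2.ae_of_zc_two JNrPP.nr_PP JNrSph.pathConnected_PP h
    (fun hT _ _ hA hB hAB => zd_ambient hT hA hB hAB)
    (fun T hT => fc_of_zc ⟨fun _ => univ, fun z => ⟨0, trivial⟩, fun _ =>
      hT.of_inducing (g := fun x => (x : ↥T)) IsInducing.subtypeVal⟩)
    ⟨δ, hδ, fun B hB f g h1 h2 h3 h4 h5 => hn X B hB f g h1 h2 h3 h4 h5⟩
    (fun B f hB hf hfL => JHE.nbhd_extend JNrPP.nr_PP B hB f hf hfL)

theorem dd_le_one {X : Type} [TopologicalSpace X] [SecondCountableTopology X]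
    [MetrizableSpace X] : dd X ≤ cz 1 ↔ ZC 3 X ∧ AE PP X := by
  constructor
  · intro h
    by_cases h1 : ind X = cz 2 ∧ AE PP X
    · exact ⟨(ind_eq_two.1 h1.1).1, h1.2⟩
    · rw [dd_neg h1] at h
      have h2 : ZC 2 X := ind_le.1 (by simpa using h)
      exact ⟨h2.mono (by norm_num), ae_two h2⟩
  · rintro ⟨h1, h2⟩
    by_cases h3 : ZC 2 X
    · refine dd_le.trans ?_
      have := ind_le.2 h3
      simpa using this
    · rw [dd_pos ⟨ind_eq_two.2 ⟨h1, h3⟩, h2⟩]

theorem dd_axioms {n : ℕ} (hn : 5 ≤ n) (h : Axioms n (fun X _ => ind X)) :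
    Axioms n (fun X _ => dd X) where
  invariant := by
    intro X Y _ _ hX hXY
    have h1 : ind X = ind Y := h.invariant X Y hX hXY
    have h2 : AE PP X ↔ AE PP Y := by
      obtain ⟨e⟩ := hXY
      exact ⟨fun h => AE.of_homeo e h, fun h => AE.of_homeo e.symm h⟩
    show dd X = dd Y
    by_cases h3 : ind X = cz 2 ∧ AE PP X
    · rw [dd_pos h3, dd_pos ⟨h1 ▸ h3.1, h2.1 h3.2⟩]
    · rw [dd_neg h3, dd_neg (fun h4 => h3 ⟨h1.trans h4.1, h2.2 h4.2⟩), h1]
  m1_empty := by
    have h1 : ind Empty = cz (-1) := h.m1_empty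
    show dd Empty = cz (-1)
    rw [dd_neg (fun h2 => by rw [h1, cz_inj] at h2; norm_num at h2), h1]
  m1_point := by
    have h1 : ind Unit = cz 0 := h.m1_point
    show dd Unit = cz 0
    rw [dd_neg (fun h2 => by rw [h1, cz_inj] at h2; norm_num at h2), h1]
  m1_euclidean := by
    intro m hm hmn
    have h1 : ind (EuclideanSpace ℝ (Fin m)) = cz m := h.m1_euclidean m hm hmn
    show dd (EuclideanSpace ℝ (Fin m)) = cz m
    rw [dd_neg, h1]
    rintro ⟨h2, h3⟩
    rw [h1, cz_inj] at h2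
    have hm2 : m = 2 := by exact_mod_cast h2
    subst hm2
    exact JP5.not_ae_plane h3
  m2 := by
    intro X _ hX Y
    have hm := InU.metrizable hX
    have hs := InU.secondCountable hX
    show dd ↥Y ≤ dd X
    by_cases h3 : ind X = cz 2 ∧ AE PP X
    · rw [dd_pos h3, dd_le_one]
      exact ⟨(ind_eq_two.1 h3.1).1.subset Y, ae_subset JNrPP.nr_PP h3.2 Y⟩
    · rw [dd_neg h3]
      exact dd_le.trans (h.m2 X hX Y)
  m3 := by
    intro X _ hX F hF hcov
    have hm := InU.metrizable hX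
    have hs := InU.secondCountable hX
    letI := metrizableSpaceMetric X
    show dd X ≤ ⨆ i, dd ↥(F i)
    have hle : ∀ i, dd ↥(F i) ≤ ⨆ i, dd ↥(F i) := fun i => le_iSup (fun i => dd ↥(F i)) i
    have hmain : (∀ i, ind ↥(F i) ≤ ⨆ i, dd ↥(F i)) → dd X ≤ ⨆ i, dd ↥(F i) := fun h1 =>
      dd_le.trans ((h.m3 X hX F hF hcov).trans (iSup_le h1))
    by_cases hall : ∀ i, ZC 3 ↥(F i) ∧ AE PP ↥(F i)
    · have hcov' : ∀ x, ∃ i, x ∈ F i := fun x => by
        have : x ∈ ⋃ i, F i := by rw [hcov]; trivial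
        exact mem_iUnion.1 this
      have hX1 : dd X ≤ cz 1 := dd_le_one.2 ⟨ZC.sum F hF hcov' (fun i => (hall i).1),
        ae_sum JNrPP.nr_PP F hF hcov' (fun i => (hall i).2)⟩
      by_cases hs1 : cz 1 ≤ ⨆ i, dd ↥(F i)
      · exact hX1.trans hs1
      · apply hmain
        intro i
        have h2 : ¬ (ind ↥(F i) = cz 2 ∧ AE PP ↥(F i)) := by
          intro h3
          apply hs1
          rw [← dd_pos h3]
          exact hle i
        rw [← dd_neg h2]
        exact hle i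
    · push Not at hall
      obtain ⟨i0, hi0⟩ := hall
      have h2 : cz 2 ≤ ⨆ i, dd ↥(F i) := by
        refine le_trans ?_ (hle i0)
        have h3 : ¬ (ind ↥(F i0) = cz 2 ∧ AE PP ↥(F i0)) := by
          rintro ⟨h4, h5⟩
          exact hi0 (ind_eq_two.1 h4).1 h5
        rw [dd_neg h3]
        have h4 : ¬ ZC 2 ↥(F i0) := fun h5 => hi0 (h5.mono (by norm_num)) (ae_two h5)
        have := le_ind h4
        simpa using this
      apply hmain
      intro j
      by_cases h3 : ind ↥(F j) = cz 2 ∧ AE PP ↥(F j)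
      · rw [h3.1]; exact h2
      · rw [← dd_neg h3]; exact hle j
  m4 := by
    intro X _ hX
    have hm := InU.metrizable hX
    have hs := InU.secondCountable hX
    show ∃ (K : Type) (_ : TopologicalSpace K), CompactSpace K ∧ InU n K ∧
      (∃ e : X → K, IsEmbedding e ∧ DenseRange e) ∧ dd K = dd X
    by_cases h3 : ind X = cz 2 ∧ AE PP X
    · obtain ⟨hz3, hz2⟩ := ind_eq_two.1 h3.1
      obtain ⟨Y, tY, hYc, hYm, hYf, hYa, j, hj, hjd⟩ := compactify JNrPP.nr_PP hX
        (fc_of_zc hz3) h3.2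
      obtain ⟨f, hf, _⟩ := embed_nob Y hYf
      have hYU : InU n Y := InU.mono hn ⟨f, hf⟩
      have hYs := InU.secondCountable hYU
      refine ⟨Y, tY, hYc, hYU, ⟨j, hj, hjd⟩, ?_⟩
      have hY2 : ind Y = cz 2 := ind_eq_two.2 ⟨zc_of_fc hYf, fun h4 => hz2 (h4.of_embedding j hj)⟩
      rw [dd_pos ⟨hY2, hYa⟩, dd_pos h3]
    · obtain ⟨K, tK, hKc, hKU, ⟨e, he, hed⟩, hKd⟩ := h.m4 X hX
      have hKm := InU.metrizable hKU
      refine ⟨K, tK, hKc, hKU, ⟨e, he, hed⟩, ?_⟩
      have hKd' : ind K = ind X := hKd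
      rw [dd_neg h3, dd_neg, hKd']
      rintro ⟨h4, h5⟩
      exact h3 ⟨hKd'.symm.trans h4, AE.of_embedding JNrPP.nr_PP e he h5⟩

theorem not_conjecture {n : ℕ} (hn : 5 ≤ n) : ¬ Conjecture n := by
  rintro ⟨h1, h2⟩
  have h3 := h2 (fun X _ => dd X) (dd_axioms hn h1)
  obtain ⟨Y, tY, hYc, hYm, hYf, hYa, hYs⟩ := exotic
  obtain ⟨f, hf, _⟩ := embed_nob Y hYf
  have hYU : InU n Y := InU.mono hn ⟨f, hf⟩
  have hsc := InU.secondCountable hYU
  have h4 : dd Y = ind Y := h3 Y hYU
  have h5 : ind Y = cz 2 := ind_eq_two.2 ⟨zc_of_fc hYf, fun h6 => hYs (sph_ae (m := 1) h6)⟩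
  rw [dd_pos ⟨h5, hYa⟩, h5, cz_inj] at h4
  norm_num at h4

end Pool.Agent.Helper220.MG
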