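import Pool.Agent.Helper220.MG.Core
import Pool.Agent.Helper220.MG.Defs

set_option autoImplicit false

namespace Pool.Agent.Helper220.MG

open Set Topology Filter TopologicalSpace

theorem ZC.of_inducing {m : ℕ} {X Y : Type} [TopologicalSpace X] [TopologicalSpace Y] {f : X → Y}
    (hf : IsInducing f) (h : ZC m Y) : ZC m X := by
  obtain ⟨E, h1, h2⟩ := h
  refine ⟨fun c => f ⁻¹' (E c), fun z => h1 (f z), fun c => ?_⟩
  refine (h2 c).of_range (γ := Y) (g := fun x => (x : Y)) (f := fun x => f (x : X))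
    IsInducing.subtypeVal (hf.comp IsInducing.subtypeVal) ?_
  rintro ⟨x, hx⟩
  exact ⟨⟨f x, hx⟩, rfl⟩

theorem ZC.of_embedding {m : ℕ} {X Y : Type} [TopologicalSpace X] [TopologicalSpace Y] (f : X → Y)
    (hf : IsEmbedding f) (h : ZC m Y) : ZC m X := h.of_inducing hf.isInducing

theorem ZC.subset {m : ℕ} {X : Type} [TopologicalSpace X] (h : ZC m X) (S : Set X) : ZC m ↥S :=
  h.of_inducing IsInducing.subtypeVal

theorem ZC.mono {m m' : ℕ} (hm : m ≤ m') {X : Type} [TopologicalSpace X] (h : ZC m X) :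
    ZC m' X := by
  obtain ⟨E, h1, h2⟩ := h
  refine ⟨fun c => if hc : c.1 < m then E ⟨c.1, hc⟩ else ∅, fun z => ?_, fun c => ?_⟩
  · obtain ⟨c, hc⟩ := h1 z
    refine ⟨⟨c.1, lt_of_lt_of_le c.2 hm⟩, ?_⟩
    simp [hc]
  · by_cases hc : c.1 < m
    · have : (if hc : c.1 < m then E ⟨c.1, hc⟩ else ∅) = E ⟨c.1, hc⟩ := dif_pos hc
      beta_reduce
      rw [this]
      exact h2 _
    · have : (if hc : c.1 < m then E ⟨c.1, hc⟩ else ∅) = ∅ := dif_neg hc
      beta_reduce
      rw [this]
      intro x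
      exact (show (x : X) ∈ (∅ : Set X) from x.2).elim

/-- countable closed sum theorem -/
theorem ZC.sum {m : ℕ} {X : Type} [TopologicalSpace X] [SecondCountableTopology X]
    [MetrizableSpace X] (F : ℕ → Set X) (hF : ∀ i, IsClosed (F i)) (hcov : ∀ x, ∃ i, x ∈ F i)
    (h : ∀ i, ZC m ↥(F i)) : ZC m X := by
  choose E hE1 hE2 using h
  set W : ℕ → Set X := fun k => (⋃ j ∈ Iio k, F j)ᶜ with hW
  have hWo : ∀ k, IsOpen (W k) := by
    intro k
    exact ((finite_Iio k).isClosed_biUnion fun j _ => hF j).isOpen_compl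
  let E' : Fin m → Set X := fun c => ⋃ k, ((Subtype.val '' (E k c)) ∩ W k)
  refine ⟨E', ?_, ?_⟩
  · intro z
    classical
    have hz := hcov z
    have h1 := Nat.find_spec hz
    set k := Nat.find hz with hk
    obtain ⟨c, hc⟩ := hE1 k ⟨z, h1⟩
    refine ⟨c, mem_iUnion.2 ⟨k, ⟨⟨z, h1⟩, hc, rfl⟩, ?_⟩⟩
    simp only [hW, mem_compl_iff, mem_iUnion, not_exists]
    intro j hj
    exact Nat.find_min hz hj
  · intro c
    refine zd_sum_lc (ι := ℕ) (fun k => Subtype.val ⁻¹' (F k)) (fun k => Subtype.val ⁻¹' (W k))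
      (fun k => (hF k).preimage continuous_subtype_val)
      (fun k => (hWo k).preimage continuous_subtype_val) ?_ ?_
    · rintro ⟨x, hx⟩
      obtain ⟨k, ⟨y, hy, hyx⟩, hxW⟩ := mem_iUnion.1 hx
      refine ⟨k, ?_, hxW⟩
      change x ∈ F k
      rw [← hyx]
      exact y.2
    · intro k
      refine (hE2 k c).of_range (γ := X)
        (g := fun x => ((x : ↥(F k)) : X))
        (f := fun x => ((x : ↥(E' c)) : X))
        (IsInducing.subtypeVal.comp IsInducing.subtypeVal)
        (IsInducing.subtypeVal.comp IsInducing.subtypeVal) ?_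
      rintro ⟨⟨x, hx⟩, hxB, hxW⟩
      have hx' := hx
      obtain ⟨n, ⟨y, hy, hyx⟩, hxWn⟩ := mem_iUnion.1 hx
      have hxBn : x ∈ F n := by rw [← hyx]; exact y.2
      have hxB' : x ∈ F k := hxB
      have hxW' : x ∈ W k := hxW
      have hnk : n = k := by
        rcases lt_trichotomy n k with hlt | heq | hgt
        · exact (hxW' (mem_biUnion (mem_Iio.2 hlt) hxBn)).elim
        · exact heq
        · exact (hxWn (mem_biUnion (mem_Iio.2 hgt) hxB')).elim
      subst hnk
      exact ⟨⟨y, hy⟩, hyx⟩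

open Pool.MengerAx

theorem indRec_IndLT : IndRec IndLT := by
  intro α _
  refine ⟨by simp [IndLT], fun k => ?_⟩
  constructor
  · intro h x U hU
    simp only [IndLT] at h
    obtain ⟨V, h1, h2, h3, h4⟩ := h x (interior U) isOpen_interior (mem_interior_iff_mem_nhds.2 hU)
    exact ⟨V, h1, h2, h3.trans interior_subset, h4⟩
  · intro h
    simp only [IndLT]
    intro x U hU hx
    exact h x U (hU.mem_nhds hx)

theorem indLT_iff {k : ℕ} {X : Type} [TopologicalSpace X] [SecondCountableTopology X]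
    [MetrizableSpace X] : IndLT k X ↔ ZC k X := by
  constructor
  · intro h
    exact decomp indRec_IndLT k X h
  · rintro ⟨E, h1, h2⟩
    exact ind_of_cover indRec_IndLT k X E h1 h2

theorem cc_le {a b : ℤ} : (((a : WithTop ℤ) : ExtInt) ≤ ((b : WithTop ℤ) : ExtInt)) ↔ a ≤ b := by
  rw [WithBot.coe_le_coe, WithTop.coe_le_coe]

theorem ind_le_iff {k : ℕ} {X : Type} [TopologicalSpace X] [SecondCountableTopology X]
    [MetrizableSpace X] : ind X ≤ ((((k : ℤ) - 1 : ℤ) : WithTop ℤ) : ExtInt) ↔ ZC k X := by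
  constructor
  · intro h
    by_contra hk
    have h2 : (((k : ℤ) : WithTop ℤ) : ExtInt) ≤ (ind X : ExtInt) := by
      apply le_sInf
      rintro a ⟨j, hj, rfl⟩
      have hjk : k < j := by
        by_contra hle
        exact hk ((indLT_iff.1 hj).mono (not_lt.1 hle))
      rw [cc_le]
      omega
    have h3 := h2.trans h
    rw [cc_le] at h3
    omega
  · intro h
    exact sInf_le ⟨k, indLT_iff.2 h, rfl⟩

end Pool.Agent.Helper220.MG
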