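import Mathlib

set_option autoImplicit false

namespace Pool.Agent.Helper220.MG

open Set Topology Filter TopologicalSpace

/-- A space is zero-dimensional (small inductive dimension at most 0) when every point has
arbitrarily small clopen neighbourhoods. -/
def ZD (α : Type) [TopologicalSpace α] : Prop :=
  ∀ x : α, ∀ U ∈ 𝓝 x, ∃ V : Set α, IsClopen V ∧ x ∈ V ∧ V ⊆ U

theorem ZD.of_inducing {α β : Type} [TopologicalSpace α] [TopologicalSpace β] {g : β → α}
    (hg : IsInducing g) (h : ZD α) : ZD β := by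
  intro x U hU
  rw [hg.nhds_eq_comap] at hU
  obtain ⟨W, hW, hWU⟩ := hU
  obtain ⟨V, hV, hxV, hVW⟩ := h (g x) W hW
  exact ⟨g ⁻¹' V, hV.preimage hg.continuous, hxV, (preimage_mono hVW).trans hWU⟩

/-- separation of disjoint closed sets by a clopen set in a zero-dimensional second countable
space -/
theorem ZD.sep {α : Type} [TopologicalSpace α] [SecondCountableTopology α] (h : ZD α)
    {A B : Set α} (hA : IsClosed A) (hB : IsClosed B) (hAB : Disjoint A B) :
    ∃ C : Set α, IsClopen C ∧ A ⊆ C ∧ Disjoint C B := by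
  have h1 : ∀ x : α, ∃ W : Set α, IsClopen W ∧ x ∈ W ∧ (Disjoint W A ∨ Disjoint W B) := by
    intro x
    by_cases hx : x ∈ A
    · have hxB : x ∉ B := fun hxB => Set.disjoint_left.1 hAB hx hxB
      obtain ⟨V, hV, hxV, hVB⟩ := h x Bᶜ (hB.isOpen_compl.mem_nhds hxB)
      exact ⟨V, hV, hxV, Or.inr (Set.subset_compl_iff_disjoint_right.1 hVB)⟩
    · obtain ⟨V, hV, hxV, hVA⟩ := h x Aᶜ (hA.isOpen_compl.mem_nhds hx)
      exact ⟨V, hV, hxV, Or.inl (Set.subset_compl_iff_disjoint_right.1 hVA)⟩
  choose W hWc hxW hWd using h1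
  obtain ⟨s, hs, hsU⟩ := TopologicalSpace.countable_cover_nhds
    (fun x => (hWc x).isOpen.mem_nhds (hxW x))
  rcases isEmpty_or_nonempty α with hemp | ⟨⟨x0⟩⟩
  · exact ⟨∅, isClopen_empty, fun x _ => (hemp.false x).elim, by simp⟩
  have hsne : s.Nonempty := by
    have : x0 ∈ ⋃ x ∈ s, W x := by rw [hsU]; trivial
    simp only [mem_iUnion] at this
    obtain ⟨y, hy, _⟩ := this
    exact ⟨y, hy⟩
  obtain ⟨u, hu⟩ := hs.exists_eq_range hsne
  set D : ℕ → Set α := disjointed (fun n => W (u n)) with hD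
  have hDc : ∀ n, IsClopen (D n) := by
    intro n
    refine disjointedRec (fun t i ht => ht.diff (hWc _)) (hWc _)
  have hDU : ∀ x, ∃ n, x ∈ D n := by
    intro x
    have : x ∈ ⋃ n, D n := by
      rw [hD, iUnion_disjointed]
      have : x ∈ ⋃ x ∈ s, W x := by rw [hsU]; trivial
      simp only [mem_iUnion] at this ⊢
      obtain ⟨y, hy, hxy⟩ := this
      rw [hu] at hy
      obtain ⟨n, rfl⟩ := hy
      exact ⟨n, hxy⟩
    simpa using this
  have hDd : Pairwise (Function.onFun Disjoint D) := disjoint_disjointed _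
  have hDW : ∀ n, D n ⊆ W (u n) := fun n => disjointed_subset _ n
  classical
  set C : Set α := ⋃ n ∈ {n | Disjoint (W (u n)) B}, D n with hC
  have hCo : IsOpen C := isOpen_biUnion fun n _ => (hDc n).isOpen
  have hCc : Cᶜ = ⋃ n ∈ {n | ¬ Disjoint (W (u n)) B}, D n := by
    ext x
    constructor
    · intro hx
      obtain ⟨n, hn⟩ := hDU x
      simp only [mem_iUnion, mem_ofPred_eq, exists_prop]
      refine ⟨n, fun hd => hx ?_, hn⟩
      simp only [hC, mem_iUnion, mem_ofPred_eq, exists_prop]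
      exact ⟨n, hd, hn⟩
    · intro hx hx'
      simp only [mem_iUnion, mem_ofPred_eq, exists_prop] at hx
      simp only [hC, mem_iUnion, mem_ofPred_eq, exists_prop] at hx'
      obtain ⟨n, hn, hxn⟩ := hx
      obtain ⟨m, hm, hxm⟩ := hx'
      by_cases hmn : m = n
      · subst hmn; exact hn hm
      · exact Set.disjoint_left.1 (hDd hmn) hxm hxn
  have hCc' : IsClosed C := by
    rw [← isOpen_compl_iff, hCc]
    exact isOpen_biUnion fun n _ => (hDc n).isOpen
  refine ⟨C, ⟨hCc', hCo⟩, ?_, ?_⟩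
  · intro x hx
    by_contra hxC
    have : x ∈ Cᶜ := hxC
    rw [hCc] at this
    simp only [mem_iUnion, mem_ofPred_eq, exists_prop] at this
    obtain ⟨n, hn, hxn⟩ := this
    rcases hWd (u n) with h1 | h1
    · exact Set.disjoint_left.1 h1 (hDW n hxn) hx
    · exact hn h1
  · rw [Set.disjoint_left]
    intro x hx hxB
    simp only [hC, mem_iUnion, mem_ofPred_eq, exists_prop] at hx
    obtain ⟨n, hn, hxn⟩ := hx
    exact Set.disjoint_left.1 hn (hDW n hxn) hxB

/-- countable closed sum theorem in dimension zero -/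
theorem zd_sum {X : Type} [TopologicalSpace X] [SecondCountableTopology X] [NormalSpace X]
    [T1Space X] (T : ℕ → Set X) (hT : ∀ i, IsClosed (T i)) (hcov : ∀ x, ∃ i, x ∈ T i)
    (hZ : ∀ i, ZD ↥(T i)) : ZD X := by
  intro x U hU
  -- states: pairs of open sets with disjoint closures
  let S := {p : Set X × Set X // IsOpen p.1 ∧ IsOpen p.2 ∧ Disjoint (closure p.1) (closure p.2)}
  have enlarge : ∀ A B : Set X, IsClosed A → IsClosed B → Disjoint A B →
      ∃ p : S, A ⊆ p.1.1 ∧ B ⊆ p.1.2 := by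
    intro A B hA hB hAB
    obtain ⟨U1, hU1, hAU1, hU1B⟩ := normal_exists_closure_subset hA hB.isOpen_compl
      (Set.subset_compl_iff_disjoint_right.2 hAB)
    obtain ⟨V1, hV1, hBV1, hV1U⟩ := normal_exists_closure_subset hB
      (isClosed_closure (s := U1)).isOpen_compl
      (fun y hy hy' => hU1B hy' hy)
    refine ⟨⟨(U1, V1), hU1, hV1, ?_⟩, hAU1, hBV1⟩
    rw [Set.disjoint_right]
    exact fun y hy => hV1U hy
  have step : ∀ (i : ℕ) (p : S), ∃ q : S, p.1.1 ⊆ q.1.1 ∧ p.1.2 ⊆ q.1.2 ∧
      T i ⊆ q.1.1 ∪ q.1.2 := by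
    rintro i ⟨⟨P, Q⟩, hP, hQ, hPQ⟩
    simp only at hP hQ hPQ
    obtain ⟨C, hC, hPC, hCQ⟩ := (hZ i).sep
      (A := Subtype.val ⁻¹' closure P) (B := Subtype.val ⁻¹' closure Q)
      (isClosed_closure.preimage continuous_subtype_val)
      (isClosed_closure.preimage continuous_subtype_val)
      (hPQ.preimage _)
    have hc1 : IsClosed (Subtype.val '' C) := (hT i).isClosedEmbedding_subtypeVal.isClosedMap _ hC.1
    have hc2 : IsClosed (Subtype.val '' Cᶜ) :=
      (hT i).isClosedEmbedding_subtypeVal.isClosedMap _ hC.compl.1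
    obtain ⟨q, hq1, hq2⟩ := enlarge (closure P ∪ Subtype.val '' C) (closure Q ∪ Subtype.val '' Cᶜ)
      (isClosed_closure.union hc1) (isClosed_closure.union hc2) (by
        rw [Set.disjoint_left]
        rintro y (hy | ⟨y, hy, rfl⟩) (hy' | ⟨z, hz, hzy⟩)
        · exact Set.disjoint_left.1 hPQ hy hy'
        · subst hzy; exact hz (hPC hy)
        · exact Set.disjoint_left.1 hCQ hy hy'
        · have : z = y := Subtype.ext hzy
          subst this; exact hz hy)
    refine ⟨q, subset_closure.trans (subset_union_left.trans hq1),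
      subset_closure.trans (subset_union_left.trans hq2), ?_⟩
    intro y hy
    by_cases hyC : (⟨y, hy⟩ : T i) ∈ C
    · exact Or.inl (hq1 (Or.inr ⟨_, hyC, rfl⟩))
    · exact Or.inr (hq2 (Or.inr ⟨_, hyC, rfl⟩))
  choose nxt hn1 hn2 hn3 using step
  obtain ⟨p0, hp1, hp2⟩ := enlarge {x} (interior U)ᶜ isClosed_singleton
    isOpen_interior.isClosed_compl (by
      rw [Set.disjoint_singleton_left]
      exact fun h => h (mem_interior_iff_mem_nhds.2 hU))
  let sq : ℕ → S := fun n => Nat.rec p0 (fun i p => nxt i p) n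
  have hs1 : Monotone (fun n => (sq n).1.1) := monotone_nat_of_le_succ fun n => hn1 n (sq n)
  have hs2 : Monotone (fun n => (sq n).1.2) := monotone_nat_of_le_succ fun n => hn2 n (sq n)
  have hs3 : ∀ n, T n ⊆ (sq (n+1)).1.1 ∪ (sq (n+1)).1.2 := fun n => hn3 n (sq n)
  have hdis : ∀ y, y ∈ (⋃ n, (sq n).1.1) → y ∈ (⋃ n, (sq n).1.2) → False := by
    intro y hy hy'
    simp only [mem_iUnion] at hy hy'
    obtain ⟨i, hi⟩ := hy
    obtain ⟨j, hj⟩ := hy'
    have h1 := hs1 (le_max_left i j) hi
    have h2 := hs2 (le_max_right i j) hj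
    exact Set.disjoint_left.1 (sq (max i j)).2.2.2 (subset_closure h1) (subset_closure h2)
  have hcompl : (⋃ n, (sq n).1.1)ᶜ = ⋃ n, (sq n).1.2 := by
    ext y
    constructor
    · intro hy
      obtain ⟨i, hi⟩ := hcov y
      rcases hs3 i hi with h | h
      · exact (hy (mem_iUnion.2 ⟨i + 1, h⟩)).elim
      · exact mem_iUnion.2 ⟨i + 1, h⟩
    · intro hy hy'
      exact hdis y hy' hy
  refine ⟨⋃ n, (sq n).1.1, ⟨?_, isOpen_iUnion fun n => (sq n).2.1⟩, ?_, ?_⟩
  · rw [← isOpen_compl_iff, hcompl]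
    exact isOpen_iUnion fun n => (sq n).2.2.1
  · exact mem_iUnion.2 ⟨0, hp1 rfl⟩
  · intro y hy
    by_contra hyU
    have : y ∈ (interior U)ᶜ := fun h => hyU (interior_subset h)
    exact hdis y hy (mem_iUnion.2 ⟨0, hp2 this⟩)

/-- countable sum theorem in dimension zero for locally closed pieces -/
theorem zd_sum_lc {X : Type} [TopologicalSpace X] [SecondCountableTopology X]
    [MetrizableSpace X] {ι : Type} [Countable ι] (K W : ι → Set X) (hK : ∀ i, IsClosed (K i))
    (hW : ∀ i, IsOpen (W i)) (hcov : ∀ x, ∃ i, x ∈ K i ∩ W i)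
    (hZ : ∀ i, ZD ↥(K i ∩ W i)) : ZD X := by
  let _ := metrizableSpaceMetric X
  rcases isEmpty_or_nonempty X with hemp | ⟨⟨x0⟩⟩
  · exact fun x => (hemp.false x).elim
  have hF : ∀ i, ∃ F : ℕ → Set X, (∀ n, IsClosed (F n)) ∧ (∀ n, F n ⊆ W i) ∧ ⋃ n, F n = W i ∧
      Monotone F := fun i => (hW i).exists_iUnion_isClosed
  choose F hF1 hF2 hF3 hF4 using hF
  have : Nonempty (ι × ℕ) := ⟨((hcov x0).choose, 0)⟩
  obtain ⟨e, he⟩ := exists_surjective_nat (ι × ℕ)
  refine zd_sum (fun n => K (e n).1 ∩ F (e n).1 (e n).2) (fun n => (hK _).inter (hF1 _ _)) ?_ ?_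
  · intro x
    obtain ⟨i, hxK, hxW⟩ := hcov x
    rw [← hF3 i] at hxW
    obtain ⟨m, hm⟩ := mem_iUnion.1 hxW
    obtain ⟨n, hn⟩ := he (i, m)
    refine ⟨n, ?_⟩
    simp only [hn]
    exact ⟨hxK, hm⟩
  · intro n
    have hsub : K (e n).1 ∩ F (e n).1 (e n).2 ⊆ K (e n).1 ∩ W (e n).1 :=
      inter_subset_inter_right _ (hF2 _ _)
    exact (hZ (e n).1).of_inducing (IsEmbedding.inclusion hsub).isInducing

/-- partition theorem: disjoint closed sets of a metrizable space can be separated by the
boundary of an open set which misses a given zero-dimensional subset -/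
theorem zd_ambient {Y : Type} [TopologicalSpace Y] [SecondCountableTopology Y]
    [MetrizableSpace Y] {T : Set Y} (hT : ZD ↥T) {A B : Set Y} (hA : IsClosed A)
    (hB : IsClosed B) (hAB : Disjoint A B) :
    ∃ V : Set Y, IsOpen V ∧ A ⊆ V ∧ Disjoint V B ∧ Disjoint (frontier V) T := by
  let _ := metrizableSpaceMetric Y
  obtain ⟨O1, hO1, hAO1, hO1B⟩ := normal_exists_closure_subset hA hB.isOpen_compl
      (Set.subset_compl_iff_disjoint_right.2 hAB)
  obtain ⟨O2, hO2, hBO2, hO2O1⟩ := normal_exists_closure_subset hB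
      (isClosed_closure (s := O1)).isOpen_compl
      (fun y hy hy' => hO1B hy' hy)
  have hO12 : Disjoint (closure O1) (closure O2) := by
    rw [Set.disjoint_right]
    exact fun y hy => hO2O1 hy
  obtain ⟨C, hC, h1C, hC2⟩ := hT.sep
      (A := Subtype.val ⁻¹' closure O1) (B := Subtype.val ⁻¹' closure O2)
      (isClosed_closure.preimage continuous_subtype_val)
      (isClosed_closure.preimage continuous_subtype_val)
      (hO12.preimage _)
  set P : Set Y := A ∪ Subtype.val '' C with hP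
  set Q : Set Y := B ∪ Subtype.val '' Cᶜ with hQ
  -- closure of C does not meet the complement inside T
  have key : ∀ D : Set ↥T, IsClosed D → ∀ y : ↥T, (y : Y) ∈ closure (Subtype.val '' D) → y ∈ D := by
    intro D hD y hy
    have : y ∈ closure D := by
      rw [closure_subtype]
      exact hy
    rwa [hD.closure_eq] at this
  have hPQ1 : Disjoint (closure P) Q := by
    rw [hP, closure_union, hA.closure_eq, Set.disjoint_left]
    rintro y (hy | hy) (hy' | ⟨z, hz, rfl⟩)
    · exact Set.disjoint_left.1 hAB hy hy'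
    · exact hz (h1C (subset_closure (hAO1 hy)))
    · have hdd : Disjoint O2 (Subtype.val '' C) := by
        rw [Set.disjoint_left]
        rintro w hw ⟨v, hv, rfl⟩
        exact Set.disjoint_left.1 hC2 hv (subset_closure hw)
      exact Set.disjoint_left.1 (hdd.closure_right hO2) (hBO2 hy') hy
    · exact hz (key C hC.1 z hy)
  have hPQ2 : Disjoint P (closure Q) := by
    rw [hQ, closure_union, hB.closure_eq, Set.disjoint_left]
    rintro y (hy | ⟨z, hz, rfl⟩) (hy' | hy')
    · exact Set.disjoint_left.1 hAB hy hy'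
    · have hdd : Disjoint O1 (Subtype.val '' Cᶜ) := by
        rw [Set.disjoint_left]
        rintro w hw ⟨v, hv, rfl⟩
        exact hv (h1C (subset_closure hw))
      exact Set.disjoint_left.1 (hdd.closure_right hO1) (hAO1 hy) hy'
    · exact Set.disjoint_left.1 hC2 hz (subset_closure (hBO2 hy'))
    · exact (key Cᶜ hC.compl.1 z hy') hz
  obtain ⟨V, W, hV, hW, hPV, hQW, hVW⟩ := separatedNhds_iff_disjoint.2
    (completely_normal hPQ1 hPQ2)
  refine ⟨V, hV, subset_union_left.trans hPV, ?_, ?_⟩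
  · exact hVW.mono_right (subset_union_left.trans hQW)
  · rw [Set.disjoint_left]
    intro y hy hyT
    by_cases hyC : (⟨y, hyT⟩ : ↥T) ∈ C
    · have : y ∈ V := hPV (Or.inr ⟨_, hyC, rfl⟩)
      rw [hV.frontier_eq] at hy
      exact hy.2 this
    · have h1 : y ∈ W := hQW (Or.inr ⟨_, hyC, rfl⟩)
      have h2 : y ∈ closure V := frontier_subset_closure hy
      exact Set.disjoint_left.1 (hVW.closure_left hW) h2 h1

/-- if a base of the ambient space has boundaries missing `T`, then `T` is zero-dimensional -/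
theorem zd_of_basis {Y : Type} [TopologicalSpace Y] {T : Set Y} {s : Set (Set Y)}
    (hs : IsTopologicalBasis s) (h : ∀ V ∈ s, Disjoint (frontier V) T) : ZD ↥T := by
  intro x U hU
  rw [nhds_subtype_eq_comap] at hU
  obtain ⟨O, hO, hOU⟩ := hU
  obtain ⟨V, hV, hxV, hVO⟩ := hs.mem_nhds_iff.1 hO
  refine ⟨Subtype.val ⁻¹' V, ?_, hxV, (preimage_mono hVO).trans hOU⟩
  have hVo : IsOpen V := hs.isOpen hV
  refine ⟨?_, hVo.preimage continuous_subtype_val⟩
  have : (Subtype.val ⁻¹' V : Set ↥T) = Subtype.val ⁻¹' closure V := by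
    ext y
    constructor
    · exact fun hy => subset_closure hy
    · intro hy
      by_contra hyV
      have : (y : Y) ∈ frontier V := by
        rw [hVo.frontier_eq]
        exact ⟨hy, hyV⟩
      exact Set.disjoint_left.1 (h V hV) this y.2
  rw [this]
  exact isClosed_closure.preimage continuous_subtype_val

/-- a zero-dimensional subset of a separable metrizable space: there is a countable base, listed
as a sequence, whose boundaries miss it -/
theorem exists_basis_missing {Y : Type} [TopologicalSpace Y] [SecondCountableTopology Y]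
    [MetrizableSpace Y] {T : Set Y} (hT : ZD ↥T) :
    ∃ V : ℕ → Set Y, IsTopologicalBasis (range V) ∧ ∀ k, Disjoint (frontier (V k)) T := by
  have hb : IsTopologicalBasis {V : Set Y | IsOpen V ∧ Disjoint (frontier V) T} := by
    let _ := metrizableSpaceMetric Y
    refine isTopologicalBasis_of_isOpen_of_nhds (fun V hV => hV.1) ?_
    intro y O hy hO
    obtain ⟨V, hV, hyV, hVO, hVT⟩ := zd_ambient hT (A := {y}) (B := Oᶜ) isClosed_singleton
      hO.isClosed_compl (by rw [Set.disjoint_singleton_left]; exact fun h => h hy)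
    exact ⟨V, ⟨hV, hVT⟩, hyV rfl, fun z hz => by
      by_contra hzO
      exact Set.disjoint_left.1 hVO hz hzO⟩
  obtain ⟨s, hst, hsc, hsb⟩ := hb.exists_countable
  have hb' : IsTopologicalBasis (insert ∅ s) := by
    refine isTopologicalBasis_of_isOpen_of_nhds ?_ ?_
    · rintro V (rfl | hV)
      · exact isOpen_empty
      · exact hsb.isOpen hV
    · intro y O hy hO
      obtain ⟨V, hV, h1, h2⟩ := hsb.exists_subset_of_mem_open hy hO
      exact ⟨V, Or.inr hV, h1, h2⟩
  obtain ⟨V, hV⟩ := (hsc.insert ∅).exists_eq_range ⟨∅, Or.inl rfl⟩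
  refine ⟨V, hV ▸ hb', ?_⟩
  intro k
  have : V k ∈ insert ∅ s := by rw [hV]; exact ⟨k, rfl⟩
  rcases this with h | h
  · rw [h]; simp
  · exact (hst h).2

/-- a G-delta subset of a Polish space is Polish -/
theorem polish_of_isGdelta {Y : Type} [TopologicalSpace Y] [PolishSpace Y] {G : Set Y}
    (hG : IsGδ G) : PolishSpace ↥G := by
  obtain ⟨U, hU, rfl⟩ := isGδ_iff_eq_iInter_nat.1 hG
  have : ∀ n, PolishSpace ↥(U n) := fun n => (hU n).polishSpace
  let φ : ↥(⋂ n, U n) → (∀ n, ↥(U n)) := fun y n => ⟨y.1, mem_iInter.1 y.2 n⟩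
  have hφc : Continuous φ := by
    refine continuous_pi fun n => ?_
    exact Continuous.subtype_mk continuous_subtype_val _
  have hφi : IsInducing φ := by
    refine IsInducing.of_comp hφc
      (g := fun p : (∀ n, ↥(U n)) => ((p 0 : ↥(U 0)) : Y)) ?_ ?_
    · exact continuous_subtype_val.comp (continuous_apply 0)
    · exact IsInducing.subtypeVal
  have hφinj : Function.Injective φ := by
    intro a b hab
    have := congrArg (fun p => ((p 0 : ↥(U 0)) : Y)) hab
    exact Subtype.ext this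
  have hrange : range φ = {p | ∀ n, ((p n : ↥(U n)) : Y) = ((p 0 : ↥(U 0)) : Y)} := by
    ext p
    constructor
    · rintro ⟨y, rfl⟩ n
      rfl
    · intro hp
      refine ⟨⟨(p 0 : ↥(U 0)), mem_iInter.2 fun n => ?_⟩, ?_⟩
      · rw [← hp n]; exact (p n).2
      · funext n
        exact Subtype.ext (hp n).symm
  have hcl : IsClosed (range φ) := by
    rw [hrange]
    have : {p : (∀ n, ↥(U n)) | ∀ n, ((p n : ↥(U n)) : Y) = ((p 0 : ↥(U 0)) : Y)} =
        ⋂ n, {p | ((p n : ↥(U n)) : Y) = ((p 0 : ↥(U 0)) : Y)} := by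
      ext p; simp
    rw [this]
    refine isClosed_iInter fun n => ?_
    exact isClosed_eq (continuous_subtype_val.comp (continuous_apply n))
      (continuous_subtype_val.comp (continuous_apply 0))
  have hemb : IsClosedEmbedding φ := ⟨⟨hφi, hφinj⟩, hcl⟩
  exact hemb.polishSpace

end Pool.Agent.Helper220.MG
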